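import Pool.Agent.TH794.QE.TorA

/-! The energies of a set on the torus. -/

set_option autoImplicit false
set_option linter.unusedSectionVars false

open scoped BigOperators Matrix
open MeasureTheory

namespace Pool.Agent.TH794.QE

open Pool.Agent.W788.BK
open Pool.Agent.W788.MFP.Four (T e NN adj K ft Op q NN_pos e_zero)
open Pool.Agent.TH794.FG
open Pool.Agent.TH794.QD
open Pool.Agent.TH794.LL2 (fc Bq Bq_nonneg sum_fc_one conc2 gL sqrt_Bq_add)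

variable {d L : ℕ} [NeZero L]

/-- **the energies of a set** -/
theorem torA (B : ℝ → Prop) (P : ℝ → ℝ) (C δ θ η κ g1 ρ ρ2 τ Kf ζ s2 u0 ω1 W α e3 : ℝ) (M : ℕ)
    (j : Fin d) (hδ : 0 < δ) (hη : 0 < η) (hη1 : η ≤ 1) (hκ : 0 < κ) (hκ2 : κ ≤ 1 / 2)
    (hζ : 0 < ζ) (hM : W + ζ ≤ ζ * M)
    (V : T d L → ℝ) (hV : V ∈ GoodA (d := d) (L := L) B P δ θ η τ ζ Kf u0 ω1 M)
    (hC : 0 ≤ C) (hP0 : ∀ E, B E → 0 ≤ P E) (hP1 : ∀ E, B E → P E ≤ 1)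
    (hPl : ∀ E E', B E → B E' → |P E - P E'| ≤ 2 * C * |E - E'| ^ (1 / 8 : ℝ) / u0)
    (hf : ∀ (E : ℝ) (w : T d L → ℝ), |∑ x, V x * w x ^ 2| ≤ κ * q (JJ E δ) w)
    (hg : ∀ E, ∑ k : T d L, (JJ E δ k)⁻¹ ≤ g1 * NN d L) (hg0 : 0 ≤ g1)
    (hs2 : 0 < s2) (hu0 : u0 = η * δ / s2) (hω1 : ω1 ≤ 1 / 4)
    (hρ0 : 0 ≤ ρ) (hρ20 : 0 ≤ ρ2) (hτ : 0 ≤ τ) (hKf : 0 ≤ Kf)
    (hκ' : τ / (η * δ) + 4 * (κ + η) ≤ 1 / 2)
    (ρ' ρ2' : ℝ) (hρ' : ρ' = 2 * (ρ + ζ * (η * δ)⁻¹))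
    (hρ2' : ρ2' = 2 * (ρ2 + ζ * (2 * ((η * δ)⁻¹) ^ 2)))
    (h1 : 2 * (τ / (η * δ) + 2 * (κ + η)) * (Kf + ρ' / (η * δ)) +
      2 * Real.sqrt Kf * (2 * (Real.sqrt η * Real.sqrt g1) +
        3 * (ρ' / Real.sqrt (η * δ))) + ρ' / (η * δ) ≤ 1)
    (Bb A1 A2 : ℝ) (hB : Bb = Real.sqrt ((Kf + 1) / (η * δ)))
    (hA1 : A1 = 2 / δ * (η⁻¹ * (η⁻¹ * ((Real.sqrt δ)⁻¹ * (ρ' + τ * Bb) + η * (2 * Real.sqrt g1 +
      2 * (κ + η) * (Real.sqrt δ * Bb) + 2 * ((Real.sqrt δ)⁻¹ * ρ'))))))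
    (hA2 : A2 = 8 * ((Real.sqrt δ)⁻¹ * Bb) + (η⁻¹ + 4) * ((Real.sqrt δ)⁻¹ * ρ2'))
    (hα : η * δ * Real.sqrt (s2 / δ) * (A1 + A2) + 2 * (τ / (η * δ) + 4 * (κ + η)) ≤ α)
    (hα1 : α ≤ 1)
    (he3 : 12 * α + 8 * ω1 + 4 * C * ζ ^ (1 / 8 : ℝ) / u0 ≤ e3)
    (E : ℝ) (hE : |E| ≤ W) (hBE : B E) (hBj : ∀ j : ℤ, |E - ζ * j| ≤ ζ → B (ζ * j)) (vr vi rr ri wr wi sr si : T d L → ℝ)
    (h : Sol3 E (η * δ) V (Pi.single 0 1) (fun _ => 0) vr vi rr ri)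
    (h2 : Sol3 E (η * δ) V (Dj j vr) (Dj j vi) wr wi sr si)
    (hρ : Real.sqrt (Bq rr ri) ≤ ρ) (hρ2 : Real.sqrt (Bq sr si) ≤ ρ2)
    (hBv : Real.sqrt (Bq vr vi) ≤ (η * δ)⁻¹)
    (hBw : Real.sqrt (Bq wr wi) ≤ 2 * ((η * δ)⁻¹) ^ 2) :
    |(η * δ) ^ 2 * s2 * Bq wr wi - 2 * P E| ≤ e3 := by
  have ht0 : 0 < η * δ := by positivity
  have hu : 0 < u0 := by rw [hu0]; positivity
  have hN := NN_pos (d := d) (L := L)
  obtain ⟨i, hi⟩ : ∃ i : ℤ, i = ⌊E / ζ⌋ := ⟨_, rfl⟩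
  have f3 := Int.floor_le (E / ζ)
  have f4 := Int.lt_floor_add_one (E / ζ)
  rw [← hi] at f3 f4
  have f5 : ζ * (i : ℝ) ≤ E := by
    calc ζ * (i : ℝ) ≤ ζ * (E / ζ) := by gcongr
      _ = E := by field_simp
  have f6 : E ≤ ζ * (i : ℝ) + ζ := by
    calc E = ζ * (E / ζ) := by field_simp
      _ ≤ ζ * ((i : ℝ) + 1) := by gcongr
      _ = _ := by ring
  have hEi : |E - ζ * i| ≤ ζ := by
    rw [abs_le]
    constructor <;> linarith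
  have hiI : i ∈ Finset.Icc (-(M : ℤ)) M := by
    have e1 := abs_le.1 hE
    rw [Finset.mem_Icc]
    constructor
    · rw [hi, Int.le_floor, le_div_iff₀ hζ]
      push_cast
      linarith [e1.1]
    · have e2 : ζ * (i : ℝ) ≤ ζ * M := by linarith [e1.2]
      have e3 : (i : ℝ) ≤ M := le_of_mul_le_mul_left e2 hζ
      exact_mod_cast e3
  have hBi : B (ζ * i) := hBj i hEi
  obtain ⟨hFK, hQ⟩ := hV.2 i hiI hBi
  have hQj := hQ j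
  have hsh := h.shift (ζ * i)
  have hsh2 := h2.shift (ζ * i)
  have hρs : Real.sqrt (Bq (fun x => rr x + (E - ζ * i) * vr x)
      (fun x => ri x + (E - ζ * i) * vi x)) ≤ ρ' := by
    refine (sqrt_Bq_add _ _ _ _ _).trans ?_
    have : |E - ζ * i| * Real.sqrt (Bq vr vi) ≤ ζ * (η * δ)⁻¹ :=
      mul_le_mul hEi hBv (Real.sqrt_nonneg _) hζ.le
    rw [hρ']
    linarith
  have hρs2 : Real.sqrt (Bq (fun x => sr x + (E - ζ * i) * wr x)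
      (fun x => si x + (E - ζ * i) * wi x)) ≤ ρ2' := by
    refine (sqrt_Bq_add _ _ _ _ _).trans ?_
    have : |E - ζ * i| * Real.sqrt (Bq wr wi) ≤ ζ * (2 * ((η * δ)⁻¹) ^ 2) :=
      mul_le_mul hEi hBw (Real.sqrt_nonneg _) hζ.le
    rw [hρ2']
    linarith
  have hρ'0 : 0 ≤ ρ' := (Real.sqrt_nonneg _).trans hρs
  have hρ2'0 : 0 ≤ ρ2' := (Real.sqrt_nonneg _).trans hρs2
  have hX := Pool.Agent.W363.BK.D0_herm (d := d) (L := L) (ζ * i) δ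
  have hA := fun y => Pool.Agent.W363.BK.AA_herm (d := d) (L := L) (ζ * i) δ θ y
  have hF0 : 0 ≤ FS (ζ * i) δ θ η (Pi.single 0 1) (fun _ => 0) V := by
    have e1 := (ward hX hA hη V
      (wf (d := d) (L := L) (ζ * i) δ (Pi.single 0 1) (fun _ => 0))).1
    change FS (ζ * i) δ θ η (Pi.single 0 1) (fun _ => 0) V = _ at e1
    rw [e1]
    exact mul_nonneg hη.le (nsq_nonneg _)
  have hgS : ∑ k : T d L, (JJ (ζ * i) δ k)⁻¹ * ‖fc (Pi.single 0 1) (fun _ => 0) k‖ ^ 2 ≤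
      g1 * NN d L := by
    simp only [fc_single, norm_one, one_pow, mul_one]
    exact hg _
  have hn := tor_near3 (ζ * i) δ θ η κ g1 ρ' τ Kf hδ hη hη1 hκ hκ2
    hsh hgS hg0 hKf (hf _) hρ'0 hρs hτ hV.1 hBv hF0 hFK (by linarith)
  have hw := ward3 hsh
  have hBr : Real.sqrt (Bq vr vi) * Real.sqrt (Bq (fun x => rr x + (E - ζ * i) * vr x)
      (fun x => ri x + (E - ζ * i) * vi x)) ≤ ρ' / (η * δ) := by
    calc _ ≤ (η * δ)⁻¹ * ρ' := mul_le_mul hBv hρs (Real.sqrt_nonneg _) (by positivity)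
      _ = ρ' / (η * δ) := by rw [div_eq_mul_inv, mul_comm]
  have hBb : Real.sqrt (Bq vr vi) ≤ Bb := by
    rw [hB]
    apply Real.sqrt_le_sqrt
    rw [le_div_iff₀ ht0]
    have a1 := (abs_le.1 hw).2
    have a2 := (abs_le.1 hn).2
    linarith
  obtain ⟨qq, hqq⟩ : ∃ qq, qq = 2 / δ *
    Real.sqrt (FQ (d := d) (L := L) (ζ * i) δ θ η (sg j) V / η ^ 3) := ⟨_, rfl⟩
  obtain ⟨Δ, hΔ⟩ : ∃ Δ, Δ = 2 * (A1 + A2 + (τ / (η * δ) + 4 * (κ + η)) * qq) := ⟨_, rfl⟩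
  have hc := compare5 (ζ * i) δ θ η κ g1 ρ' ρ2' τ j hδ hη hκ hκ2 hsh hsh2 (hg _) hg0 (hf _)
    hρs hρs2 hρ2'0 hρ'0 hτ hV.1 hκ' Bb qq A1 A2 Δ hBb hqq hA1 hA2 hΔ
  -- normalisation
  obtain ⟨F, hF⟩ : ∃ F, F = FQ (d := d) (L := L) (ζ * i) δ θ η (sg j) V := ⟨_, rfl⟩
  rw [← hF] at hQj hqq
  have hFn : 0 ≤ F := by
    rw [hF, FQ_nsq _ _ _ _ _ _ hη]
    exact mul_nonneg (by positivity) (nsq_nonneg _)
  have hB0 : 0 ≤ Bb := (Real.sqrt_nonneg _).trans hBb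
  have hA10 : 0 ≤ A1 := by rw [hA1]; positivity
  have hA20 : 0 ≤ A2 := by rw [hA2]; positivity
  have hq0 : 0 ≤ qq := by rw [hqq]; positivity
  have hκ'0 : 0 ≤ τ / (η * δ) + 4 * (κ + η) := by positivity
  obtain ⟨n0, hn0⟩ : ∃ n0, n0 = η * δ * Real.sqrt (s2 / δ) := ⟨_, rfl⟩
  rw [← hn0] at hα
  have hn00 : 0 ≤ n0 := by rw [hn0]; positivity
  have hn2 : n0 ^ 2 * δ = (η * δ) ^ 2 * s2 := by
    rw [hn0, mul_pow, Real.sq_sqrt (by positivity)]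
    field_simp
  have hq2 : (n0 * qq) ^ 2 = 4 * F / u0 := by
    rw [mul_pow, hqq, mul_pow, Real.sq_sqrt (by positivity), hn0, mul_pow,
      Real.sq_sqrt (by positivity), hu0]
    field_simp
    ring
  have hP0 := hP0 _ hBi
  have hP1 := hP1 _ hBi
  have hq3 : |4 * F / u0 - 2 * P (ζ * i)| ≤ 8 * ω1 := by
    have e1 : 4 * F / u0 - 2 * P (ζ * i) = 4 / u0 * (F - u0 / 2 * P (ζ * i)) := by
      field_simp
      ring
    rw [e1, abs_mul, abs_of_pos (by positivity : 0 < 4 / u0)]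
    calc 4 / u0 * |F - u0 / 2 * P (ζ * i)| ≤ 4 / u0 * (2 * (u0 * ω1)) := by gcongr
      _ = 8 * ω1 := by
          field_simp
          ring
  have hq4 : n0 * qq ≤ 2 := by
    apply le_of_sq_le_sq _ (by norm_num)
    rw [hq2]
    have := (abs_le.1 hq3).2
    linarith
  have hnq0 : 0 ≤ n0 * qq := mul_nonneg hn00 hq0
  have hΔn : n0 * Δ ≤ 2 * α := by
    have e1 : n0 * Δ = 2 * (n0 * (A1 + A2) + (τ / (η * δ) + 4 * (κ + η)) * (n0 * qq)) := by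
      rw [hΔ]
      ring
    rw [e1]
    have := mul_le_mul_of_nonneg_left hq4 hκ'0
    linarith
  have hΔ0 : 0 ≤ n0 * Δ := by
    apply mul_nonneg hn00
    rw [hΔ]
    positivity
  have hmain : |(η * δ) ^ 2 * s2 * Bq wr wi - 4 * F / u0| ≤ 12 * α := by
    have e1 : (η * δ) ^ 2 * s2 * Bq wr wi - 4 * F / u0 = n0 ^ 2 * (δ * Bq wr wi - qq ^ 2) := by
      rw [← hq2, ← hn2]
      ring
    rw [e1, abs_mul, abs_of_nonneg (sq_nonneg n0)]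
    calc n0 ^ 2 * |δ * Bq wr wi - qq ^ 2| ≤ n0 ^ 2 * (Δ * (2 * qq + Δ)) := by gcongr
      _ = (n0 * Δ) * (2 * (n0 * qq) + n0 * Δ) := by ring
      _ ≤ (2 * α) * (2 * 2 + 2 * α) := by
          have hα0 : 0 ≤ 2 * α := hΔ0.trans hΔn
          apply mul_le_mul hΔn _ (by positivity) hα0
          linarith
      _ ≤ 12 * α := by
          have hα0 : 0 ≤ α := by linarith only [hΔ0.trans hΔn]
          have hαα : α * α ≤ α * 1 := mul_le_mul_of_nonneg_left hα1 hα0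
          linarith only [hαα]
  have hlip := hPl (ζ * i) E hBi hBE
  have hz8 : |ζ * i - E| ^ (1 / 8 : ℝ) ≤ ζ ^ (1 / 8 : ℝ) := by
    apply Real.rpow_le_rpow (abs_nonneg _) _ (by norm_num)
    rw [abs_sub_comm]
    exact hEi
  have hlip2 : 2 * C * |ζ * i - E| ^ (1 / 8 : ℝ) / u0 ≤ 2 * C * ζ ^ (1 / 8 : ℝ) / u0 := by
    gcongr
  have a1 := abs_sub_le ((η * δ) ^ 2 * s2 * Bq wr wi) (4 * F / u0) (2 * P E)
  have a2 := abs_sub_le (4 * F / u0) (2 * P (ζ * i)) (2 * P E)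
  have a3 : |2 * P (ζ * i) - 2 * P E| = 2 * |P (ζ * i) - P E| := by
    rw [← mul_sub, abs_mul, abs_of_pos (by norm_num : (0 : ℝ) < 2)]
  have a4 : 4 * C * ζ ^ (1 / 8 : ℝ) / u0 = 2 * (2 * C * ζ ^ (1 / 8 : ℝ) / u0) := by ring
  rw [a4] at he3
  linarith

end Pool.Agent.TH794.QE
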