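import Pool.Agent.TH794.QD.Lat6
import Pool.Agent.TH794.QE.TorB

/-! From the torus to the lattice, for the energies of a set. -/

set_option autoImplicit false
set_option linter.unusedSectionVars false

open scoped BigOperators Matrix
open MeasureTheory

namespace Pool.Agent.TH794.QE

open Pool.Agent.W788.BK
open Pool.Agent.W788
open Pool.Agent.W788.MFP.Four Pool.Agent.W788.MFP.Dos Pool.Agent.W788.MFP.Form
open Pool.Agent.W788.MFP.Ball Pool.Agent.W788.MFP.Crit Pool.Agent.W788.MFP.Cut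
open Pool.Agent.W788.MFP.Site Pool.Agent.W788.MF2.Dom Pool.Agent.W788.MF2.FinG
open Pool.Agent.W788.MF2.FormG Pool.Agent.W788.LD.Main Pool.Agent.H4R2
open Pool.Agent.H4R2.LO (Zd)
open Pool.Agent.H695R3.AN (lf lf_inj lf_add lf_sub)
open Pool.Agent.TH794.LL2 (Bq Bq_nonneg cut2)
open Pool.Agent.TH794.FG
open Pool.Agent.TH794.QD

variable {d L : ℕ} [NeZero L]

/-- the law of the second moment -/
def QLawA (d : ℕ) (B : ℝ → Prop) (P : ℝ → ℝ) (σ R t e3 s2 : ℝ) (ξ : Zd d → ℝ) : Prop :=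
  ∀ a : Zd d, ‖a‖ ≤ R → ∀ E : ℝ, B E → ∀ ur ui : Zd d → ℝ,
    LS d σ ξ (fun x => (Pi.single (M := fun _ => ℝ) 0 1 : Zd d → ℝ) (x - a)) (fun _ => 0) E t
      ur ui → ∀ j : Fin d,
    |t ^ 2 * s2 * (∑' x, (((x j : ℝ) - a j) * ur x) ^ 2 + ∑' x, (((x j : ℝ) - a j) * ui x) ^ 2) -
      2 * P E| ≤ e3

/-- **the lattice event** -/
theorem mainA (hd : 1 ≤ d) (B B' : ℝ → Prop) (P : ℝ → ℝ) (C : ℝ) (μ : Measure ℝ) [IsProbabilityMeasure μ] (c : ℝ)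
    (hμ : DomBy μ c) (σ R δ θ η κ g1 ρ ρ2 τ Kf ζ s2 u0 ω1 W α e3 e4 ℓ : ℝ) (M : ℕ) (hσ : 0 < σ)
    (hR : 1 ≤ R) (hδ : 0 < δ) (hδ1 : δ ≤ 1 / 2) (hη : 0 < η) (hη1 : η ≤ 1) (ht1 : η * δ ≤ 1)
    (hκ : 0 < κ) (hκ2 : κ ≤ 1 / 2)
    (hζ : 0 < ζ) (hM : W + ζ ≤ ζ * M) (hC : 0 ≤ C) (hPP0 : ∀ E, B E → 0 ≤ P E)
    (hPP1 : ∀ E, B E → P E ≤ 1)
    (hPl : ∀ E E', B E → B E' → |P E - P E'| ≤ 2 * C * |E - E'| ^ (1 / 8 : ℝ) / u0)
    (hB' : ∀ E, B' E → |E| ≤ W ∧ B E ∧ ∀ j : ℤ, |E - ζ * j| ≤ ζ → B (ζ * j))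
    (hg : ∀ E, ∑ k : T d L, (JJ E δ k)⁻¹ ≤ g1 * NN d L) (hg0 : 0 ≤ g1)
    (hs2 : 0 < s2) (hu0 : u0 = η * δ / s2) (hω1 : ω1 ≤ 1 / 4)
    (hρ0 : 0 ≤ ρ) (hρ20 : 0 ≤ ρ2) (hτ : 0 ≤ τ) (hKf : 0 ≤ Kf)
    (hκ' : τ / (η * δ) + 4 * (κ + η) ≤ 1 / 2)
    (ρ' ρ2' : ℝ) (hρ' : ρ' = 2 * (ρ + ζ * (η * δ)⁻¹))
    (hρ2' : ρ2' = 2 * (ρ2 + ζ * (2 * ((η * δ)⁻¹) ^ 2)))
    (h1 : 2 * (τ / (η * δ) + 2 * (κ + η)) * (Kf + ρ' / (η * δ)) +
      2 * Real.sqrt Kf * (2 * (Real.sqrt η * Real.sqrt g1) +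
        3 * (ρ' / Real.sqrt (η * δ))) + ρ' / (η * δ) ≤ 1)
    (Bb A1 A2 : ℝ) (hB : Bb = Real.sqrt ((Kf + 1) / (η * δ)))
    (hA1 : A1 = 2 / δ * (η⁻¹ * (η⁻¹ * ((Real.sqrt δ)⁻¹ * (ρ' + τ * Bb) + η * (2 * Real.sqrt g1 +
      2 * (κ + η) * (Real.sqrt δ * Bb) + 2 * ((Real.sqrt δ)⁻¹ * ρ'))))))
    (hA2 : A2 = 8 * ((Real.sqrt δ)⁻¹ * Bb) + (η⁻¹ + 4) * ((Real.sqrt δ)⁻¹ * ρ2'))
    (hα : η * δ * Real.sqrt (s2 / δ) * (A1 + A2) + 2 * (τ / (η * δ) + 4 * (κ + η)) ≤ α)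
    (hα1 : α ≤ 1)
    (he3 : 12 * α + 8 * ω1 + 4 * C * ζ ^ (1 / 8 : ℝ) / u0 ≤ e3)
    (hℓ0 : 0 < ℓ) (hL : 4 * ℓ + 4 < L) (hρℓ : 2 * d / ℓ * (η * δ)⁻¹ ≤ ρ)
    (hρ2ℓ : (8 * d + 4) / ℓ * ((η * δ)⁻¹) ^ 2 ≤ ρ2)
    (he4 : e3 + (η * δ) ^ 2 * s2 * (176 * d / ℓ ^ 2 * ((η * δ)⁻¹) ^ 6) ≤ e4)
    (p : ℕ) (hp : p ≠ 0) (ε1 ε : ℝ)
    (hgood : (PP (T d L) (μ.map fun s => σ * s)).real
      (GoodA (d := d) (L := L) B P δ θ η τ ζ Kf u0 ω1 M)ᶜ ≤ ε1)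
    (hε : (3 * R) ^ d * ((8 * d / δ) * ((8 * p * g1 * c ^ 2 * σ ^ 2 / (δ * κ ^ 2)) ^ p *
      (L : ℝ) ^ d) + ε1) ≤ ε) :
    ∃ G : Set (Zd d → ℝ), MeasurableSet G ∧
      1 - ε ≤ (Measure.infinitePi fun _ : Zd d => μ).real G ∧
      ∀ ξ ∈ G, QLawA d B' P σ R (η * δ) e4 s2 ξ := by
  have hmeas : MeasurableSet (GoodA (d := d) (L := L) B P δ θ η τ ζ Kf u0 ω1 M) :=
    goodA_meas B P δ θ η τ ζ Kf u0 ω1 M hη fun E j => continuous_FQ E δ θ η hη (sg j)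
  have ht : 0 < η * δ := by positivity
  have hGB : GB d L δ g1 := by
    intro E
    have e1 := hg E
    rw [inv_mul_le_iff₀ NN_pos]
    have e2 : ∑ k : T d L, (J E δ k)⁻¹ = ∑ k : T d L, (JJ E δ k)⁻¹ := rfl
    rw [e2]
    linarith
  obtain ⟨G1, hG1, hP1, hb⟩ := formE (d := d) (L := L) hd μ c hμ δ g1 hδ hδ1 hGB
    (κ / (2 * σ)) (by positivity) p hp
  have hsm : Measurable fun (V : T d L → ℝ) y => σ * V y := by fun_prop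
  obtain ⟨G2, hG2⟩ : ∃ G2, G2 = (fun (V : T d L → ℝ) y => σ * V y) ⁻¹'
    GoodA (d := d) (L := L) B P δ θ η τ ζ Kf u0 ω1 M := ⟨_, rfl⟩
  have hG2m : MeasurableSet G2 := by
    rw [hG2]
    exact hsm hmeas
  have hpm : IsProbabilityMeasure (μ.map fun s => σ * s) :=
    Measure.isProbabilityMeasure_map (by fun_prop)
  have hP2 : (Measure.pi fun _ : T d L => μ).real G2ᶜ ≤ ε1 := by
    have e1 : PP (T d L) (μ.map fun s => σ * s) =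
        (Measure.pi fun _ : T d L => μ).map (fun (V : T d L → ℝ) y => σ * V y) := by
      unfold PP
      rw [Measure.pi_map_pi (μ := fun _ : T d L => μ) (f := fun _ (s : ℝ) => σ * s)]
      intro i
      fun_prop
    rw [e1, map_measureReal_apply hsm hmeas.compl] at hgood
    rw [hG2]
    exact hgood
  have hG : MeasurableSet (G1 ∩ G2) := hG1.inter hG2m
  have hP : (3 * R) ^ d * (Measure.pi fun _ : T d L => μ).real (G1 ∩ G2)ᶜ ≤ ε := by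
    refine le_trans ?_ hε
    apply mul_le_mul_of_nonneg_left _ (by positivity)
    rw [Set.compl_inter]
    refine (measureReal_union_le _ _).trans (add_le_add ?_ hP2)
    refine hP1.trans ?_
    apply mul_le_mul_of_nonneg_left _ (by positivity)
    have e1 : 2 * p * g1 * δ⁻¹ * c ^ 2 / (κ / (2 * σ)) ^ 2 =
        8 * p * g1 * c ^ 2 * σ ^ 2 / (δ * κ ^ 2) := by
      field_simp
      ring
    rw [e1]
    exact le_refl _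
  set Bx : Finset (Zd d) := LO.bx (0 : Zd d) ⌊R⌋₊ with hBx
  set Rr : Zd d → (Zd d → ℝ) → (T d L → ℝ) := fun a ω y => ω (lf y + a) with hRr
  have hRm : ∀ a, Measurable (Rr a) := fun a => measurable_pi_iff.2 fun y => measurable_pi_apply _
  have hPa : ∀ a, (Measure.infinitePi fun _ : Zd d => μ).real (Rr a ⁻¹' (G1 ∩ G2))ᶜ =
      (Measure.pi fun _ : T d L => μ).real (G1 ∩ G2)ᶜ := by
    intro a
    have h1 : (Measure.infinitePi fun _ : Zd d => μ).real (Rr a ⁻¹' (G1 ∩ G2)ᶜ) =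
        (Measure.pi fun _ : T d L => μ).real (G1 ∩ G2)ᶜ := by
      rw [← Gen3.law_shift (d := d) (L := L) μ a, map_measureReal_apply (hRm a) hG.compl]
    exact h1
  have hm : MeasurableSet (⋂ a ∈ Bx, Rr a ⁻¹' (G1 ∩ G2)) :=
    Finset.measurableSet_biInter _ fun a _ => hRm a hG
  refine ⟨⋂ a ∈ Bx, Rr a ⁻¹' (G1 ∩ G2), hm, ?_, ?_⟩
  · have h2 := probReal_add_probReal_compl (μ := Measure.infinitePi fun _ : Zd d => μ) hm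
    have h3 : (Measure.infinitePi fun _ : Zd d => μ).real (⋂ a ∈ Bx, Rr a ⁻¹' (G1 ∩ G2))ᶜ ≤
        (3 * R) ^ d * (Measure.pi fun _ : T d L => μ).real (G1 ∩ G2)ᶜ := by
      have e1 : (⋂ a ∈ Bx, Rr a ⁻¹' (G1 ∩ G2))ᶜ = ⋃ a ∈ Bx, (Rr a ⁻¹' (G1 ∩ G2))ᶜ := by
        simp only [Set.compl_iInter]
      rw [e1]
      refine (measureReal_biUnion_finset_le _ _).trans
        ((Finset.sum_le_sum fun a _ => (hPa a).le).trans ?_)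
      rw [Finset.sum_const, nsmul_eq_mul, hBx, LO.Em.card_bx]
      apply mul_le_mul_of_nonneg_right _ measureReal_nonneg
      push_cast
      apply pow_le_pow_left₀ (by positivity)
      have := Nat.floor_le (show 0 ≤ R by linarith)
      linarith
    linarith
  · intro ξ hξ a ha E hBE' ur ui hLS j
    obtain ⟨hE, hBE, hBj⟩ := hB' E hBE'
    have haB : a ∈ Bx := Gen3.norm_zd a R ha
    have hV : Rr a ξ ∈ G1 ∩ G2 := Set.mem_iInter₂.1 hξ a haB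
    have hV2 := hV.2
    rw [hG2] at hV2
    have hLS0 : LS d σ (fun x => ξ (x + a)) (Pi.single 0 1) (fun _ => 0) E (η * δ)
        (fun x => ur (x + a)) (fun x => ui (x + a)) :=
      LS.shift (fr := Pi.single 0 1) (fi := fun _ => 0) a hLS
    obtain ⟨vr, vi, rr, ri, wr, wi, sr, si, hs1, hs2', hv1, hv2, hw1, hw2, hfin⟩ :=
      tor_green (L := L) ℓ hℓ0 hL ht ht1 hLS0 j
    have hform : ∀ (E : ℝ) (w : T d L → ℝ),
        |∑ x, (σ * ξ (lf x + a)) * w x ^ 2| ≤ κ * q (JJ E δ) w := by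
      intro E w
      have e1 := hb _ hV.1 E w
      have e2 : ∑ x, (σ * ξ (lf x + a)) * w x ^ 2 = σ * ∑ x, Rr a ξ x * w x ^ 2 := by
        rw [Finset.mul_sum]
        exact Finset.sum_congr rfl fun x _ => by rw [hRr]; ring
      rw [e2, abs_mul, abs_of_pos hσ]
      calc σ * |∑ x, Rr a ξ x * w x ^ 2| ≤ σ * (2 * (κ / (2 * σ)) * q (J E δ) w) :=
            mul_le_mul_of_nonneg_left e1 hσ.le
        _ = κ * q (J E δ) w := by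
            field_simp
        _ = _ := rfl
    have hq := torA B P C δ θ η κ g1 ρ ρ2 τ Kf ζ s2 u0 ω1 W α e3 M j hδ hη hη1 hκ hκ2 hζ hM
      (fun y => σ * ξ (lf y + a)) hV2 hC hPP0 hPP1 hPl hform hg hg0 hs2 hu0 hω1 hρ0 hρ20 hτ hKf hκ' ρ' ρ2' hρ' hρ2'
      h1 Bb A1 A2 hB hA1 hA2 hα hα1 he3 E hE hBE hBj vr vi rr ri wr wi sr si hs1 hs2' (hv2.trans hρℓ)
      (hw2.trans hρ2ℓ) hv1 hw1
    have e5 : ∀ u : Zd d → ℝ, ∑' x, (((x j : ℝ) - a j) * u x) ^ 2 =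
        ∑' x, (cj j x * u (x + a)) ^ 2 := by
      intro u
      rw [← (Equiv.addRight a).tsum_eq fun x => (((x j : ℝ) - a j) * u x) ^ 2]
      refine tsum_congr fun x => ?_
      simp only [Equiv.coe_addRight, Pi.add_apply]
      unfold cj
      push_cast
      rw [add_sub_cancel_right]
    rw [e5, e5]
    obtain ⟨S, hS⟩ : ∃ S, S = ∑' x, (cj j x * ur (x + a)) ^ 2 + ∑' x, (cj j x * ui (x + a)) ^ 2 :=
      ⟨_, rfl⟩
    rw [← hS] at hfin ⊢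
    have e6 : |(η * δ) ^ 2 * s2 * S - (η * δ) ^ 2 * s2 * Bq wr wi| ≤
        (η * δ) ^ 2 * s2 * (176 * d / ℓ ^ 2 * ((η * δ)⁻¹) ^ 6) := by
      rw [← mul_sub, abs_mul, abs_of_nonneg (by positivity : 0 ≤ (η * δ) ^ 2 * s2), abs_sub_comm]
      gcongr
    have e7 := abs_sub_le ((η * δ) ^ 2 * s2 * S) ((η * δ) ^ 2 * s2 * Bq wr wi) (2 * P E)
    linarith

end Pool.Agent.TH794.QE
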