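import Pool.Agent.TH794.QE.NetA
import Pool.Agent.TH794.QE.LatA
import Pool.Agent.TH794.QD.Lap
import Pool.Agent.TH794.QD.Evo
import Pool.Agent.TH794.QD.Num9

/-! The law of the second moment of the resolvent, for all scales simultaneously. -/

set_option autoImplicit false
set_option linter.unusedSectionVars false

open scoped BigOperators Topology
open MeasureTheory Filter Set

namespace Pool.Agent.TH794.QE

open Pool.Agent.W788.BK
open Pool.Agent.W788.LD.Spec (S)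
open Pool.Agent.H4R2.LO (Zd)
open Pool.Agent.W788.BK.Num
open Pool.Agent.TH794.LL2
open Pool.Agent.TH794.FG
open Pool.Agent.TH794.QD

/-- the solution of `(-Δ' + V - e - iη) u = δ_a`, `Δ'` the sum over the neighbours -/
structure Rs (d : ℕ) (V : Zd d → ℝ) (a : Zd d) (e η : ℝ) (u : Zd d → ℂ) : Prop where
  sq : Summable fun x => ‖u x‖ ^ 2
  eq : ∀ x, -S u x + (V x : ℂ) * u x - ((e : ℂ) + (η : ℂ) * Complex.I) * u x =
    if x = a then 1 else 0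

/-- the law for the energies `B` and the profile `P`, for one scale -/
def Eng (d : ℕ) (B : ℝ → Prop) (P : ℝ → ℝ → ℝ) (b v : ℝ) : Prop :=
  ∃ y0 : ℝ, ∀ y : ℝ, y0 ≤ y →
    ∀ (ν : Measure ℝ), IsProbabilityMeasure ν → (∀ᵐ s ∂ν, |s| ≤ b) → ∫ s, s ∂ν = 0 →
    ∀ Vv : ℝ, ∫ s, s ^ 2 ∂ν = Vv → v ≤ Vv →
    ∀ t : ℝ, Real.exp (-(81 / 40) * y) ≤ t → t ≤ Real.exp (-2 * y) * Vv →
    ∃ G : Set (Zd d → ℝ), MeasurableSet G ∧
      1 - Real.exp (-Real.exp (y / 100)) ≤ (Measure.infinitePi fun _ : Zd d => ν).real G ∧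
      ∀ ξ ∈ G, QLawA d B (P (t / (Real.exp (-2 * y) * Vv)))
        (Real.exp (-1 * y)) (Real.exp (Real.exp (y / 100))) t (Real.exp (-(1 / 250) * y))
        (Real.exp (-2 * y) * Vv) ξ

variable {d : ℕ}

theorem rs_exists (V : Zd d → ℝ) (B : ℝ) (hV : ∀ x, |V x| ≤ B) (a : Zd d) (e η : ℝ) (hη : 0 < η) :
    ∃ u : Zd d → ℂ, Rs d V a e η u := by
  obtain ⟨ψ, hψ⟩ := exists_sol V B hV a
  exact ⟨fun x => Complex.I * La ψ e η x, La_sum hψ e η hη, La_eq hψ e η hη⟩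

theorem rs_LS {V : Zd d → ℝ} {a : Zd d} {e η : ℝ} {u : Zd d → ℂ} (h : Rs d V a e η u)
    (ξ : Zd d → ℝ) (c0 σ : ℝ) (hV : ∀ x, V x = c0 - σ * ξ x) :
    LS d σ ξ (fun x => (Pi.single (M := fun _ => ℝ) 0 1 : Zd d → ℝ) (x - a)) (fun _ => 0)
      (c0 - e) η (fun x => -(u x).re) (fun x => (u x).im) := by
  have hu := h.sq
  have heq := h.eq
  have hn : ∀ x, ‖u x‖ ^ 2 = (u x).re ^ 2 + (u x).im ^ 2 := by
    intro x
    rw [← Complex.normSq_eq_norm_sq, Complex.normSq_apply]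
    ring
  have hs : ∀ x : Zd d, (Pi.single (M := fun _ => ℝ) 0 1 : Zd d → ℝ) (x - a) =
      if x = a then 1 else 0 := by
    intro x
    by_cases hx : x = a
    · rw [if_pos hx, hx, sub_self, Pi.single_eq_same]
    · rw [if_neg hx, Pi.single_eq_of_ne (sub_ne_zero.2 hx)]
  refine ⟨?_, ?_, ?_, ?_⟩
  · refine Summable.of_nonneg_of_le (fun x => sq_nonneg _) (fun x => ?_) hu
    rw [hn x]
    nlinarith [sq_nonneg (u x).im]
  · refine Summable.of_nonneg_of_le (fun x => sq_nonneg _) (fun x => ?_) hu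
    rw [hn x]
    nlinarith [sq_nonneg (u x).re]
  · intro x
    have h3 := congrArg Complex.re (heq x)
    rw [hV x] at h3
    have h4 : (if x = a then (1 : ℂ) else 0).re = if x = a then 1 else 0 := by
      split_ifs <;> simp
    rw [h4] at h3
    have h5 : ∑ i : Fin d, (-(u (x + Pi.single i 1)).re + -(u (x - Pi.single i 1)).re) =
        -∑ i : Fin d, ((u (x + Pi.single i 1)).re + (u (x - Pi.single i 1)).re) := by
      rw [← Finset.sum_neg_distrib]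
      exact Finset.sum_congr rfl fun i _ => by ring
    rw [h5, hs]
    simp [S] at h3
    linarith
  · intro x
    have h3 := congrArg Complex.im (heq x)
    rw [hV x] at h3
    have h4 : (if x = a then (1 : ℂ) else 0).im = 0 := by
      split_ifs <;> simp
    rw [h4] at h3
    simp [S] at h3
    linarith

/-- the moment around `a` -/
theorem mom_c {σ : ℝ} {ξ : Zd d → ℝ} {E t : ℝ} {ur ui : Zd d → ℝ} (a : Zd d)
    (h : LS d σ ξ (fun x => (Pi.single (M := fun _ => ℝ) 0 1 : Zd d → ℝ) (x - a)) (fun _ => 0) E t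
      ur ui) (ht : 0 < t) (ht1 : t ≤ 1) (j : Fin d) :
    LS d σ (fun x => ξ (x + a)) (Pi.single 0 1) (fun _ => 0) E t
      (fun x => ur (x + a)) (fun x => ui (x + a)) ∧
    (Summable fun x => (cj j x * ur (x + a)) ^ 2) ∧
    (Summable fun x => (cj j x * ui (x + a)) ^ 2) ∧
    (Summable fun x => (((x j : ℝ) - a j) * ur x) ^ 2) ∧
    (Summable fun x => (((x j : ℝ) - a j) * ui x) ^ 2) ∧
    ∑' x, (((x j : ℝ) - a j) * ur x) ^ 2 = ∑' x, (cj j x * ur (x + a)) ^ 2 ∧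
    ∑' x, (((x j : ℝ) - a j) * ui x) ^ 2 = ∑' x, (cj j x * ui (x + a)) ^ 2 ∧
    ∑' x, (((x j : ℝ) - a j) * ur x) ^ 2 + ∑' x, (((x j : ℝ) - a j) * ui x) ^ 2 ≤
      (2 * (t⁻¹) ^ 2) ^ 2 := by
  have h0 : LS d σ (fun x => ξ (x + a)) (Pi.single 0 1) (fun _ => 0) E t
      (fun x => ur (x + a)) (fun x => ui (x + a)) :=
    LS.shift (fr := Pi.single 0 1) (fi := fun _ => 0) a h
  obtain ⟨-, hLS, hT2, -⟩ := green h0 ht ht1 j
  have e4 : ∀ (u : Zd d → ℝ) (x : Zd d), (((((Equiv.addRight a) x) j : ℤ) : ℝ) - a j) *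
      u ((Equiv.addRight a) x) = cj j x * u (x + a) := by
    intro u x
    simp only [Equiv.coe_addRight, Pi.add_apply]
    unfold cj
    push_cast
    rw [add_sub_cancel_right]
  have e5 : ∀ u : Zd d → ℝ, ∑' x, (((x j : ℝ) - a j) * u x) ^ 2 =
      ∑' x, (cj j x * u (x + a)) ^ 2 := by
    intro u
    rw [← (Equiv.addRight a).tsum_eq fun x => (((x j : ℝ) - a j) * u x) ^ 2]
    exact tsum_congr fun x => by rw [e4]
  have e6 : ∀ u : Zd d → ℝ, (Summable fun x => (cj j x * u (x + a)) ^ 2) →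
      Summable fun x => (((x j : ℝ) - a j) * u x) ^ 2 := by
    intro u hu
    rw [← (Equiv.addRight a).summable_iff]
    refine hu.congr fun x => ?_
    simp only [Function.comp]
    rw [e4]
  refine ⟨h0, hLS.sr, hLS.si, e6 ur hLS.sr, e6 ui hLS.si, e5 ur, e5 ui, ?_⟩
  rw [e5, e5]
  exact hT2

/-- the second moment of the resolvent -/
noncomputable def QM (a : Zd d) (j : Fin d) (u : Zd d → ℂ) : ℝ :=
  ∑' x, ((x j : ℝ) - a j) ^ 2 * ‖u x‖ ^ 2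

theorem QM_eq {V : Zd d → ℝ} {a : Zd d} {e η : ℝ} {u : Zd d → ℂ} (h : Rs d V a e η u)
    (ξ : Zd d → ℝ) (c0 σ : ℝ) (hV : ∀ x, V x = c0 - σ * ξ x) (hη : 0 < η) (hη1 : η ≤ 1)
    (j : Fin d) :
    (Summable fun x => ((x j : ℝ) - a j) ^ 2 * ‖u x‖ ^ 2) ∧
    QM a j u = ∑' x, (((x j : ℝ) - a j) * (-(u x).re)) ^ 2 +
      ∑' x, (((x j : ℝ) - a j) * (u x).im) ^ 2 := by
  obtain ⟨-, -, -, s1, s2, -⟩ := mom_c a (rs_LS h ξ c0 σ hV) hη hη1 j
  have e1 : (fun x => ((x j : ℝ) - a j) ^ 2 * ‖u x‖ ^ 2) =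
      fun x => (((x j : ℝ) - a j) * (-(u x).re)) ^ 2 + (((x j : ℝ) - a j) * (u x).im) ^ 2 := by
    funext x
    rw [← Complex.normSq_eq_norm_sq, Complex.normSq_apply]
    ring
  unfold QM
  rw [e1]
  exact ⟨s1.add s2, s1.tsum_add s2⟩

/-- **the second moment is Lipschitz in the imaginary part** -/
theorem QM_lip {V : Zd d → ℝ} {a : Zd d} {e η η' : ℝ} {u u' : Zd d → ℂ} (h : Rs d V a e η u)
    (h' : Rs d V a e η' u') (τ ε : ℝ) (hτ : 0 < τ)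
    (ht : τ ≤ η) (ht1 : η ≤ 1) (ht' : τ ≤ η') (ht1' : η' ≤ 1) (hε : 0 < ε) (hε1 : ε ≤ 1)
    (htt : |η - η'| ≤ ε) (j : Fin d) :
    |η ^ 2 * QM a j u - η' ^ 2 * QM a j u'| ≤ 44 * ε * (τ⁻¹) ^ 6 := by
  have hV : ∀ x, V x = 0 - 1 * (fun x => -V x) x := fun x => by ring
  have hη : 0 < η := hτ.trans_le ht
  have hη' : 0 < η' := hτ.trans_le ht'
  have hτi : 1 ≤ τ⁻¹ := (one_le_inv₀ hτ).2 (ht.trans ht1)
  obtain ⟨a0, a1, a2, -, -, a5, a6, a7⟩ := mom_c a (rs_LS h _ 0 1 hV) hη ht1 j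
  obtain ⟨b0, b1, b2, -, -, b5, b6, b7⟩ := mom_c a (rs_LS h' _ 0 1 hV) hη' ht1' j
  have ea := (QM_eq h _ 0 1 hV hη ht1 j).2
  have eb := (QM_eq h' _ 0 1 hV hη' ht1' j).2
  have l1 := SM_lip a0 b0 τ ε hτ ht ht1 ht' ht1' hε hε1 htt j a1 a2 b1 b2
  have l2 := SM_lip b0 a0 τ ε hτ ht' ht1' ht ht1 hε hε1 (by rw [abs_sub_comm]; exact htt) j b1 b2
    a1 a2
  unfold SM at l1 l2
  rw [← a5, ← a6, ← b5, ← b6, ← ea, ← eb] at l1 l2
  rw [← ea] at a7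
  rw [← eb] at b7
  have hq0 : 0 ≤ QM a j u := tsum_nonneg fun _ => mul_nonneg (sq_nonneg _) (sq_nonneg _)
  have hq0' : 0 ≤ QM a j u' := tsum_nonneg fun _ => mul_nonneg (sq_nonneg _) (sq_nonneg _)
  have hq : QM a j u' ≤ 4 * (τ⁻¹) ^ 4 := by
    have h1 : η'⁻¹ ≤ τ⁻¹ := inv_anti₀ hτ ht'
    have h0 : 0 ≤ η'⁻¹ := (inv_pos.2 hη').le
    calc QM a j u' ≤ (2 * (η'⁻¹) ^ 2) ^ 2 := b7
      _ ≤ (2 * (τ⁻¹) ^ 2) ^ 2 := by gcongr
      _ = _ := by ring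
  have h46 : (τ⁻¹) ^ 4 ≤ (τ⁻¹) ^ 6 := pow_le_pow_right₀ hτi (by norm_num)
  have hd : |η ^ 2 - η' ^ 2| ≤ 2 * ε := by
    have e1 : η ^ 2 - η' ^ 2 = (η - η') * (η + η') := by ring
    rw [e1, abs_mul, abs_of_pos (by linarith : 0 < η + η')]
    calc |η - η'| * (η + η') ≤ ε * 2 := by
          gcongr
          linarith
      _ = 2 * ε := by ring
  have hdq : |QM a j u - QM a j u'| ≤ 36 * ε * (τ⁻¹) ^ 6 := by
    rw [abs_le]
    constructor <;> linarith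
  have e2 : η ^ 2 * QM a j u - η' ^ 2 * QM a j u' =
      η ^ 2 * (QM a j u - QM a j u') + (η ^ 2 - η' ^ 2) * QM a j u' := by ring
  rw [e2]
  refine (abs_add_le _ _).trans ?_
  rw [abs_mul, abs_mul, abs_of_pos (by positivity : 0 < η ^ 2), abs_of_nonneg hq0']
  calc η ^ 2 * |QM a j u - QM a j u'| + |η ^ 2 - η' ^ 2| * QM a j u' ≤
      1 * (36 * ε * (τ⁻¹) ^ 6) + 2 * ε * (4 * (τ⁻¹) ^ 4) := by
        have : η ^ 2 ≤ 1 := pow_le_one₀ hη.le ht1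
        gcongr
    _ ≤ 1 * (36 * ε * (τ⁻¹) ^ 6) + 2 * ε * (4 * (τ⁻¹) ^ 6) := by gcongr
    _ = _ := by ring

end Pool.Agent.TH794.QE
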