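import Pool.Agent.TH794.QD.Num9

/-! The numerical conditions with one more logarithm. -/

set_option autoImplicit false

open Filter

namespace Pool.Agent.TH794.QE

open Pool.Agent.W788.BK.Num
open Pool.Agent.TH794.QD
open Pool.Agent.TH794.LL2 (hexle sqrt_ex)

theorem numC7 (d : ℕ) (b A2 : ℝ) (hb : 0 < b) (hA20 : 0 < A2) :
    ∀ᶠ y : ℝ in atTop, ∀ A1 : ℝ, A1 = A2 * y → ∀ (β s2 g1 Kf η δ t kf ρ ρ2 ζ τ ρ' ρ2' B : ℝ),
    β = b * Real.exp (-1 * y) → 0 < s2 → s2 ≤ β ^ 2 → 1 ≤ A1 * y → g1 ≤ A1 * y → 0 ≤ Kf →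
    Kf ≤ 4 * (A1 * y) →
    Real.exp (-(17 / 200) * y) ≤ η → η ≤ Real.exp (-(59 / 1000) * y) →
    δ = Real.exp (-(97 / 50) * y) → t = η * δ → kf = Real.exp (-(23 / 1000) * y) →
    ρ = 2 * d * Real.exp (-(119 / 40) * y) → ρ2 = (8 * d + 4) * Real.exp (-(19 / 20) * y) →
    ζ = Real.exp (-10 * y) → τ = Real.exp (-(209 / 100) * y) →
    ρ' = 2 * (ρ + ζ * t⁻¹) → ρ2' = 2 * (ρ2 + ζ * (2 * (t⁻¹) ^ 2)) →
    B = Real.sqrt ((Kf + 1) / t) →
    τ / t + 4 * (kf + η) ≤ 1 / 2 ∧
    2 * (τ / t + 2 * (kf + η)) * (Kf + ρ' / t) +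
      2 * Real.sqrt Kf * (2 * (Real.sqrt η * Real.sqrt g1) + 3 * (ρ' / Real.sqrt t)) + ρ' / t ≤ 1 ∧
    t * Real.sqrt (s2 / δ) * (2 / δ * (η⁻¹ * (η⁻¹ * ((Real.sqrt δ)⁻¹ * (ρ' + τ * B) +
      η * (2 * Real.sqrt g1 + 2 * (kf + η) * (Real.sqrt δ * B) + 2 * ((Real.sqrt δ)⁻¹ * ρ'))))) +
      (8 * ((Real.sqrt δ)⁻¹ * B) + (η⁻¹ + 4) * ((Real.sqrt δ)⁻¹ * ρ2'))) +
      2 * (τ / t + 4 * (kf + η)) ≤ Real.exp (-(1 / 100) * y) := by
  filter_upwards [eventually_ge_atTop 1,
    ev2 18 (-(23 / 1000)) 0 0 (by norm_num),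
    ev2 (30 * (4 * A2 + 4 * d + 2)) (-(23 / 1000)) 0 2 (by norm_num),
    ev2 (12 * A2 * (2 * A2 + 12 * d + 6)) (-(59 / 2000)) 0 4 (by norm_num),
    ev2 (3 * (4 * d + 2)) (-(19 / 20)) 0 0 (by norm_num),
    ev2 (3 * (b * (54 * A2 + 24 * d + 12))) (-(21 / 2000)) (-(1 / 100)) 2 (by norm_num),
    ev2 (3 * (b * (40 * A2 + 80 * d + 60))) (-(93 / 2000)) (-(1 / 100)) 2 (by norm_num),
    ev2 54 (-(23 / 1000)) (-(1 / 100)) 0 (by norm_num)] with
    y hy1 n1 n2 n3 n4 n5 n6 n7
  intro A1 hA1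
  have hy10 : 0 < y := by linarith
  have hA10 : 0 < A1 := by rw [hA1]; positivity
  have hd00 : (0 : ℝ) ≤ d := Nat.cast_nonneg d
  have hyy1 : 0 ≤ y ^ 2 - y := by nlinarith
  have hyy2 : 0 ≤ y ^ 4 - y ^ 3 := by
    have : y ^ 4 - y ^ 3 = y ^ 3 * (y - 1) := by ring
    rw [this]
    apply mul_nonneg (by positivity)
    linarith
  have n2 : (30 * (4 * A1 + 4 * d + 2)) * y ^ 1 * Real.exp ((-(23 / 1000)) * y) ≤ Real.exp (0 * y) := by
    refine le_trans (mul_le_mul_of_nonneg_right ?_ (Real.exp_pos _).le) n2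
    rw [hA1]
    nlinarith [mul_nonneg hd00 hyy1, hyy1, hb.le, mul_nonneg hb.le hyy1, mul_nonneg (mul_nonneg hb.le hd00) hyy1]
  have n3 : (12 * A1 * (2 * A1 + 12 * d + 6)) * y ^ 2 * Real.exp ((-(59 / 2000)) * y) ≤ Real.exp (0 * y) := by
    refine le_trans (mul_le_mul_of_nonneg_right ?_ (Real.exp_pos _).le) n3
    rw [hA1]
    nlinarith [mul_nonneg (mul_nonneg hA20.le hd00) hyy2, mul_nonneg hA20.le hyy2]
  have n5 : (3 * (b * (54 * A1 + 24 * d + 12))) * y ^ 1 * Real.exp ((-(21 / 2000)) * y) ≤ Real.exp ((-(1 / 100)) * y) := by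
    refine le_trans (mul_le_mul_of_nonneg_right ?_ (Real.exp_pos _).le) n5
    rw [hA1]
    nlinarith [mul_nonneg hd00 hyy1, hyy1, hb.le, mul_nonneg hb.le hyy1, mul_nonneg (mul_nonneg hb.le hd00) hyy1]
  have n6 : (3 * (b * (40 * A1 + 80 * d + 60))) * y ^ 1 * Real.exp ((-(93 / 2000)) * y) ≤ Real.exp ((-(1 / 100)) * y) := by
    refine le_trans (mul_le_mul_of_nonneg_right ?_ (Real.exp_pos _).le) n6
    rw [hA1]
    nlinarith [mul_nonneg hd00 hyy1, hyy1, hb.le, mul_nonneg hb.le hyy1, mul_nonneg (mul_nonneg hb.le hd00) hyy1]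
  simp only [pow_zero, mul_one, pow_one, zero_mul, Real.exp_zero] at n1 n2 n3 n4 n5 n6 n7
  intro β s2 g1 Kf η δ t kf ρ ρ2 ζ τ ρ' ρ2' B hββ hs20 hs2β hAy1 hg1A hKf0 hKf hη hη' hδ ht hkf hρ
    hρ2 hζ hτ hρ' hρ2' hB
  have hd0 : (0 : ℝ) ≤ d := Nat.cast_nonneg d
  have hy0 : 0 < y := by linarith
  have hη0 : 0 < η := lt_of_lt_of_le (Real.exp_pos _) hη
  have hδ0 : 0 < δ := by rw [hδ]; positivity
  have ht0 : 0 < t := by rw [ht]; positivity
  have htl : Real.exp (-(81 / 40) * y) ≤ t := by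
    calc Real.exp (-(81 / 40) * y) = Real.exp (-(17 / 200) * y) * Real.exp (-(97 / 50) * y) := by
          rw [ex_mul]
          norm_num
      _ ≤ t := by
          rw [ht, hδ]
          gcongr
  have htu : t ≤ Real.exp (-(1999 / 1000) * y) := by
    calc t ≤ Real.exp (-(59 / 1000) * y) * Real.exp (-(97 / 50) * y) := by
          rw [ht, hδ]
          gcongr
      _ = _ := by
          rw [ex_mul]
          norm_num
  have hkf0 : 0 < kf := by rw [hkf]; positivity
  have hτ0 : 0 < τ := by rw [hτ]; positivity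
  have htinv : t⁻¹ ≤ Real.exp (81 / 40 * y) := by
    have h1 := inv_anti₀ (Real.exp_pos _) htl
    rw [ex_inv] at h1
    norm_num at h1 ⊢
    exact h1
  have hηinv : η⁻¹ ≤ Real.exp (17 / 200 * y) := by
    have h1 := inv_anti₀ (Real.exp_pos _) hη
    rw [ex_inv] at h1
    norm_num at h1 ⊢
    exact h1
  have htηδ : t = η * δ := ht
  have hsη : Real.sqrt η ≤ Real.exp (-(59 / 2000) * y) := by
    rw [← sqrt_ex (-(59 / 1000)) (-(59 / 2000)) y (by norm_num)]
    exact Real.sqrt_le_sqrt hη'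
  have hsδ : Real.sqrt δ = Real.exp (-(97 / 100) * y) := by
    rw [hδ]
    exact sqrt_ex _ _ y (by norm_num)
  have hsδi : (Real.sqrt δ)⁻¹ = Real.exp (97 / 100 * y) := by
    rw [hsδ, ex_inv]
    norm_num
  have hsti : (Real.sqrt t)⁻¹ ≤ Real.exp (-(-(81 / 80)) * y) := by
    rw [← ex_inv]
    apply inv_anti₀ (Real.exp_pos _)
    rw [← sqrt_ex (-(81 / 40)) (-(81 / 80)) y (by norm_num)]
    exact Real.sqrt_le_sqrt htl
  have a1 : τ / t ≤ kf := by
    calc τ / t ≤ Real.exp (-(209 / 100) * y) * Real.exp (81 / 40 * y) := by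
          rw [div_eq_mul_inv, hτ]
          gcongr
      _ ≤ kf := by
          rw [ex_mul, hkf]
          exact hexle hy1 _ _ (by norm_num)
  have a2 : η ≤ kf := by
    rw [hkf]
    exact hη'.trans (hexle hy1 _ _ (by norm_num))
  have hτt : 0 < τ / t := by positivity
  have a3 : τ / t + 2 * (kf + η) ≤ 5 * kf := by linarith
  have a4 : τ / t + 4 * (kf + η) ≤ 9 * kf := by linarith
  have hρ'1 : ρ' ≤ (4 * d + 2) * Real.exp (-(119 / 40) * y) := by
    have e1 : ζ * t⁻¹ ≤ Real.exp (-(119 / 40) * y) := by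
      calc ζ * t⁻¹ ≤ Real.exp (-10 * y) * Real.exp (81 / 40 * y) := by
            rw [hζ]
            gcongr
        _ ≤ _ := by
            rw [ex_mul]
            exact hexle hy1 _ _ (by norm_num)
    rw [hρ', hρ]
    linarith
  have hρ'0 : 0 ≤ ρ' := by
    rw [hρ', hρ, hζ]
    positivity
  have hρ2'1 : ρ2' ≤ (16 * d + 12) * Real.exp (-(19 / 20) * y) := by
    have e1 : ζ * (t⁻¹) ^ 2 ≤ Real.exp (-(19 / 20) * y) := by
      calc ζ * (t⁻¹) ^ 2 ≤ Real.exp (-10 * y) * (Real.exp (81 / 40 * y)) ^ 2 := by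
            rw [hζ]
            gcongr
        _ ≤ _ := by
            rw [ex_pow, ex_mul]
            exact hexle hy1 _ _ (by norm_num)
    rw [hρ2', hρ2]
    linarith
  have hρ2'0 : 0 ≤ ρ2' := by
    rw [hρ2', hρ2, hζ]
    positivity
  have hsg1 : Real.sqrt g1 ≤ A1 * y := by
    rw [Real.sqrt_le_left (by positivity)]
    calc g1 ≤ A1 * y * 1 := by linarith
      _ ≤ A1 * y * (A1 * y) := by gcongr
      _ = _ := by ring
  have hsK : Real.sqrt Kf ≤ 2 * (A1 * y) := by
    rw [Real.sqrt_le_left (by positivity)]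
    calc Kf ≤ 4 * (A1 * y) * 1 := by linarith
      _ ≤ 4 * (A1 * y) * (A1 * y) := by gcongr
      _ = _ := by ring
  have hBb : B ≤ 5 * (A1 * y) * Real.exp (81 / 80 * y) := by
    rw [hB, Real.sqrt_le_left (by positivity)]
    calc (Kf + 1) / t ≤ (Kf + 1) * Real.exp (81 / 40 * y) := by
          rw [div_eq_mul_inv]
          gcongr
      _ ≤ (5 * (A1 * y) * (5 * (A1 * y))) * Real.exp (81 / 40 * y) := by
          have h1 : 1 ≤ 5 * (A1 * y) := by linarith
          have h2 : Kf + 1 ≤ 5 * (A1 * y) * 1 := by linarith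
          have h3 : 5 * (A1 * y) * 1 ≤ 5 * (A1 * y) * (5 * (A1 * y)) := by gcongr
          have h4 := h2.trans h3
          gcongr
      _ = _ := by
          rw [mul_pow, ex_pow]
          norm_num
          ring
  have hB0 : 0 ≤ B := by rw [hB]; exact Real.sqrt_nonneg _
  have hsn : Real.sqrt (s2 / δ) ≤ b * Real.exp (-(3 / 100) * y) := by
    rw [Real.sqrt_le_left (by positivity)]
    calc s2 / δ ≤ (b * Real.exp (-1 * y)) ^ 2 / δ := by
          rw [hββ] at hs2β
          gcongr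
      _ = b ^ 2 * (Real.exp (-1 * y) ^ 2 * Real.exp (97 / 50 * y)) := by
          rw [hδ, div_eq_mul_inv, ex_inv]
          norm_num
          ring
      _ = _ := by
          rw [mul_pow, ex_pow, ex_pow, ex_mul]
          norm_num
  have hsn0 : 0 ≤ Real.sqrt (s2 / δ) := Real.sqrt_nonneg _
  have b2 : ρ' / t ≤ (4 * d + 2) * Real.exp (-(19 / 20) * y) := by
    calc ρ' / t ≤ (4 * d + 2) * Real.exp (-(119 / 40) * y) * Real.exp (81 / 40 * y) := by
          rw [div_eq_mul_inv]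
          gcongr
      _ = (4 * d + 2) * (Real.exp (-(119 / 40) * y) * Real.exp (81 / 40 * y)) := by ring
      _ = _ := by
          rw [ex_mul]
          norm_num
  have hρt0 : 0 ≤ ρ' / t := by positivity
  have he1 : Real.exp (-(19 / 20) * y) ≤ 1 := by
    have := hexle hy1 (-(19 / 20)) 0 (by norm_num)
    simpa using this
  refine ⟨?_, ?_, ?_⟩
  · rw [hkf] at a4
    linarith
  · have t1 : 2 * (τ / t + 2 * (kf + η)) * (Kf + ρ' / t) ≤ 1 / 3 := by
      calc 2 * (τ / t + 2 * (kf + η)) * (Kf + ρ' / t) ≤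
          2 * (5 * kf) * (4 * (A1 * y) + (4 * d + 2) * y) := by
            have h1 : ρ' / t ≤ (4 * d + 2) * y := by
              calc ρ' / t ≤ (4 * d + 2) * Real.exp (-(19 / 20) * y) := b2
                _ ≤ (4 * d + 2) * y := by
                    have : Real.exp (-(19 / 20) * y) ≤ y := he1.trans hy1
                    gcongr
            gcongr
        _ = 1 / 3 * (30 * (4 * A1 + 4 * d + 2) * y * kf) := by ring
        _ ≤ 1 / 3 := by
            rw [hkf]
            linarith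
    have t2 : 2 * Real.sqrt Kf * (2 * (Real.sqrt η * Real.sqrt g1) + 3 * (ρ' / Real.sqrt t)) ≤
        1 / 3 := by
      have h1 : ρ' / Real.sqrt t ≤ (4 * d + 2) * y * Real.exp (-(59 / 2000) * y) := by
        calc ρ' / Real.sqrt t ≤ (4 * d + 2) * Real.exp (-(119 / 40) * y) *
              Real.exp (-(-(81 / 80)) * y) := by
              rw [div_eq_mul_inv]
              gcongr
          _ = (4 * d + 2) * Real.exp (-(157 / 80) * y) := by
              rw [mul_assoc, ex_mul]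
              norm_num
          _ ≤ (4 * d + 2) * 1 * Real.exp (-(59 / 2000) * y) := by
              rw [mul_one]
              have := hexle hy1 (-(157 / 80)) (-(59 / 2000)) (by norm_num)
              gcongr
          _ ≤ _ := by gcongr
      calc 2 * Real.sqrt Kf * (2 * (Real.sqrt η * Real.sqrt g1) + 3 * (ρ' / Real.sqrt t)) ≤
          2 * (2 * (A1 * y)) * (2 * (Real.exp (-(59 / 2000) * y) * (A1 * y)) +
            3 * ((4 * d + 2) * y * Real.exp (-(59 / 2000) * y))) := by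
            gcongr
        _ = 1 / 3 * (12 * A1 * (2 * A1 + 12 * d + 6) * y ^ 2 * Real.exp (-(59 / 2000) * y)) := by
            ring
        _ ≤ 1 / 3 := by linarith
    have t3 : ρ' / t ≤ 1 / 3 := by linarith
    linarith
  · -- the first term
    obtain ⟨S, hS⟩ : ∃ S, S = Real.sqrt (s2 / δ) := ⟨_, rfl⟩
    rw [← hS] at hsn hsn0 ⊢
    have c0 : t * S * (2 / δ * (η⁻¹ * (η⁻¹ * ((Real.sqrt δ)⁻¹ * (ρ' + τ * B) +
        η * (2 * Real.sqrt g1 + 2 * (kf + η) * (Real.sqrt δ * B) +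
          2 * ((Real.sqrt δ)⁻¹ * ρ')))))) =
        S * (2 * (η⁻¹ * (Real.sqrt δ)⁻¹ * ρ') + 2 * (η⁻¹ * (Real.sqrt δ)⁻¹ * τ * B) +
          4 * Real.sqrt g1 + 4 * (kf + η) * (Real.sqrt δ * B) + 4 * ((Real.sqrt δ)⁻¹ * ρ')) := by
      rw [htηδ]
      have hsδ0 : 0 < Real.sqrt δ := Real.sqrt_pos.2 hδ0
      field_simp
      ring
    have T1 : η⁻¹ * (Real.sqrt δ)⁻¹ * ρ' ≤ (4 * d + 2) * y * Real.exp (39 / 2000 * y) := by
      calc η⁻¹ * (Real.sqrt δ)⁻¹ * ρ' ≤ Real.exp (17 / 200 * y) * Real.exp (97 / 100 * y) *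
            ((4 * d + 2) * Real.exp (-(119 / 40) * y)) := by
            rw [hsδi]
            gcongr
        _ = (4 * d + 2) * (Real.exp (17 / 200 * y) * Real.exp (97 / 100 * y) *
            Real.exp (-(119 / 40) * y)) := by ring
        _ = (4 * d + 2) * Real.exp (-(48 / 25) * y) := by
            rw [ex_mul, ex_mul]
            norm_num
        _ ≤ (4 * d + 2) * 1 * Real.exp (39 / 2000 * y) := by
            rw [mul_one]
            have := hexle hy1 (-(48 / 25)) (39 / 2000) (by norm_num)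
            gcongr
        _ ≤ _ := by gcongr
    have T2 : η⁻¹ * (Real.sqrt δ)⁻¹ * τ * B ≤ 5 * A1 * y * Real.exp (39 / 2000 * y) := by
      calc η⁻¹ * (Real.sqrt δ)⁻¹ * τ * B ≤ Real.exp (17 / 200 * y) * Real.exp (97 / 100 * y) *
            Real.exp (-(209 / 100) * y) * (5 * (A1 * y) * Real.exp (81 / 80 * y)) := by
            rw [hsδi, hτ]
            gcongr
        _ = 5 * A1 * y * (Real.exp (17 / 200 * y) * Real.exp (97 / 100 * y) *
            Real.exp (-(209 / 100) * y) * Real.exp (81 / 80 * y)) := by ring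
        _ = 5 * A1 * y * Real.exp (-(9 / 400) * y) := by
            rw [ex_mul, ex_mul, ex_mul]
            norm_num
        _ ≤ _ := by
            have := hexle hy1 (-(9 / 400)) (39 / 2000) (by norm_num)
            gcongr
    have T3 : Real.sqrt g1 ≤ A1 * y * Real.exp (39 / 2000 * y) := by
      have h1 : (1 : ℝ) ≤ Real.exp (39 / 2000 * y) := Real.one_le_exp (by positivity)
      calc Real.sqrt g1 ≤ A1 * y * 1 := by linarith
        _ ≤ _ := by gcongr
    have T4 : (kf + η) * (Real.sqrt δ * B) ≤ 10 * A1 * y * Real.exp (39 / 2000 * y) := by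
      calc (kf + η) * (Real.sqrt δ * B) ≤ (2 * Real.exp (-(23 / 1000) * y)) *
            (Real.exp (-(97 / 100) * y) * (5 * (A1 * y) * Real.exp (81 / 80 * y))) := by
            rw [hsδ]
            have : kf + η ≤ 2 * Real.exp (-(23 / 1000) * y) := by
              rw [← hkf]
              linarith
            gcongr
        _ = 10 * A1 * y * (Real.exp (-(23 / 1000) * y) * Real.exp (-(97 / 100) * y) *
            Real.exp (81 / 80 * y)) := by ring
        _ = _ := by
            rw [ex_mul, ex_mul]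
            norm_num
    have T5 : (Real.sqrt δ)⁻¹ * ρ' ≤ (4 * d + 2) * y * Real.exp (39 / 2000 * y) := by
      calc (Real.sqrt δ)⁻¹ * ρ' ≤ Real.exp (97 / 100 * y) *
            ((4 * d + 2) * Real.exp (-(119 / 40) * y)) := by
            rw [hsδi]
            gcongr
        _ = (4 * d + 2) * (Real.exp (97 / 100 * y) * Real.exp (-(119 / 40) * y)) := by ring
        _ = (4 * d + 2) * Real.exp (-(401 / 200) * y) := by
            rw [ex_mul]
            norm_num
        _ ≤ (4 * d + 2) * 1 * Real.exp (39 / 2000 * y) := by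
            rw [mul_one]
            have := hexle hy1 (-(401 / 200)) (39 / 2000) (by norm_num)
            gcongr
        _ ≤ _ := by gcongr
    have c1 : S * (2 * (η⁻¹ * (Real.sqrt δ)⁻¹ * ρ') + 2 * (η⁻¹ * (Real.sqrt δ)⁻¹ * τ * B) +
          4 * Real.sqrt g1 + 4 * (kf + η) * (Real.sqrt δ * B) + 4 * ((Real.sqrt δ)⁻¹ * ρ')) ≤
        1 / 3 * Real.exp (-(1 / 100) * y) := by
      have h1 : 2 * (η⁻¹ * (Real.sqrt δ)⁻¹ * ρ') + 2 * (η⁻¹ * (Real.sqrt δ)⁻¹ * τ * B) +
          4 * Real.sqrt g1 + 4 * (kf + η) * (Real.sqrt δ * B) + 4 * ((Real.sqrt δ)⁻¹ * ρ') ≤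
          (54 * A1 + 24 * d + 12) * y * Real.exp (39 / 2000 * y) := by
        linarith
      have h2 : 0 ≤ (54 * A1 + 24 * d + 12) * y * Real.exp (39 / 2000 * y) := by positivity
      calc _ ≤ (b * Real.exp (-(3 / 100) * y)) * ((54 * A1 + 24 * d + 12) * y *
            Real.exp (39 / 2000 * y)) :=
            (mul_le_mul_of_nonneg_left h1 hsn0).trans (mul_le_mul_of_nonneg_right hsn h2)
        _ = 1 / 3 * (3 * (b * (54 * A1 + 24 * d + 12)) * y * (Real.exp (-(3 / 100) * y) *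
            Real.exp (39 / 2000 * y))) := by ring
        _ = 1 / 3 * (3 * (b * (54 * A1 + 24 * d + 12)) * y * Real.exp (-(21 / 2000) * y)) := by
            rw [ex_mul]
            norm_num
        _ ≤ _ := by linarith
    have c2 : t * S * (8 * ((Real.sqrt δ)⁻¹ * B) + (η⁻¹ + 4) * ((Real.sqrt δ)⁻¹ * ρ2')) ≤
        1 / 3 * Real.exp (-(1 / 100) * y) := by
      have h1 : 8 * ((Real.sqrt δ)⁻¹ * B) + (η⁻¹ + 4) * ((Real.sqrt δ)⁻¹ * ρ2') ≤
          (40 * A1 + 80 * d + 60) * y * Real.exp (793 / 400 * y) := by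
        have f1 : (Real.sqrt δ)⁻¹ * B ≤ 5 * A1 * y * Real.exp (793 / 400 * y) := by
          calc (Real.sqrt δ)⁻¹ * B ≤ Real.exp (97 / 100 * y) *
                (5 * (A1 * y) * Real.exp (81 / 80 * y)) := by
                rw [hsδi]
                gcongr
            _ = 5 * A1 * y * (Real.exp (97 / 100 * y) * Real.exp (81 / 80 * y)) := by ring
            _ = _ := by
                rw [ex_mul]
                norm_num
        have f2 : (η⁻¹ + 4) * ((Real.sqrt δ)⁻¹ * ρ2') ≤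
            (80 * d + 60) * y * Real.exp (793 / 400 * y) := by
          have g1' : η⁻¹ + 4 ≤ 5 * Real.exp (17 / 200 * y) := by
            have : (1 : ℝ) ≤ Real.exp (17 / 200 * y) := Real.one_le_exp (by positivity)
            linarith
          calc (η⁻¹ + 4) * ((Real.sqrt δ)⁻¹ * ρ2') ≤ (5 * Real.exp (17 / 200 * y)) *
                (Real.exp (97 / 100 * y) * ((16 * d + 12) * Real.exp (-(19 / 20) * y))) := by
                rw [hsδi]
                gcongr
            _ = (80 * d + 60) * (Real.exp (17 / 200 * y) * Real.exp (97 / 100 * y) *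
                Real.exp (-(19 / 20) * y)) := by ring
            _ = (80 * d + 60) * Real.exp (21 / 200 * y) := by
                rw [ex_mul, ex_mul]
                norm_num
            _ ≤ (80 * d + 60) * 1 * Real.exp (793 / 400 * y) := by
                rw [mul_one]
                have := hexle hy1 (21 / 200) (793 / 400) (by norm_num)
                gcongr
            _ ≤ _ := by gcongr
        linarith
      have h0 : 0 ≤ 8 * ((Real.sqrt δ)⁻¹ * B) + (η⁻¹ + 4) * ((Real.sqrt δ)⁻¹ * ρ2') := by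
        positivity
      calc t * S * (8 * ((Real.sqrt δ)⁻¹ * B) + (η⁻¹ + 4) * ((Real.sqrt δ)⁻¹ * ρ2')) ≤
          Real.exp (-(1999 / 1000) * y) * (b * Real.exp (-(3 / 100) * y)) *
          ((40 * A1 + 80 * d + 60) * y * Real.exp (793 / 400 * y)) := by
            gcongr
        _ = 1 / 3 * (3 * (b * (40 * A1 + 80 * d + 60)) * y * (Real.exp (-(1999 / 1000) * y) *
            Real.exp (-(3 / 100) * y) * Real.exp (793 / 400 * y))) := by ring
        _ = 1 / 3 * (3 * (b * (40 * A1 + 80 * d + 60)) * y * Real.exp (-(93 / 2000) * y)) := by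
            rw [ex_mul, ex_mul]
            norm_num
        _ ≤ _ := by linarith
    have c3 : 2 * (τ / t + 4 * (kf + η)) ≤ 1 / 3 * Real.exp (-(1 / 100) * y) := by
      rw [hkf] at a4
      rw [hkf]
      linarith
    rw [mul_add, c0]
    linarith


end Pool.Agent.TH794.QE
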