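import Pool.Agent.TH794.QE.FinA

/-! The law of the second moment of the resolvent, for all scales simultaneously. -/

set_option autoImplicit false
set_option linter.unusedSectionVars false

open scoped BigOperators Topology
open MeasureTheory Filter Set

namespace Pool.Agent.TH794.QE

open Pool.Agent.W788.BK
open Pool.Agent.W788.LD.Spec (S)
open Pool.Agent.H4R2.LO (Zd)
open Pool.Agent.W788.BK.Num
open Pool.Agent.TH794.LL2
open Pool.Agent.TH794.FG
open Pool.Agent.TH794.QD

/-- **the law for all scales simultaneously** -/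
theorem finE (d : ℕ) (B : ℝ → Prop) (P : ℝ → ℝ → ℝ) (v : ℝ) (hv : 0 < v) (hEng : Eng d B P 1 v)
    (hPl : ∀ u u' E : ℝ, 0 < u → 0 < u' → B E → |P u E - P u' E| ≤ |u - u'| / u') :
    ∃ c0 : ℝ, 0 < c0 ∧ ∀ c : ℝ, 0 < c → c ≤ c0 →
    ∀ (μ : Measure ℝ), IsProbabilityMeasure μ → (∀ᵐ s ∂μ, |s| ≤ c) → ∫ s, s ∂μ = 0 →
    ∀ s2 : ℝ, ∫ s, s ^ 2 ∂μ = s2 → v * c ^ 2 ≤ s2 →
      ∃ G : Set (Zd d → ℝ), MeasurableSet G ∧
        1 - Real.exp (-c ^ (-(1 / 101) : ℝ)) ≤
          (Measure.infinitePi fun _ : Zd d => μ).real G ∧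
        ∀ ω ∈ G, (∀ x, |ω x| ≤ c) ∧
          ∀ a : Zd d, ‖a‖ ≤ Real.exp (c ^ (-(1 / 101) : ℝ)) →
          ∀ e : ℝ, B (2 * d - e) → ∀ η : ℝ, c ^ (81 / 40 : ℝ) ≤ η → η ≤ s2 →
          ∀ u : Zd d → ℂ, Rs d (fun x => 2 * d + ω x) a e η u → ∀ j : Fin d,
            (Summable fun x => ((x j : ℝ) - a j) ^ 2 * ‖u x‖ ^ 2) ∧
            |η ^ 2 * s2 * QM a j u - 2 * P (η / s2) (2 * d - e)| ≤ c ^ (1 / 300 : ℝ) := by
  obtain ⟨y0, h0⟩ := hEng
  obtain ⟨y2, hy2⟩ := Filter.eventually_atTop.1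
    ((ev2 16 (1 / 101) (1 / 100) 1 (by norm_num)).and
    ((ev2 v⁻¹ (-(1 / 40)) 0 0 (by norm_num)).and
    ((ev2 2 (-(1 / 250)) (-(1 / 300)) 0 (by norm_num)).and
    (ev2 92 (-(17 / 20)) (-(1 / 300)) 0 (by norm_num)))))
  obtain ⟨y1, hy1⟩ : ∃ y1, y1 = max (max y0 y2) 1 := ⟨_, rfl⟩
  refine ⟨Real.exp (-y1), Real.exp_pos _, ?_⟩
  intro c hc hc0 μ hμ hμb hμ0 s2 hs2 hvs
  obtain ⟨y, hy⟩ : ∃ y, y = Real.log (1 / c) := ⟨_, rfl⟩
  have hlogc : Real.log c = -y := by
    rw [hy, one_div, Real.log_inv, neg_neg]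
  have hyy1 : y1 ≤ y := by
    have h1 := Real.log_le_log hc hc0
    rw [Real.log_exp, hlogc] at h1
    linarith
  have hyy0 : y0 ≤ y := le_trans (by rw [hy1]; exact (le_max_left _ _).trans (le_max_left _ _)) hyy1
  have hyy2 : y2 ≤ y := le_trans (by rw [hy1]; exact (le_max_right _ _).trans (le_max_left _ _))
    hyy1
  have hyone : 1 ≤ y := le_trans (by rw [hy1]; exact le_max_right _ _) hyy1
  obtain ⟨n1, n2, n3, n4⟩ := hy2 y hyy2
  simp only [pow_zero, mul_one, zero_mul, Real.exp_zero, pow_one] at n1 n2 n3 n4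
  have hrp : ∀ p q : ℝ, q = -p → c ^ p = Real.exp (q * y) := by
    intro p q hpq
    rw [Real.rpow_def_of_pos hc, hlogc, hpq]
    congr 1
    ring
  have e1 : c ^ (-(1 / 101) : ℝ) = Real.exp (1 / 101 * y) := hrp _ _ (by norm_num)
  have e2 : c ^ (81 / 40 : ℝ) = Real.exp (-(81 / 40) * y) := hrp _ _ (by norm_num)
  have e3 : c ^ (1 / 300 : ℝ) = Real.exp (-(1 / 300) * y) := hrp _ _ (by norm_num)
  have e6 : c = Real.exp (-1 * y) := by
    rw [neg_one_mul, ← hlogc, Real.exp_log hc]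
  have e7 : c ^ 2 = Real.exp (-2 * y) := by
    rw [e6, ex_pow]
    norm_num
  have e8 : Real.exp (y / 100) = Real.exp (1 / 100 * y) := by
    congr 1
    ring
  have hc1 : c ≤ 1 := by
    rw [e6]
    exact Real.exp_le_one_iff.2 (by linarith)
  -- the rescaled law
  have hmm : Measurable fun s : ℝ => -s / c := by fun_prop
  obtain ⟨ν, hνdef⟩ : ∃ ν, ν = μ.map fun s => -s / c := ⟨_, rfl⟩
  have hνp : IsProbabilityMeasure ν := by
    rw [hνdef]
    exact Measure.isProbabilityMeasure_map hmm.aemeasurable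
  have hνb : ∀ᵐ s ∂ν, |s| ≤ 1 := by
    rw [hνdef, ae_map_iff hmm.aemeasurable (measurableSet_le (by fun_prop) (by fun_prop))]
    filter_upwards [hμb] with s hs
    rw [abs_div, abs_neg, abs_of_pos hc, div_le_one hc]
    exact hs
  have hν0 : ∫ s, s ∂ν = 0 := by
    rw [hνdef, integral_map hmm.aemeasurable (by fun_prop)]
    have h1 : (fun s : ℝ => -s / c) = fun s => (-1 / c) * s := by
      funext s
      ring
    rw [h1, integral_const_mul, hμ0, mul_zero]
  obtain ⟨Vv, hVv⟩ : ∃ Vv, Vv = s2 / c ^ 2 := ⟨_, rfl⟩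
  have hν2 : ∫ s, s ^ 2 ∂ν = Vv := by
    rw [hνdef, integral_map hmm.aemeasurable (by fun_prop), hVv, ← hs2]
    have h1 : (fun s : ℝ => (-s / c) ^ 2) = fun s => (1 / c ^ 2) * s ^ 2 := by
      funext s
      field_simp
    rw [h1, integral_const_mul]
    ring
  have hvV : v ≤ Vv := by
    rw [hVv, le_div_iff₀ (by positivity)]
    exact hvs
  have hs2V : Real.exp (-2 * y) * Vv = s2 := by
    rw [hVv, ← e7]
    field_simp
  have hs20 : 0 < s2 := lt_of_lt_of_le (by positivity) hvs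
  have hs21 : s2 ≤ 1 := by
    rw [← hs2]
    have h1 : ∫ s, s ^ 2 ∂μ ≤ ∫ _s, (1 : ℝ) ∂μ := by
      apply integral_mono_of_nonneg (Filter.Eventually.of_forall fun s => sq_nonneg _)
        (integrable_const _)
      filter_upwards [hμb] with s hs
      rw [← sq_abs]
      exact pow_le_one₀ (abs_nonneg _) (hs.trans hc1)
    rw [integral_const, probReal_univ, one_smul] at h1
    exact h1
  -- the net
  obtain ⟨τ, hτ⟩ : ∃ τ, τ = Real.exp (-(81 / 40) * y) := ⟨_, rfl⟩
  obtain ⟨ε, hε⟩ : ∃ ε, ε = Real.exp (-13 * y) := ⟨_, rfl⟩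
  have hτ0 : 0 < τ := by rw [hτ]; positivity
  have hε0 : 0 < ε := by rw [hε]; positivity
  have hε1 : ε ≤ 1 := by
    rw [hε]
    exact Real.exp_le_one_iff.2 (by linarith)
  have hτs : τ ≤ s2 := by
    refine le_trans ?_ hvs
    rw [e7, hτ]
    have h1 : Real.exp (-(1 / 40) * y) ≤ v := by
      have h2 := mul_le_mul_of_nonneg_left n2 hv.le
      rw [← mul_assoc, mul_inv_cancel₀ hv.ne', one_mul, mul_one] at h2
      exact h2
    calc Real.exp (-(81 / 40) * y) = Real.exp (-(1 / 40) * y) * Real.exp (-2 * y) := by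
          rw [ex_mul]
          norm_num
      _ ≤ _ := by gcongr
  obtain ⟨tk, htk⟩ : ∃ tk : ℕ → ℝ, tk = fun k : ℕ => min (τ + ε * (k : ℝ)) s2 := ⟨_, rfl⟩
  have htkk : ∀ k, tk k = min (τ + ε * k) s2 := fun k => by rw [htk]
  have htkl : ∀ k, τ ≤ tk k := by
    intro k
    rw [htkk]
    refine le_min ?_ hτs
    have : 0 ≤ ε * (k : ℝ) := by positivity
    linarith
  have htku : ∀ k, tk k ≤ s2 := by
    intro k
    rw [htkk]
    exact min_le_right _ _
  obtain ⟨K, hK⟩ : ∃ K : ℕ, K = ⌈Real.exp (13 * y)⌉₊ := ⟨_, rfl⟩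
  have hK1 : Real.exp (13 * y) ≤ K := by
    rw [hK]
    exact Nat.le_ceil _
  have hK2 : (K : ℝ) + 1 ≤ Real.exp (13 * y + 2) := by
    have h1 := Nat.ceil_lt_add_one (Real.exp_pos (13 * y)).le
    rw [← hK] at h1
    have h2 : (1 : ℝ) ≤ Real.exp (13 * y) := Real.one_le_exp (by linarith)
    have h3 := Real.add_one_le_exp (2 : ℝ)
    rw [Real.exp_add]
    have h4 : Real.exp (13 * y) * 3 ≤ Real.exp (13 * y) * Real.exp 2 := by
      apply mul_le_mul_of_nonneg_left _ (Real.exp_pos (13 * y)).le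
      linarith only [h3]
    linarith only [h1, h2, h4]
  -- the events
  choose Gk hGm hGP hGL using fun k : ℕ => h0 y hyy0 ν hνp hνb hν0 Vv hν2 hvV (tk k)
    (by rw [← hτ]; exact htkl k) (by rw [hs2V]; exact htku k)
  rw [hs2V] at hGL
  obtain ⟨Γ, hΓ⟩ : ∃ Γ, Γ = ⋂ k ∈ Finset.range (K + 1), Gk k := ⟨_, rfl⟩
  have hm : MeasurableSet Γ := by
    rw [hΓ]
    exact Finset.measurableSet_biInter _ fun k _ => hGm k
  have hΓP : 1 - Real.exp (-c ^ (-(1 / 101) : ℝ)) ≤ (Measure.infinitePi fun _ : Zd d => ν).real Γ := by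
    have h2 := probReal_add_probReal_compl (μ := Measure.infinitePi fun _ : Zd d => ν) hm
    have h3 : (Measure.infinitePi fun _ : Zd d => ν).real Γᶜ ≤
        Real.exp (-c ^ (-(1 / 101) : ℝ)) := by
      have e8' : Γᶜ = ⋃ k ∈ Finset.range (K + 1), (Gk k)ᶜ := by
        rw [hΓ]
        simp only [Set.compl_iInter]
      rw [e8']
      have h4 : ∀ k, (Measure.infinitePi fun _ : Zd d => ν).real (Gk k)ᶜ ≤
          Real.exp (-Real.exp (1 / 100 * y)) := by
        intro k
        have h5 := probReal_add_probReal_compl (μ := Measure.infinitePi fun _ : Zd d => ν) (hGm k)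
        have h6' := hGP k
        rw [e8] at h6'
        linarith
      refine (measureReal_biUnion_finset_le _ _).trans
        ((Finset.sum_le_sum fun k _ => h4 k).trans ?_)
      rw [Finset.sum_const, Finset.card_range, nsmul_eq_mul, e1]
      push_cast
      have h7 : 13 * y + 2 + Real.exp (1 / 101 * y) ≤ Real.exp (1 / 100 * y) := by
        have h8 : (1 : ℝ) ≤ Real.exp (1 / 101 * y) := Real.one_le_exp (by linarith)
        have h9 : y * 1 ≤ y * Real.exp (1 / 101 * y) := by gcongr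
        have h10 : 1 * Real.exp (1 / 101 * y) ≤ y * Real.exp (1 / 101 * y) := by gcongr
        have h11 : 1 ≤ y * Real.exp (1 / 101 * y) := by linarith only [h8, h10]
        have h12 : 16 * y * Real.exp (1 / 101 * y) = 16 * (y * Real.exp (1 / 101 * y)) := by ring
        linarith only [h9, h10, h11, h12, n1]
      calc ((K : ℝ) + 1) * Real.exp (-Real.exp (1 / 100 * y)) ≤
          Real.exp (13 * y + 2) * Real.exp (-Real.exp (1 / 100 * y)) := by gcongr
        _ = Real.exp (13 * y + 2 - Real.exp (1 / 100 * y)) := by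
            rw [← Real.exp_add]
            congr 1
        _ ≤ Real.exp (-Real.exp (1 / 101 * y)) := by
            apply Real.exp_le_exp.2
            linarith only [h7]
    linarith
  -- the bounded configurations
  obtain ⟨Bd, hBd⟩ : ∃ Bd : Set (Zd d → ℝ), Bd = ⋂ x : Zd d, {ω | |ω x| ≤ c} := ⟨_, rfl⟩
  have hBm : MeasurableSet Bd := by
    rw [hBd]
    refine MeasurableSet.iInter fun x => ?_
    exact measurableSet_le (by fun_prop) measurable_const
  have hBae : ∀ᵐ ω ∂(Measure.infinitePi fun _ : Zd d => μ), ω ∈ Bd := by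
    rw [hBd]
    simp only [mem_iInter, mem_ofPred_eq]
    rw [ae_all_iff]
    intro x
    have h1 : (Measure.infinitePi fun _ : Zd d => μ).map (fun ω : Zd d → ℝ => ω x) = μ :=
      Measure.infinitePi_map_eval (fun _ : Zd d => μ) x
    have h2 : ∀ᵐ s ∂((Measure.infinitePi fun _ : Zd d => μ).map (fun ω : Zd d → ℝ => ω x)),
        |s| ≤ c := by
      rw [h1]
      exact hμb
    exact ae_of_ae_map (measurable_pi_apply x).aemeasurable h2
  have hTm : Measurable (fun (ω : Zd d → ℝ) x => -ω x / c) := by fun_prop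
  have hlaw : (Measure.infinitePi fun _ : Zd d => μ).map (fun ω x => -ω x / c) =
      Measure.infinitePi fun _ : Zd d => ν := by
    rw [hνdef]
    exact Measure.infinitePi_map_pi (μ := fun _ : Zd d => μ)
      (f := fun _ (s : ℝ) => -s / c) (fun _ => by fun_prop)
  refine ⟨(fun ω x => -ω x / c) ⁻¹' Γ ∩ Bd, (hTm hm).inter hBm, ?_, ?_⟩
  · have h1 : (Measure.infinitePi fun _ : Zd d => μ).real ((fun ω x => -ω x / c) ⁻¹' Γ) =
        (Measure.infinitePi fun _ : Zd d => ν).real Γ := by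
      rw [← hlaw, map_measureReal_apply hTm hm]
    have h2 : (Measure.infinitePi fun _ : Zd d => μ).real ((fun ω x => -ω x / c) ⁻¹' Γ ∩ Bd) =
        (Measure.infinitePi fun _ : Zd d => μ).real ((fun ω x => -ω x / c) ⁻¹' Γ) := by
      apply measureReal_congr
      filter_upwards [hBae] with ω hω
      apply propext
      constructor
      · intro h
        exact h.1
      · intro h
        exact ⟨h, hω⟩
    rw [h2, h1]
    exact hΓP
  · intro ω hω
    have hωb : ∀ x, |ω x| ≤ c := by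
      have := hω.2
      rw [hBd] at this
      exact fun x => mem_iInter.1 this x
    have hωΓ : (fun x => -ω x / c) ∈ Γ := hω.1
    have hωk : ∀ k, k ≤ K → (fun x => -ω x / c) ∈ Gk k := by
      intro k hk
      rw [hΓ] at hωΓ
      exact Set.mem_iInter₂.1 hωΓ k (Finset.mem_range.2 (by omega))
    refine ⟨hωb, fun a ha e he η hηl hηu u hu j => ?_⟩
    rw [e2, ← hτ] at hηl
    have hη0 : 0 < η := hτ0.trans_le hηl
    have hη1 : η ≤ 1 := hηu.trans hs21
    have ha' : ‖a‖ ≤ Real.exp (Real.exp (y / 100)) := by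
      refine ha.trans (Real.exp_le_exp.2 ?_)
      rw [e1, e8]
      apply Real.exp_le_exp.2
      linarith
    have hV : ∀ x, (fun x => 2 * (d : ℝ) + ω x) x = 2 * d - Real.exp (-1 * y) * (fun x => -ω x / c) x := by
      intro x
      rw [← e6]
      field_simp
      ring
    refine ⟨(QM_eq hu _ _ _ hV hη0 hη1 j).1, ?_⟩
    -- the point of the net
    obtain ⟨k, hk⟩ : ∃ k : ℕ, k = ⌊(η - τ) / ε⌋₊ := ⟨_, rfl⟩
    have hq0 : 0 ≤ (η - τ) / ε := div_nonneg (by linarith) hε0.le
    have hk1 : (k : ℝ) ≤ (η - τ) / ε := by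
      rw [hk]
      exact Nat.floor_le hq0
    have hk2 : (η - τ) / ε < k + 1 := by
      rw [hk]
      exact Nat.lt_floor_add_one _
    rw [le_div_iff₀ hε0] at hk1
    rw [div_lt_iff₀ hε0] at hk2
    have hkt : tk k = τ + ε * k := by
      rw [htkk]
      apply min_eq_left
      linarith
    have hkK : k ≤ K := by
      have h1 : (k : ℝ) ≤ K := by
        have h2 : (k : ℝ) * ε ≤ 1 := by linarith
        have h3 : (k : ℝ) ≤ ε⁻¹ := by
          rw [← one_div, le_div_iff₀ hε0]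
          exact h2
        have h4 : ε⁻¹ = Real.exp (13 * y) := by
          rw [hε, ex_inv]
          norm_num
        rw [h4] at h3
        exact h3.trans hK1
      exact_mod_cast h1
    have htη : |η - tk k| ≤ ε := by
      rw [hkt, abs_le]
      constructor
      · linarith
      · linarith
    have htk0 : 0 < tk k := hτ0.trans_le (htkl k)
    have htk1 : tk k ≤ 1 := (htku k).trans hs21
    obtain ⟨u', hu'⟩ := rs_exists (fun x => 2 * (d : ℝ) + ω x) (2 * d + c) (fun x => by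
      refine (abs_add_le _ _).trans ?_
      rw [abs_of_nonneg (by positivity : (0 : ℝ) ≤ 2 * d)]
      linarith [hωb x]) a e (tk k) htk0
    have hlaw1 := hGL k _ (hωk k hkK) a ha' (2 * d - e) he _ _ (rs_LS hu' _ _ _ hV) j
    rw [← (QM_eq hu' _ _ _ hV htk0 htk1 j).2] at hlaw1
    have hlip := QM_lip hu hu' τ ε hτ0 hηl hη1 (htkl k) htk1 hε0 hε1 htη j
    have hPP := hPl (η / s2) (tk k / s2) (2 * d - e) (by positivity) (by positivity) he
    have hPP2 : |P (η / s2) (2 * d - e) - P (tk k / s2) (2 * d - e)| ≤ ε / τ := by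
      refine hPP.trans ?_
      rw [← sub_div, abs_div, abs_of_pos hs20, div_div_div_cancel_right₀ hs20.ne']
      have := htkl k
      gcongr
    have hfin : |η ^ 2 * s2 * QM a j u - 2 * P (η / s2) (2 * d - e)| ≤
        Real.exp (-(1 / 250) * y) + 44 * ε * (τ⁻¹) ^ 6 + 2 * (ε / τ) := by
      have e9 : η ^ 2 * s2 * QM a j u - 2 * P (η / s2) (2 * d - e) =
          (tk k ^ 2 * s2 * QM a j u' - 2 * P (tk k / s2) (2 * d - e)) +
          s2 * (η ^ 2 * QM a j u - tk k ^ 2 * QM a j u') -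
          2 * (P (η / s2) (2 * d - e) - P (tk k / s2) (2 * d - e)) := by ring
      rw [e9]
      refine (abs_sub _ _).trans ?_
      refine add_le_add ((abs_add_le _ _).trans (add_le_add hlaw1 ?_)) ?_
      · rw [abs_mul, abs_of_pos hs20]
        calc s2 * |η ^ 2 * QM a j u - tk k ^ 2 * QM a j u'| ≤ 1 * (44 * ε * (τ⁻¹) ^ 6) := by
              gcongr
          _ = _ := one_mul _
      · rw [abs_mul, abs_two]
        gcongr
    refine hfin.trans ?_
    rw [e3]
    have h1 : 44 * ε * (τ⁻¹) ^ 6 = 44 * Real.exp (-(17 / 20) * y) := by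
      rw [hε, hτ, ex_inv, ex_pow, mul_assoc, ex_mul]
      norm_num
    have h2 : ε / τ ≤ Real.exp (-(17 / 20) * y) := by
      rw [div_eq_mul_inv, hε, hτ, ex_inv, ex_mul]
      apply Real.exp_le_exp.2
      norm_num
      linarith
    rw [h1]
    have h3 := Real.exp_pos (-(17 / 20) * y)
    linarith

end Pool.Agent.TH794.QE
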