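import Pool.Agent.TH794.QE.FreeD
import Pool.Agent.TH311.LL2D.Low2

/-! Positivity of the boundary values in dimension two, in the bulk. -/

set_option autoImplicit false
set_option linter.unusedSectionVars false

open scoped BigOperators Topology
open MeasureTheory Set Filter

namespace Pool.Agent.TH794.QE

open Pool.Agent.W788.BK
open Pool.Agent.TH794.LL2
open Pool.Agent.W788.MFP.Four (T e NN adj K ft Op q NN_pos e_zero)
open Pool.Agent.W788.MFP.Dos (a a_eq)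
open Pool.Agent.TH794.QD (GF F0 F1 gW mv gW_one sg lim_le gW_im_mono gW_zero sg_sq_le char_im)
open Pool.Agent.TH311.LL2D (CH CH_ge Bu count_low)

/-- positivity in the upper half plane -/
theorem GF2_im0 (z : ℂ) (hz : 0 < z.im) :
    0 ≤ (GF (F1 2) z).im ∧ (GF (F1 2) z).im ≤ (GF (F0 2) z).im := by
  obtain ⟨t, ht⟩ : ∃ t, t = min 1 z.im := ⟨_, rfl⟩
  have ht0 : 0 < t := by rw [ht]; exact lt_min one_pos hz
  have ht1 : t ≤ 1 := by rw [ht]; exact min_le_left _ _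
  have htz : t ≤ z.im := by rw [ht]; exact min_le_right _ _
  have key : ∀ n : ℕ, |(gL 2 (n + 1) z).im - (GF (F0 2) z).im| ≤ 56 / t ^ 2 / (n + 1) ∧
      |(gW (fun k : T 2 (n + 1) => sg 0 k ^ 2) z).im - (GF (F1 2) z).im| ≤
        56 / t ^ 2 / (n + 1) := by
    intro n
    have h1 := finb0 (L := n + 1) 2 t ht0 ht1 z htz
    have h2 := finb1 (L := n + 1) 2 (by norm_num) 0 t ht0 ht1 z htz
    have e1 : 28 * ((2 : ℕ) : ℝ) / ((n + 1 : ℕ) : ℝ) / t ^ 2 = 56 / t ^ 2 / (n + 1) := by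
      push_cast
      ring
    rw [e1] at h1 h2
    constructor
    · rw [← Complex.sub_im]
      exact (Complex.abs_im_le_norm _).trans h1
    · rw [← Complex.sub_im]
      exact (Complex.abs_im_le_norm _).trans h2
  constructor
  · apply lim_le _ _ (56 / t ^ 2)
    intro n
    have h1 := (abs_le.1 (key n).2).2
    have h2 := gW_im_mono (d := 2) (L := n + 1) (fun _ => 0) (fun k => sg 0 k ^ 2)
      (fun k => sq_nonneg _) z hz
    rw [gW_zero, Complex.zero_im] at h2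
    linarith
  · apply lim_le _ _ (56 / t ^ 2 + 56 / t ^ 2)
    intro n
    have h1 := (abs_le.1 (key n).2).1
    have h3 := (abs_le.1 (key n).1).2
    have h2 := gW_im_mono (d := 2) (L := n + 1) (fun k => sg 0 k ^ 2) (fun _ => 1)
      (fun k => sg_sq_le _ k) z hz
    rw [gW_one] at h2
    rw [add_div]
    linarith

theorem bvl_im (ka : ℝ) (hka : 0 < ka) (hka1 : ka ≤ 1) (E : ℝ) (hE : Bu ka E) :
    0 ≤ (bvl (F1 2) E).im ∧ (bvl (F1 2) E).im ≤ (bvl (F0 2) E).im := by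
  have l0 := (Complex.continuous_im.tendsto _).comp ((holS0 ka hka hka1).bv E hE)
  have l1 := (Complex.continuous_im.tendsto _).comp ((holS1 ka hka hka1).bv E hE)
  have hmem : Set.Ioc (0 : ℝ) 1 ∈ 𝓝[>] (0 : ℝ) := Ioc_mem_nhdsGT one_pos
  constructor
  · refine ge_of_tendsto l1 ?_
    filter_upwards [hmem] with t ht
    exact (GF2_im0 _ (by simpa using ht.1)).1
  · refine le_of_tendsto_of_tendsto l1 l0 ?_
    filter_upwards [hmem] with t ht
    exact (GF2_im0 _ (by simpa using ht.1)).2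

/-- **the free data in dimension two** -/
theorem fd2 {L : ℕ} [NeZero L] (ka t : ℝ) (hka : 0 < ka) (hka1 : ka ≤ 1) (ht1 : t ≤ 1)
    (hL : 1 / (L : ℝ) ≤ t) (he : Real.exp (-(t * L / 4)) ≤ 1 / 4)
    (hX : CH ka * Real.exp (-(t * L / 4)) ≤ 56 / L / t ^ 2) :
    FD 2 L (Bu ka) (2 * CH ka) (56 / L / t ^ 2) t (bvl (F0 2)) (bvl (F1 2)) := by
  have hL0 : (0 : ℝ) < L := by exact_mod_cast Nat.pos_of_ne_zero (NeZero.ne L)
  have ht : 0 < t := lt_of_lt_of_le (by positivity) hL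
  have hCH := CH_ge ka
  have h0 := holS0 ka hka hka1
  have h1 := holS1 ka hka hka1
  have f0 : ∀ z : ℂ, t ≤ z.im → ‖gL 2 L z - GF (F0 2) z‖ ≤ 56 / L / t ^ 2 := by
    intro z hz
    refine (finb0 (L := L) 2 t ht ht1 z hz).trans (le_of_eq ?_)
    push_cast
    ring
  have f1 : ∀ (j : Fin 2) (z : ℂ), t ≤ z.im →
      ‖gW (fun k : T 2 L => sg j k ^ 2) z - GF (F1 2) z‖ ≤ 56 / L / t ^ 2 := by
    intro j z hz
    refine (finb1 (L := L) 2 (by norm_num) j t ht ht1 z hz).trans (le_of_eq ?_)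
    push_cast
    ring
  refine ⟨by positivity, by positivity, ?_, ?_, ?_, ?_, fun E hE => bvl_im ka hka hka1 E hE,
    fun E E' hE hE' => h0.lip E E' hE hE', fun E E' hE hE' => h1.lip E E' hE hE'⟩
  · intro z z' hz hz' a1 a2 a3 a4
    rw [gL_gS, gL_gS]
    have := gS_holder8 (fun _ : ZMod L => 1) (fun _ => by simp) ka t hka hka1 ht1 hL he z z' hz a1 a2
      hz' a3 a4
    linarith
  · intro j z z' hz hz' a1 a2 a3 a4
    rw [gW_gS, gW_gS]
    have := gS_holder8 (fun x : ZMod L => (ZMod.stdAddChar x : ℂ).im ^ 2) wt_le ka t hka hka1 ht1 hL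
      he z z' hz a1 a2 hz' a3 a4
    linarith
  · intro z E hz hE a1 a2
    have b1 := f0 z a1
    have b2 := h0.lim z hz (ht.trans_le a1) a2 E hE
    have e1 : gL 2 L z - bvl (F0 2) E = (gL 2 L z - GF (F0 2) z) + (GF (F0 2) z - bvl (F0 2) E) := by
      ring
    rw [e1]
    refine (norm_add_le _ _).trans ?_
    linarith
  · intro j z E hz hE a1 a2
    have b1 := f1 j z a1
    have b2 := h1.lim z hz (ht.trans_le a1) a2 E hE
    have e1 : gW (fun k : T 2 L => sg j k ^ 2) z - bvl (F1 2) E =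
        (gW (fun k : T 2 L => sg j k ^ 2) z - GF (F1 2) z) + (GF (F1 2) z - bvl (F1 2) E) := by
      ring
    rw [e1]
    refine (norm_add_le _ _).trans ?_
    linarith

theorem wt_low {L : ℕ} [NeZero L] (ka : ℝ) (hka : 0 < ka) (hka1 : ka ≤ 1) (x : ZMod L)
    (h : |a x| ≤ 2 - ka / 4) : ka / 8 ≤ (ZMod.stdAddChar x : ℂ).im ^ 2 := by
  rw [char_im]
  rw [a_eq] at h
  have h1 : 2 * Real.pi * (x.val : ℝ) / L = 2 * Real.pi * ((x.val : ℝ) / L) := by ring
  rw [h1, abs_mul, abs_of_pos (by norm_num : (0 : ℝ) < 2)] at h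
  obtain ⟨c, hc⟩ : ∃ c, c = Real.cos (2 * Real.pi * ((x.val : ℝ) / L)) := ⟨_, rfl⟩
  have h2 := Real.sin_sq_add_cos_sq (2 * Real.pi * ((x.val : ℝ) / L))
  rw [← hc] at h h2
  have h3 : c ^ 2 ≤ (1 - ka / 8) ^ 2 := by
    rw [← sq_abs c]
    exact pow_le_pow_left₀ (abs_nonneg _) (by linarith) 2
  nlinarith

/-- a lower bound of the weighted density of states of the torus -/
theorem gS_low {L : ℕ} [NeZero L] (ka t : ℝ) (hka : 0 < ka) (hka1 : ka ≤ 1) (ht : 0 < t)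
    (ht1 : t ≤ 1) (E : ℝ) (hE : |E| ≤ 4 - ka)
    (hL2 : 1 / (L : ℝ) ≤ t / (4 * Real.pi)) :
    ka / 8 * ((ka / (16 * Real.pi) - 1 / L) * (t / (4 * Real.pi) - 1 / L) / (2 * t)) ≤
      (gS (fun x : ZMod L => (ZMod.stdAddChar x : ℂ).im ^ 2)
        ((E : ℂ) + ((t : ℝ) : ℂ) * Complex.I)).im := by
  have hpi := Real.pi_gt_three
  have hL0 : (0 : ℝ) < L := by exact_mod_cast Nat.pos_of_ne_zero (NeZero.ne L)
  obtain ⟨hEl, hEu⟩ := abs_le.1 hE
  unfold gS
  have h1 : ((L : ℂ) ^ 2)⁻¹ = ((((L : ℝ) ^ 2)⁻¹ : ℝ) : ℂ) := by push_cast; rfl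
  rw [h1, Complex.im_ofReal_mul, Complex.im_sum]
  simp only [Complex.im_ofReal_mul, Complex.im_sum]
  have h2 : ∀ x y : ZMod L, ((((a y : ℝ) : ℂ) - (((E : ℂ) + ((t : ℝ) : ℂ) * Complex.I) -
      ((a x : ℝ) : ℂ)))⁻¹).im = t / ((a y + a x - E) ^ 2 + t ^ 2) := by
    intro x y
    rw [Complex.inv_im, Complex.normSq_apply]
    simp
    congr 1
    ring
  simp only [h2]
  obtain ⟨θ0, hθ0⟩ : ∃ θ, θ = Real.arccos (E / 4) := ⟨_, rfl⟩
  have hc0 : Real.cos θ0 = E / 4 := by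
    rw [hθ0]
    apply Real.cos_arccos <;> linarith
  obtain ⟨S1, hS1⟩ : ∃ S : Finset (ZMod L), S = Finset.univ.filter fun j : ZMod L =>
    |a j - 2 * Real.cos θ0| ≤ 2 * (ka / 8) := ⟨_, rfl⟩
  have hS1c := count_low (L := L) θ0 (ka / 8) (by rw [hθ0]; exact Real.arccos_nonneg _)
    (by rw [hθ0]; exact Real.arccos_le_pi _) (by linarith) (by linarith)
  rw [← hS1] at hS1c
  have hin : ∀ x ∈ S1, ka / 8 * (((L : ℝ) * (t / 2) / (2 * Real.pi) - 1) * (1 / (2 * t))) ≤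
      (ZMod.stdAddChar x : ℂ).im ^ 2 * ∑ y : ZMod L, t / ((a y + a x - E) ^ 2 + t ^ 2) := by
    intro x hx
    rw [hS1, Finset.mem_filter, hc0] at hx
    obtain ⟨hx1, hx2⟩ := abs_le.1 hx.2
    have hw : ka / 8 ≤ (ZMod.stdAddChar x : ℂ).im ^ 2 := by
      apply wt_low ka hka hka1
      rw [abs_le]
      constructor <;> linarith
    obtain ⟨θ, hθ⟩ : ∃ θ, θ = Real.arccos ((E - a x) / 2) := ⟨_, rfl⟩
    have hc : 2 * Real.cos θ = E - a x := by
      rw [hθ, Real.cos_arccos] <;> linarith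
    have hcount := count_low (L := L) θ (t / 2) (by rw [hθ]; exact Real.arccos_nonneg _)
      (by rw [hθ]; exact Real.arccos_le_pi _) (by linarith) (by linarith)
    obtain ⟨S2, hS2⟩ : ∃ S : Finset (ZMod L), S = Finset.univ.filter fun j : ZMod L =>
      |a j - 2 * Real.cos θ| ≤ 2 * (t / 2) := ⟨_, rfl⟩
    rw [← hS2] at hcount
    have hA0 : 0 ≤ (L : ℝ) * (t / 2) / (2 * Real.pi) - 1 := by
      have e1 : (L : ℝ) * (t / 2) / (2 * Real.pi) - 1 = L * (t / (4 * Real.pi) - 1 / L) := by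
        field_simp
        ring
      rw [e1]
      apply mul_nonneg hL0.le
      linarith
    refine mul_le_mul hw ?_ (mul_nonneg hA0 (by positivity)) (sq_nonneg _)
    calc ((L : ℝ) * (t / 2) / (2 * Real.pi) - 1) * (1 / (2 * t)) ≤ (S2.card : ℝ) * (1 / (2 * t)) :=
          mul_le_mul_of_nonneg_right hcount (by positivity)
      _ = ∑ y ∈ S2, 1 / (2 * t) := by rw [Finset.sum_const, nsmul_eq_mul]
      _ ≤ ∑ y ∈ S2, t / ((a y + a x - E) ^ 2 + t ^ 2) := by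
          refine Finset.sum_le_sum fun y hy => ?_
          rw [hS2, Finset.mem_filter, hc] at hy
          have h3 : |a y + a x - E| ≤ t := by
            have : a y + a x - E = a y - (E - a x) := by ring
            rw [this]
            linarith [hy.2]
          have h4 : (a y + a x - E) ^ 2 ≤ t ^ 2 := sq_le_sq' (abs_le.1 h3).1 (abs_le.1 h3).2
          rw [div_le_div_iff₀ (by positivity) (by positivity)]
          nlinarith
      _ ≤ _ := Finset.sum_le_sum_of_subset_of_nonneg (Finset.subset_univ _)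
          fun y _ _ => by positivity
  have hfin : ∑ x ∈ S1, ka / 8 * (((L : ℝ) * (t / 2) / (2 * Real.pi) - 1) * (1 / (2 * t))) ≤
      ∑ x : ZMod L, (ZMod.stdAddChar x : ℂ).im ^ 2 *
        ∑ y : ZMod L, t / ((a y + a x - E) ^ 2 + t ^ 2) := by
    refine (Finset.sum_le_sum hin).trans ?_
    refine Finset.sum_le_sum_of_subset_of_nonneg (Finset.subset_univ _) fun x _ _ => ?_
    exact mul_nonneg (sq_nonneg _) (Finset.sum_nonneg fun y _ => by positivity)
  rw [Finset.sum_const, nsmul_eq_mul] at hfin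
  have hA : (L : ℝ) * (t / 2) / (2 * Real.pi) - 1 = L * (t / (4 * Real.pi) - 1 / L) := by
    field_simp
    ring
  have hB : (L : ℝ) * (ka / 8) / (2 * Real.pi) - 1 = L * (ka / (16 * Real.pi) - 1 / L) := by
    field_simp
    ring
  rw [hA] at hfin
  rw [hB] at hS1c
  have hA0 : 0 ≤ t / (4 * Real.pi) - 1 / (L : ℝ) := by linarith
  calc ka / 8 * ((ka / (16 * Real.pi) - 1 / L) * (t / (4 * Real.pi) - 1 / L) / (2 * t)) =
        ((L : ℝ) ^ 2)⁻¹ * ((L * (ka / (16 * Real.pi) - 1 / L)) *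
          (ka / 8 * ((L * (t / (4 * Real.pi) - 1 / L)) * (1 / (2 * t))))) := by
        field_simp
    _ ≤ ((L : ℝ) ^ 2)⁻¹ * ((S1.card : ℝ) *
          (ka / 8 * ((L * (t / (4 * Real.pi) - 1 / L)) * (1 / (2 * t))))) := by
        gcongr
    _ ≤ _ := by gcongr

/-- a lower bound in infinite volume -/
theorem GF2_low (ka t : ℝ) (hka : 0 < ka) (hka1 : ka ≤ 1) (ht : 0 < t) (ht1 : t ≤ 1) (E : ℝ)
    (hE : |E| ≤ 4 - ka) :
    ka ^ 2 / (1024 * Real.pi ^ 2) ≤ (GF (F1 2) ((E : ℂ) + ((t : ℝ) : ℂ) * Complex.I)).im := by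
  have hpi := Real.pi_gt_three
  have l3 : Tendsto (fun n : ℕ => 1 / ((n : ℝ) + 1)) atTop (𝓝 0) :=
    tendsto_one_div_add_atTop_nhds_zero_nat
  have ev2' : ∀ᶠ n : ℕ in atTop, 1 / ((n : ℝ) + 1) ≤ t / (4 * Real.pi) :=
    l3.eventually (ge_mem_nhds (by positivity))
  have key : ∀ᶠ n : ℕ in atTop, ka / 8 * ((ka / (16 * Real.pi) - 1 / ((n : ℝ) + 1)) *
      (t / (4 * Real.pi) - 1 / ((n : ℝ) + 1)) / (2 * t)) -
      56 / t ^ 2 * (1 / ((n : ℝ) + 1)) ≤
        (GF (F1 2) ((E : ℂ) + ((t : ℝ) : ℂ) * Complex.I)).im := by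
    filter_upwards [ev2'] with n hn2
    have e0 : (((n + 1 : ℕ)) : ℝ) = (n : ℝ) + 1 := by push_cast; ring
    have a2 := gS_low (L := n + 1) ka t hka hka1 ht ht1 E hE (by rw [e0]; exact hn2)
    have a1 := finb1 (L := n + 1) 2 (by norm_num) 0 t ht ht1
      ((E : ℂ) + ((t : ℝ) : ℂ) * Complex.I) (by simp)
    rw [gW_gS] at a1
    have a3 := Complex.abs_im_le_norm (gS (fun x : ZMod (n + 1) => (ZMod.stdAddChar x : ℂ).im ^ 2)
      ((E : ℂ) + ((t : ℝ) : ℂ) * Complex.I) - GF (F1 2) ((E : ℂ) + ((t : ℝ) : ℂ) * Complex.I))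
    rw [Complex.sub_im] at a3
    have a4 := (abs_le.1 (a3.trans a1)).2
    rw [e0] at a2 a4
    have a5 : 28 * ((2 : ℕ) : ℝ) / ((n : ℝ) + 1) / t ^ 2 = 56 / t ^ 2 * (1 / ((n : ℝ) + 1)) := by
      push_cast
      ring
    rw [a5] at a4
    linarith
  have l4 := ((((l3.const_sub (ka / (16 * Real.pi))).mul
    (l3.const_sub (t / (4 * Real.pi)))).div_const (2 * t)).const_mul (ka / 8)).sub
    (l3.const_mul (56 / t ^ 2))
  simp only [mul_zero, sub_zero] at l4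
  have h5 := le_of_tendsto l4 key
  refine le_trans (le_of_eq ?_) h5
  field_simp
  norm_num

theorem bvl_low (ka : ℝ) (hka : 0 < ka) (hka1 : ka ≤ 1) (E : ℝ) (hE : Bu ka E) :
    ka ^ 2 / (1024 * Real.pi ^ 2) ≤ (bvl (F1 2) E).im := by
  have l1 := (Complex.continuous_im.tendsto _).comp ((holS1 ka hka hka1).bv E hE)
  have hmem : Set.Ioc (0 : ℝ) 1 ∈ 𝓝[>] (0 : ℝ) := Ioc_mem_nhdsGT one_pos
  refine ge_of_tendsto l1 ?_
  filter_upwards [hmem] with t ht
  exact GF2_low ka t hka hka1 ht.1 ht.2 E hE.2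

end Pool.Agent.TH794.QE
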