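import Pool.Agent.TH794.QD.Num8

/-! The numerical conditions with one more logarithm. -/

set_option autoImplicit false

open Filter

namespace Pool.Agent.TH794.QE

open Pool.Agent.W788.BK.Num
open Pool.Agent.TH794.QD
open Pool.Agent.TH794.LL2 (hexle sqrt_ex)

theorem numK7 (b A2 CQ : ℝ) (hb : 0 < b) (hCQ : 0 < CQ) (hA20 : 0 < A2) :
    ∀ᶠ y : ℝ in atTop, ∀ A1 : ℝ, A1 = A2 * y → ∀ (β a v2 Q s2 cnt N η δ g1 : ℝ), β = b * Real.exp (-1 * y) → 0 ≤ a →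
    a ≤ A1 * y → 1 ≤ A1 * y → 0 ≤ v2 →
    v2 ≤ A1 * y * Real.exp (97 / 50 * y) → 0 ≤ Q →
    Q ≤ 8 * CQ * y ^ 2 * Real.exp (67 / 50 * y) → s2 ≤ β ^ 2 → 0 ≤ s2 →
    0 < N → 1 ≤ cnt → cnt ≤ 2 * Real.exp (-(11 / 5) * y) * N →
    Real.exp (-(17 / 200) * y) ≤ η → Real.exp (-(81 / 40) * y) ≤ η * δ → 0 ≤ g1 → g1 ≤ A1 * y →
    β * a * (3 / η) ≤ 1 ∧ β * a ≤ η ∧ β ^ 2 * v2 ≤ 1 ∧
    4 * β ^ 3 * a * v2 * (3 / η) ^ 3 + s2 * (2 * β * (3 * Q) * Real.sqrt v2 * (3 / η) ^ 4) ≤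
      Real.exp (-(17 / 50) * y) ∧
    4 * β ^ 3 * a * v2 / η ^ 3 + s2 * (2 * β * Q * Real.sqrt v2 / η ^ 4) ≤
      Real.exp (-(17 / 50) * y) ∧
    s2 * cnt ≤ Real.exp (-(1 / 10) * y) * (η ^ 2 * δ ^ 2) * N ∧
    2 * β ^ 2 / η ^ 2 * (Q + a ^ 2 / η ^ 2) ≤ Real.exp (-(1 / 5) * y) ^ 2 ∧
    4 * β ^ 2 * (3 * Q) * (3 / η) ^ 6 * g1 ^ 2 ≤ Real.exp (-(37 / 500) * y) ^ 2 := by
  filter_upwards [eventually_ge_atTop 1,
    ev2 (3 * b * A2) (-(183 / 200)) 0 2 (by norm_num),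
    ev2 (b * A2) (-1) (-(17 / 200)) 2 (by norm_num),
    ev2 (b ^ 2 * A2) (-(3 / 50)) 0 2 (by norm_num),
    ev2 (216 * b ^ 3 * A2 ^ 2) (-(161 / 200)) (-(17 / 50)) 4 (by norm_num),
    ev2 (7776 * b ^ 3 * CQ * A2) (-(7 / 20)) (-(17 / 50)) 4 (by norm_num),
    ev2 (2 * b ^ 2) (-(21 / 5)) (-(83 / 20)) 0 (by norm_num),
    ev2 (32 * b ^ 2 * CQ) (-(49 / 100)) (-(2 / 5)) 2 (by norm_num),
    ev2 (4 * b ^ 2 * A2 ^ 2) (-(83 / 50)) (-(2 / 5)) 4 (by norm_num),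
    ev2 (69984 * b ^ 2 * CQ * A2 ^ 2) (-(3 / 20)) (-(37 / 250)) 6 (by norm_num)] with
    y hy1 n1 n2 n3 n4 n5 n6 n7 n8 n9
  intro A1 hA1
  have hy10 : 0 < y := by linarith
  have hA10 : 0 < A1 := by rw [hA1]; positivity
  have n1 : (3 * b * A1) * y ^ 1 * Real.exp ((-(183 / 200)) * y) ≤ Real.exp (0 * y) := by
    refine le_trans (mul_le_mul_of_nonneg_right ?_ (Real.exp_pos _).le) n1
    rw [hA1]
    exact le_of_eq (by ring)
  have n2 : (b * A1) * y ^ 1 * Real.exp ((-1) * y) ≤ Real.exp ((-(17 / 200)) * y) := by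
    refine le_trans (mul_le_mul_of_nonneg_right ?_ (Real.exp_pos _).le) n2
    rw [hA1]
    exact le_of_eq (by ring)
  have n3 : (b ^ 2 * A1) * y ^ 1 * Real.exp ((-(3 / 50)) * y) ≤ Real.exp (0 * y) := by
    refine le_trans (mul_le_mul_of_nonneg_right ?_ (Real.exp_pos _).le) n3
    rw [hA1]
    exact le_of_eq (by ring)
  have n4 : (216 * b ^ 3 * A1 ^ 2) * y ^ 2 * Real.exp ((-(161 / 200)) * y) ≤ Real.exp ((-(17 / 50)) * y) := by
    refine le_trans (mul_le_mul_of_nonneg_right ?_ (Real.exp_pos _).le) n4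
    rw [hA1]
    exact le_of_eq (by ring)
  have n5 : (7776 * b ^ 3 * CQ * A1) * y ^ 3 * Real.exp ((-(7 / 20)) * y) ≤ Real.exp ((-(17 / 50)) * y) := by
    refine le_trans (mul_le_mul_of_nonneg_right ?_ (Real.exp_pos _).le) n5
    rw [hA1]
    exact le_of_eq (by ring)
  have n8 : (4 * b ^ 2 * A1 ^ 2) * y ^ 2 * Real.exp ((-(83 / 50)) * y) ≤ Real.exp ((-(2 / 5)) * y) := by
    refine le_trans (mul_le_mul_of_nonneg_right ?_ (Real.exp_pos _).le) n8
    rw [hA1]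
    exact le_of_eq (by ring)
  have n9 : (69984 * b ^ 2 * CQ * A1 ^ 2) * y ^ 4 * Real.exp ((-(3 / 20)) * y) ≤ Real.exp ((-(37 / 250)) * y) := by
    refine le_trans (mul_le_mul_of_nonneg_right ?_ (Real.exp_pos _).le) n9
    rw [hA1]
    exact le_of_eq (by ring)
  simp only [pow_zero, mul_one, pow_one, zero_mul, Real.exp_zero] at n1 n2 n3 n6
  intro β a v2 Q s2 cnt N η δ g1 hββ ha0 ha1 hAy1 hv20 hv21 hQ0 hQ1 hs2β hs20 hN0 hcnt1 hcnt2 hη
    htηδ hg10 hg1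
  have hη0 : 0 < η := lt_of_lt_of_le (Real.exp_pos _) hη
  have hηinv : η⁻¹ ≤ Real.exp (17 / 200 * y) := by
    have h1 := inv_anti₀ (Real.exp_pos _) hη
    rw [ex_inv] at h1
    norm_num at h1 ⊢
    exact h1
  have hη3 : 3 / η ≤ 3 * Real.exp (17 / 200 * y) := by
    rw [div_eq_mul_inv]
    gcongr
  have hβ0 : 0 < β := by rw [hββ]; positivity
  have hsv : Real.sqrt v2 ≤ A1 * y * Real.exp (97 / 100 * y) := by
    rw [Real.sqrt_le_left (by positivity)]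
    calc v2 ≤ A1 * y * Real.exp (97 / 50 * y) := hv21
      _ ≤ (A1 * y) * (A1 * y) * Real.exp (97 / 50 * y) := by
          have : A1 * y * 1 ≤ (A1 * y) * (A1 * y) := by gcongr
          rw [mul_one] at this
          gcongr
      _ = (A1 * y * Real.exp (97 / 100 * y)) ^ 2 := by
          rw [mul_pow, ex_pow]
          norm_num
          ring
  have k4 : 4 * β ^ 3 * a * v2 * (3 / η) ^ 3 + s2 * (2 * β * (3 * Q) * Real.sqrt v2 *
      (3 / η) ^ 4) ≤ Real.exp (-(17 / 50) * y) := by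
    have h1 : 4 * β ^ 3 * a * v2 * (3 / η) ^ 3 ≤ 1 / 2 * Real.exp (-(17 / 50) * y) := by
      calc 4 * β ^ 3 * a * v2 * (3 / η) ^ 3 ≤
            4 * (b * Real.exp (-1 * y)) ^ 3 * (A1 * y) * (A1 * y * Real.exp (97 / 50 * y)) *
            (3 * Real.exp (17 / 200 * y)) ^ 3 := by
            rw [hββ]
            gcongr
        _ = 1 / 2 * (216 * b ^ 3 * A1 ^ 2 * y ^ 2 * (Real.exp (-1 * y) ^ 3 *
            Real.exp (97 / 50 * y) * Real.exp (17 / 200 * y) ^ 3)) := by ring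
        _ = 1 / 2 * (216 * b ^ 3 * A1 ^ 2 * y ^ 2 * Real.exp (-(161 / 200) * y)) := by
            rw [ex_pow, ex_pow, ex_mul, ex_mul]
            norm_num
        _ ≤ _ := by linarith
    have h2 : s2 * (2 * β * (3 * Q) * Real.sqrt v2 * (3 / η) ^ 4) ≤
        1 / 2 * Real.exp (-(17 / 50) * y) := by
      calc s2 * (2 * β * (3 * Q) * Real.sqrt v2 * (3 / η) ^ 4) ≤
            (b * Real.exp (-1 * y)) ^ 2 * (2 * (b * Real.exp (-1 * y)) *
            (3 * (8 * CQ * y ^ 2 * Real.exp (67 / 50 * y))) * (A1 * y * Real.exp (97 / 100 * y)) *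
            (3 * Real.exp (17 / 200 * y)) ^ 4) := by
            rw [hββ] at hs2β ⊢
            gcongr
        _ = 1 / 2 * (7776 * b ^ 3 * CQ * A1 * y ^ 3 * (Real.exp (-1 * y) ^ 2 * Real.exp (-1 * y) *
            Real.exp (67 / 50 * y) * Real.exp (97 / 100 * y) * Real.exp (17 / 200 * y) ^ 4)) := by
            ring
        _ = 1 / 2 * (7776 * b ^ 3 * CQ * A1 * y ^ 3 * Real.exp (-(7 / 20) * y)) := by
            rw [ex_pow, ex_pow, ex_mul, ex_mul, ex_mul, ex_mul]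
            norm_num
        _ ≤ _ := by linarith
    linarith
  refine ⟨?_, ?_, ?_, k4, ?_, ?_, ?_, ?_⟩
  · calc β * a * (3 / η) ≤ (b * Real.exp (-1 * y)) * (A1 * y) * (3 * Real.exp (17 / 200 * y)) := by
          rw [hββ]
          gcongr
      _ = 3 * b * A1 * y * (Real.exp (-1 * y) * Real.exp (17 / 200 * y)) := by ring
      _ ≤ 1 := by
          rw [ex_mul]
          norm_num
          norm_num at n1
          linarith
  · calc β * a ≤ (b * Real.exp (-1 * y)) * (A1 * y) := by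
          rw [hββ]
          gcongr
      _ = b * A1 * y * Real.exp (-1 * y) := by ring
      _ ≤ η := n2.trans hη
  · calc β ^ 2 * v2 ≤ (b * Real.exp (-1 * y)) ^ 2 * (A1 * y * Real.exp (97 / 50 * y)) := by
          rw [hββ]
          gcongr
      _ = b ^ 2 * A1 * y * (Real.exp (-1 * y) ^ 2 * Real.exp (97 / 50 * y)) := by ring
      _ = b ^ 2 * A1 * y * Real.exp (-(3 / 50) * y) := by
          rw [ex_pow, ex_mul]
          norm_num
      _ ≤ 1 := n3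
  · refine le_trans (add_le_add ?_ ?_) k4
    · rw [div_eq_mul_inv, ← inv_pow]
      apply mul_le_mul_of_nonneg_left _ (by positivity)
      apply pow_le_pow_left₀ (by positivity)
      rw [div_eq_mul_inv]
      have : 0 < η⁻¹ := by positivity
      linarith
    · rw [div_eq_mul_inv, ← inv_pow]
      apply mul_le_mul_of_nonneg_left _ hs20
      have h1 : (η⁻¹) ^ 4 ≤ (3 / η) ^ 4 := by
        apply pow_le_pow_left₀ (by positivity)
        rw [div_eq_mul_inv]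
        have : 0 < η⁻¹ := by positivity
        linarith
      have h2 : Q ≤ 3 * Q := by linarith
      gcongr
  · calc s2 * cnt ≤ (b * Real.exp (-1 * y)) ^ 2 * (2 * Real.exp (-(11 / 5) * y) * N) := by
          rw [hββ] at hs2β
          gcongr
      _ = 2 * b ^ 2 * (Real.exp (-1 * y) ^ 2 * Real.exp (-(11 / 5) * y)) * N := by ring
      _ = 2 * b ^ 2 * Real.exp (-(21 / 5) * y) * N := by
          rw [ex_pow, ex_mul]
          norm_num
      _ ≤ Real.exp (-(83 / 20) * y) * N := by gcongr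
      _ ≤ Real.exp (-(1 / 10) * y) * (η ^ 2 * δ ^ 2) * N := by
          have h9 : Real.exp (-(83 / 20) * y) ≤ Real.exp (-(1 / 10) * y) * (η ^ 2 * δ ^ 2) := by
            rw [← mul_pow]
            calc Real.exp (-(83 / 20) * y) =
                Real.exp (-(1 / 10) * y) * Real.exp (-(81 / 40) * y) ^ 2 := by
                  rw [ex_pow, ex_mul]
                  norm_num
              _ ≤ _ := by gcongr
          gcongr
  · have h1 : 2 * β ^ 2 * (η⁻¹) ^ 2 * Q ≤ 1 / 2 * Real.exp (-(2 / 5) * y) := by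
      calc 2 * β ^ 2 * (η⁻¹) ^ 2 * Q ≤ 2 * (b * Real.exp (-1 * y)) ^ 2 *
            (Real.exp (17 / 200 * y)) ^ 2 * (8 * CQ * y ^ 2 * Real.exp (67 / 50 * y)) := by
            rw [hββ]
            gcongr
        _ = 1 / 2 * (32 * b ^ 2 * CQ * y ^ 2 * (Real.exp (-1 * y) ^ 2 *
            Real.exp (17 / 200 * y) ^ 2 * Real.exp (67 / 50 * y))) := by ring
        _ = 1 / 2 * (32 * b ^ 2 * CQ * y ^ 2 * Real.exp (-(49 / 100) * y)) := by
            rw [ex_pow, ex_pow, ex_mul, ex_mul]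
            norm_num
        _ ≤ _ := by linarith
    have h2 : 2 * β ^ 2 * (η⁻¹) ^ 2 * (a ^ 2 * (η⁻¹) ^ 2) ≤ 1 / 2 * Real.exp (-(2 / 5) * y) := by
      calc 2 * β ^ 2 * (η⁻¹) ^ 2 * (a ^ 2 * (η⁻¹) ^ 2) ≤ 2 * (b * Real.exp (-1 * y)) ^ 2 *
            (Real.exp (17 / 200 * y)) ^ 2 * ((A1 * y) ^ 2 * (Real.exp (17 / 200 * y)) ^ 2) := by
            rw [hββ]
            gcongr
        _ = 1 / 2 * (4 * b ^ 2 * A1 ^ 2 * y ^ 2 * (Real.exp (-1 * y) ^ 2 *
            Real.exp (17 / 200 * y) ^ 2 * Real.exp (17 / 200 * y) ^ 2)) := by ring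
        _ = 1 / 2 * (4 * b ^ 2 * A1 ^ 2 * y ^ 2 * Real.exp (-(83 / 50) * y)) := by
            rw [ex_pow, ex_pow, ex_mul, ex_mul]
            norm_num
        _ ≤ _ := by linarith
    have h3 : Real.exp (-(1 / 5) * y) ^ 2 = Real.exp (-(2 / 5) * y) := by
      rw [ex_pow]
      norm_num
    rw [h3]
    calc 2 * β ^ 2 / η ^ 2 * (Q + a ^ 2 / η ^ 2) = 2 * β ^ 2 * (η⁻¹) ^ 2 * Q +
          2 * β ^ 2 * (η⁻¹) ^ 2 * (a ^ 2 * (η⁻¹) ^ 2) := by
          rw [inv_pow, div_eq_mul_inv, div_eq_mul_inv]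
          ring
      _ ≤ _ := by linarith
  · calc 4 * β ^ 2 * (3 * Q) * (3 / η) ^ 6 * g1 ^ 2 ≤ 4 * (b * Real.exp (-1 * y)) ^ 2 *
          (3 * (8 * CQ * y ^ 2 * Real.exp (67 / 50 * y))) * (3 * Real.exp (17 / 200 * y)) ^ 6 *
          (A1 * y) ^ 2 := by
          rw [hββ]
          gcongr
      _ = 69984 * b ^ 2 * CQ * A1 ^ 2 * y ^ 4 * (Real.exp (-1 * y) ^ 2 * Real.exp (67 / 50 * y) *
          Real.exp (17 / 200 * y) ^ 6) := by ring
      _ = 69984 * b ^ 2 * CQ * A1 ^ 2 * y ^ 4 * Real.exp (-(3 / 20) * y) := by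
          rw [ex_pow, ex_pow, ex_mul, ex_mul]
          norm_num
      _ ≤ Real.exp (-(37 / 250) * y) := n9
      _ = _ := by
          rw [ex_pow]
          norm_num


theorem numM7 (b A2 : ℝ) (hb : 0 < b) (hA20 : 0 < A2) :
    ∀ᶠ y : ℝ in atTop, ∀ A1 : ℝ, A1 = A2 * y → ∀ (β s2 g η δ : ℝ), β = b * Real.exp (-1 * y) → 0 ≤ g →
    g ≤ A1 * y → 0 ≤ s2 → s2 ≤ β ^ 2 →
    Real.exp (-(17 / 200) * y) ≤ η → η ≤ Real.exp (-(59 / 1000) * y) →
    δ = Real.exp (-(97 / 50) * y) →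
    4 / 3 * (Real.exp (-(17 / 50) * y) + Real.exp (-(1 / 10) * y) +
      (2 * η + 8 * s2 ^ 2 * g ^ 2 / δ ^ 2)) * g ≤ Real.exp (-(29 / 500) * y) ∧
    4 / 3 * (Real.exp (-(17 / 50) * y) + Real.exp (-(1 / 10) * y) +
      (2 * η + 8 * s2 ^ 2 * g ^ 2 / δ ^ 2)) * g * s2 / (η * δ) ≤ Real.exp (-(11 / 200) * y) := by
  filter_upwards [eventually_ge_atTop 1,
    ev2 (16 * A2) (-(59 / 1000)) (-(29 / 500)) 2 (by norm_num),
    ev2 (64 * b ^ 4 * A2 ^ 3) (-(3 / 25)) (-(29 / 500)) 6 (by norm_num),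
    ev2 (32 * A2 * b ^ 2) (-(3 / 50)) (-(11 / 200)) 2 (by norm_num),
    ev2 (64 * b ^ 6 * A2 ^ 3) (-(19 / 200)) (-(11 / 200)) 6 (by norm_num)] with
    y hy1 n1 n2 n3 n4
  intro A1 hA1
  have hy10 : 0 < y := by linarith
  have hA10 : 0 < A1 := by rw [hA1]; positivity
  have n1 : (16 * A1) * y ^ 1 * Real.exp ((-(59 / 1000)) * y) ≤ Real.exp ((-(29 / 500)) * y) := by
    refine le_trans (mul_le_mul_of_nonneg_right ?_ (Real.exp_pos _).le) n1
    rw [hA1]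
    exact le_of_eq (by ring)
  have n2 : (64 * b ^ 4 * A1 ^ 3) * y ^ 3 * Real.exp ((-(3 / 25)) * y) ≤ Real.exp ((-(29 / 500)) * y) := by
    refine le_trans (mul_le_mul_of_nonneg_right ?_ (Real.exp_pos _).le) n2
    rw [hA1]
    exact le_of_eq (by ring)
  have n3 : (32 * A1 * b ^ 2) * y ^ 1 * Real.exp ((-(3 / 50)) * y) ≤ Real.exp ((-(11 / 200)) * y) := by
    refine le_trans (mul_le_mul_of_nonneg_right ?_ (Real.exp_pos _).le) n3
    rw [hA1]
    exact le_of_eq (by ring)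
  have n4 : (64 * b ^ 6 * A1 ^ 3) * y ^ 3 * Real.exp ((-(19 / 200)) * y) ≤ Real.exp ((-(11 / 200)) * y) := by
    refine le_trans (mul_le_mul_of_nonneg_right ?_ (Real.exp_pos _).le) n4
    rw [hA1]
    exact le_of_eq (by ring)
  simp only [pow_one] at n1 n3
  intro β s2 g η δ hββ hg0 hgA hs20 hs2β hη hη' hδ
  have hδinv : δ⁻¹ = Real.exp (97 / 50 * y) := by
    rw [hδ, ex_inv]
    norm_num
  have hδ0 : 0 < δ := by rw [hδ]; positivity
  have hη0 : 0 < η := lt_of_lt_of_le (Real.exp_pos _) hη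
  have hηinv : η⁻¹ ≤ Real.exp (17 / 200 * y) := by
    have h1 := inv_anti₀ (Real.exp_pos _) hη
    rw [ex_inv] at h1
    norm_num at h1 ⊢
    exact h1
  have f0 : Real.exp (-(17 / 50) * y) ≤ η := (hexle hy1 _ _ (by norm_num)).trans hη
  have f1 : Real.exp (-(1 / 10) * y) ≤ η := (hexle hy1 _ _ (by norm_num)).trans hη
  obtain ⟨ε, hε⟩ : ∃ ε, ε = Real.exp (-(17 / 50) * y) := ⟨_, rfl⟩
  obtain ⟨e1, he1⟩ : ∃ e1, e1 = Real.exp (-(1 / 10) * y) := ⟨_, rfl⟩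
  rw [← hε] at f0
  rw [← he1] at f1
  rw [← hε, ← he1]
  have hε0 : 0 < ε := by rw [hε]; positivity
  have he10 : 0 < e1 := by rw [he1]; positivity
  have hA1y : 0 ≤ A1 * y := by positivity
  have hX : 8 * s2 ^ 2 * g ^ 2 / δ ^ 2 * g ≤ 8 * (b ^ 4 * A1 ^ 3 * y ^ 3 *
      Real.exp (-(3 / 25) * y)) := by
    calc 8 * s2 ^ 2 * g ^ 2 / δ ^ 2 * g = 8 * (s2 ^ 2 * g ^ 3 * (δ⁻¹) ^ 2) := by
          rw [inv_pow, div_eq_mul_inv]
          ring
      _ ≤ 8 * (((b * Real.exp (-1 * y)) ^ 2) ^ 2 * (A1 * y) ^ 3 *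
          (Real.exp (97 / 50 * y)) ^ 2) := by
          rw [hββ] at hs2β
          rw [hδinv]
          gcongr
      _ = 8 * (b ^ 4 * A1 ^ 3 * y ^ 3 * (Real.exp (-1 * y) ^ 4 *
          Real.exp (97 / 50 * y) ^ 2)) := by ring
      _ = _ := by
          rw [ex_pow, ex_pow, ex_mul]
          norm_num
  have hX0 : 0 ≤ 8 * s2 ^ 2 * g ^ 2 / δ ^ 2 * g := by positivity
  have hY : (ε + e1 + 2 * η) * g ≤ 4 * η * (A1 * y) := by
    calc (ε + e1 + 2 * η) * g ≤ (η + η + 2 * η) * (A1 * y) := by gcongr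
      _ = _ := by ring
  have hY0 : 0 ≤ (ε + e1 + 2 * η) * g := by positivity
  have h5 : 4 / 3 * (ε + e1 + (2 * η + 8 * s2 ^ 2 * g ^ 2 / δ ^ 2)) * g =
      4 / 3 * ((ε + e1 + 2 * η) * g) + 4 / 3 * (8 * s2 ^ 2 * g ^ 2 / δ ^ 2 * g) := by ring
  constructor
  · rw [h5]
    have h1 : (ε + e1 + 2 * η) * g ≤ 1 / 4 * Real.exp (-(29 / 500) * y) := by
      calc (ε + e1 + 2 * η) * g ≤ 4 * η * (A1 * y) := hY
        _ ≤ 4 * Real.exp (-(59 / 1000) * y) * (A1 * y) := by gcongr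
        _ = 1 / 4 * (16 * A1 * y * Real.exp (-(59 / 1000) * y)) := by ring
        _ ≤ _ := by linarith
    have h2 : 8 * s2 ^ 2 * g ^ 2 / δ ^ 2 * g ≤ 1 / 8 * Real.exp (-(29 / 500) * y) := by
      linarith
    have h3 : 0 < Real.exp (-(29 / 500) * y) := Real.exp_pos _
    linarith
  · have hs2η : s2 / (η * δ) ≤ b ^ 2 * Real.exp (1 / 40 * y) := by
      calc s2 / (η * δ) = s2 * (η⁻¹ * δ⁻¹) := by rw [div_eq_mul_inv, mul_inv]
        _ ≤ (b * Real.exp (-1 * y)) ^ 2 * (Real.exp (17 / 200 * y) * Real.exp (97 / 50 * y)) := by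
            rw [hββ] at hs2β
            rw [hδinv]
            gcongr
        _ = b ^ 2 * (Real.exp (-1 * y) ^ 2 * (Real.exp (17 / 200 * y) *
            Real.exp (97 / 50 * y))) := by ring
        _ = _ := by
            rw [ex_pow, ex_mul, ex_mul]
            norm_num
    have h6 : η * (s2 / (η * δ)) ≤ b ^ 2 * Real.exp (-(3 / 50) * y) := by
      calc η * (s2 / (η * δ)) = s2 * δ⁻¹ := by
            field_simp
        _ ≤ (b * Real.exp (-1 * y)) ^ 2 * Real.exp (97 / 50 * y) := by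
            rw [hββ] at hs2β
            rw [hδinv]
            gcongr
        _ = b ^ 2 * (Real.exp (-1 * y) ^ 2 * Real.exp (97 / 50 * y)) := by ring
        _ = _ := by
            rw [ex_pow, ex_mul]
            norm_num
    have h7 : 0 ≤ s2 / (η * δ) := by positivity
    have h8 : (ε + e1 + 2 * η) * g * (s2 / (η * δ)) ≤ 1 / 8 * Real.exp (-(11 / 200) * y) := by
      calc (ε + e1 + 2 * η) * g * (s2 / (η * δ)) ≤ 4 * η * (A1 * y) * (s2 / (η * δ)) := by gcongr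
        _ = 4 * (A1 * y) * (η * (s2 / (η * δ))) := by ring
        _ ≤ 4 * (A1 * y) * (b ^ 2 * Real.exp (-(3 / 50) * y)) := by gcongr
        _ = 1 / 8 * (32 * A1 * b ^ 2 * y * Real.exp (-(3 / 50) * y)) := by ring
        _ ≤ _ := by linarith
    have h9 : 8 * s2 ^ 2 * g ^ 2 / δ ^ 2 * g * (s2 / (η * δ)) ≤
        1 / 8 * Real.exp (-(11 / 200) * y) := by
      calc 8 * s2 ^ 2 * g ^ 2 / δ ^ 2 * g * (s2 / (η * δ)) ≤
          8 * (b ^ 4 * A1 ^ 3 * y ^ 3 * Real.exp (-(3 / 25) * y)) *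
            (b ^ 2 * Real.exp (1 / 40 * y)) := by gcongr
        _ = 1 / 8 * (64 * b ^ 6 * A1 ^ 3 * y ^ 3 * (Real.exp (-(3 / 25) * y) *
            Real.exp (1 / 40 * y))) := by ring
        _ = 1 / 8 * (64 * b ^ 6 * A1 ^ 3 * y ^ 3 * Real.exp (-(19 / 200) * y)) := by
            rw [ex_mul]
            norm_num
        _ ≤ _ := by linarith
    have h10 : 4 / 3 * (ε + e1 + (2 * η + 8 * s2 ^ 2 * g ^ 2 / δ ^ 2)) * g * s2 / (η * δ) =
        4 / 3 * ((ε + e1 + 2 * η) * g * (s2 / (η * δ))) +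
        4 / 3 * (8 * s2 ^ 2 * g ^ 2 / δ ^ 2 * g * (s2 / (η * δ))) := by ring
    rw [h10]
    have h3 : 0 < Real.exp (-(11 / 200) * y) := Real.exp_pos _
    linarith


theorem numP7 (d : ℕ) (b A2 CHd : ℝ) (hb : 0 < b) (hA20 : 0 < A2) (hCH : 0 ≤ CHd) :
    ∀ᶠ y : ℝ in atTop, ∀ A1 : ℝ, A1 = A2 * y → ∀ (β s2 g c0 ε t Lr : ℝ), β = b * Real.exp (-1 * y) → 1 ≤ g →
    g ≤ A1 * y → 0 < s2 → s2 ≤ β ^ 2 → 0 ≤ c0 → c0 * g * s2 / t ≤ Real.exp (-(11 / 200) * y) →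
    ε = Real.exp (-(17 / 50) * y) → Real.exp (-(81 / 40) * y) ≤ t →
    t ≤ Real.exp (-(1999 / 1000) * y) → Real.exp (6 * y) ≤ Lr →
    c0 * g * s2 / t ≤ 1 / 2000 ∧ ε * g ^ 2 * s2 ^ 2 / t ^ 2 ≤ 1 / 2000 ∧
    s2 * (CHd * (Real.exp (-(1 / 10) * y) * t) ^ (-(7 / 8) : ℝ) +
      56 * d / Lr / t ^ 2 / (Real.exp (-(1 / 10) * y) * t)) +
      Real.exp (-(1 / 10) * y) * (1 + c0 * g * s2 / t) ≤ Real.exp (-(9 / 100) * y) ∧
    Real.exp (-(9 / 100) * y) ≤ 1 / 4 ∧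
    200 * (c0 * g * s2 / t + ε * g ^ 2 * s2 ^ 2 / t ^ 2) + Real.exp (-(9 / 100) * y) / 2 +
      (2 * (28 * d / Lr / t ^ 2 + CHd * (s2 * (2 * g) + t) ^ (1 / 8 : ℝ)) + c0 * g) /
        (2 * (t / s2)) ≤ Real.exp (-(1 / 50) * y) := by
  filter_upwards [eventually_ge_atTop 1,
    ev2 2000 (-(1 / 20)) 0 0 (by norm_num),
    ev2 (b ^ 4 * A2 ^ 2) (-(29 / 100)) (-(1 / 4)) 4 (by norm_num),
    ev2 (4 * b ^ 2 * CHd) (-(9 / 64)) (-(9 / 100)) 0 (by norm_num),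
    ev2 (4 * b ^ 2 * (56 * d)) (-(73 / 40)) (-(9 / 100)) 0 (by norm_num),
    ev2 4 (-(1 / 10)) (-(9 / 100)) 0 (by norm_num),
    ev2 4 (-(9 / 100)) 0 0 (by norm_num),
    ev2 1600 (-(1 / 20)) (-(1 / 50)) 0 (by norm_num),
    ev2 2 (-(9 / 100)) (-(1 / 50)) 0 (by norm_num),
    ev2 (8 * b ^ 2 * (28 * d)) (-(77 / 40)) (-(1 / 50)) 0 (by norm_num),
    ev2 (8 * b ^ 2 * CHd) (-(17 / 80)) (-(1 / 50)) 0 (by norm_num),
    ev2 4 (-(11 / 200)) (-(1 / 50)) 0 (by norm_num),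
    ev2 (4 * b ^ 2 * A2) (-2) (-(19 / 10)) 2 (by norm_num),
    ev2 2 (-(1999 / 1000)) (-(19 / 10)) 0 (by norm_num)] with
    y hy1 n2 n3 n4 n5 n6 n7 n8 n9 n10 n11 n12 n13 n14
  intro A1 hA1
  have hy10 : 0 < y := by linarith
  have hA10 : 0 < A1 := by rw [hA1]; positivity
  have n3 : (b ^ 4 * A1 ^ 2) * y ^ 2 * Real.exp ((-(29 / 100)) * y) ≤ Real.exp ((-(1 / 4)) * y) := by
    refine le_trans (mul_le_mul_of_nonneg_right ?_ (Real.exp_pos _).le) n3
    rw [hA1]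
    exact le_of_eq (by ring)
  have n13 : (4 * b ^ 2 * A1) * y ^ 1 * Real.exp ((-2) * y) ≤ Real.exp ((-(19 / 10)) * y) := by
    refine le_trans (mul_le_mul_of_nonneg_right ?_ (Real.exp_pos _).le) n13
    rw [hA1]
    exact le_of_eq (by ring)
  simp only [pow_zero, mul_one, pow_one, zero_mul, Real.exp_zero] at n2 n4 n5 n6 n7 n8 n9 n10 n11 n12 n13 n14
  intro β s2 g c0 ε t Lr hββ hg1 hgA hs20 hs2β hc00 hcg hε ht ht' hLr
  have hd0 : (0 : ℝ) ≤ d := Nat.cast_nonneg d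
  have ht0 : 0 < t := lt_of_lt_of_le (Real.exp_pos _) ht
  have htinv : t⁻¹ ≤ Real.exp (81 / 40 * y) := by
    have h1 := inv_anti₀ (Real.exp_pos _) ht
    rw [ex_inv] at h1
    norm_num at h1 ⊢
    exact h1
  have hL0 : 0 < Lr := lt_of_lt_of_le (Real.exp_pos _) hLr
  have hLinv : Lr⁻¹ ≤ Real.exp (-6 * y) := by
    have := inv_anti₀ (Real.exp_pos _) hLr
    rwa [ex_inv] at this
  have hs2t : s2 / t ≤ b ^ 2 * Real.exp (1 / 40 * y) := by
    calc s2 / t = s2 * t⁻¹ := by rw [div_eq_mul_inv]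
      _ ≤ (b * Real.exp (-1 * y)) ^ 2 * Real.exp (81 / 40 * y) := by
          rw [hββ] at hs2β
          gcongr
      _ = b ^ 2 * (Real.exp (-1 * y) ^ 2 * Real.exp (81 / 40 * y)) := by ring
      _ = _ := by
          rw [ex_pow, ex_mul]
          norm_num
  have hs2t0 : 0 ≤ s2 / t := by positivity
  obtain ⟨r1, hr1⟩ : ∃ r1, r1 = c0 * g * s2 / t := ⟨_, rfl⟩
  obtain ⟨r2, hr2⟩ : ∃ r2, r2 = ε * g ^ 2 * s2 ^ 2 / t ^ 2 := ⟨_, rfl⟩
  rw [← hr1, ← hr2]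
  rw [← hr1] at hcg
  have b1 : r1 ≤ Real.exp (-(1 / 20) * y) := hcg.trans (hexle hy1 _ _ (by norm_num))
  have b2 : r2 ≤ Real.exp (-(1 / 4) * y) := by
    calc r2 = ε * g ^ 2 * (s2 / t) ^ 2 := by
          rw [hr2, div_pow]
          ring
      _ ≤ Real.exp (-(17 / 50) * y) * (A1 * y) ^ 2 * (b ^ 2 * Real.exp (1 / 40 * y)) ^ 2 := by
          rw [hε]
          gcongr
      _ = b ^ 4 * A1 ^ 2 * y ^ 2 * (Real.exp (-(17 / 50) * y) * Real.exp (1 / 40 * y) ^ 2) := by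
          ring
      _ = b ^ 4 * A1 ^ 2 * y ^ 2 * Real.exp (-(29 / 100) * y) := by
          rw [ex_pow, ex_mul]
          norm_num
      _ ≤ _ := n3
  have b3 : Real.exp (-(1 / 4) * y) ≤ Real.exp (-(1 / 20) * y) := hexle hy1 _ _ (by norm_num)
  have b4 : Real.exp (-(1 / 20) * y) ≤ 1 / 2000 := by linarith
  have hr10 : 0 ≤ r1 := by rw [hr1]; positivity
  refine ⟨b1.trans b4, b2.trans (b3.trans b4), ?_, by linarith, ?_⟩
  · have h1 : (Real.exp (-(1 / 10) * y) * t) ^ (-(7 / 8) : ℝ) ≤ Real.exp (119 / 64 * y) := by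
      have h0 : Real.exp (-(17 / 8) * y) ≤ Real.exp (-(1 / 10) * y) * t := by
        calc Real.exp (-(17 / 8) * y) = Real.exp (-(1 / 10) * y) * Real.exp (-(81 / 40) * y) := by
              rw [ex_mul]
              norm_num
          _ ≤ _ := by gcongr
      refine (Real.rpow_le_rpow_of_nonpos (Real.exp_pos _) h0 (by norm_num)).trans (le_of_eq ?_)
      rw [← Real.exp_mul]
      congr 1
      ring
    have h2 : 56 * d / Lr / t ^ 2 / (Real.exp (-(1 / 10) * y) * t) ≤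
        56 * d * Real.exp (7 / 40 * y) := by
      calc 56 * d / Lr / t ^ 2 / (Real.exp (-(1 / 10) * y) * t) =
          56 * d * Lr⁻¹ * ((t⁻¹) ^ 2 * ((Real.exp (-(1 / 10) * y))⁻¹ * t⁻¹)) := by
            field_simp
        _ ≤ 56 * d * Real.exp (-6 * y) * ((Real.exp (81 / 40 * y)) ^ 2 *
            (Real.exp (-(-(1 / 10)) * y) * Real.exp (81 / 40 * y))) := by
            rw [ex_inv]
            gcongr
        _ = 56 * d * (Real.exp (-6 * y) * ((Real.exp (81 / 40 * y)) ^ 2 *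
            (Real.exp (-(-(1 / 10)) * y) * Real.exp (81 / 40 * y)))) := by ring
        _ = _ := by
            rw [ex_pow, ex_mul, ex_mul, ex_mul]
            norm_num
    have h3 : s2 * (CHd * (Real.exp (-(1 / 10) * y) * t) ^ (-(7 / 8) : ℝ) +
        56 * d / Lr / t ^ 2 / (Real.exp (-(1 / 10) * y) * t)) ≤
        1 / 2 * Real.exp (-(9 / 100) * y) := by
      calc s2 * (CHd * (Real.exp (-(1 / 10) * y) * t) ^ (-(7 / 8) : ℝ) +
          56 * d / Lr / t ^ 2 / (Real.exp (-(1 / 10) * y) * t)) ≤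
          (b * Real.exp (-1 * y)) ^ 2 * (CHd * Real.exp (119 / 64 * y) +
            56 * d * Real.exp (7 / 40 * y)) := by
            rw [hββ] at hs2β
            gcongr
        _ = b ^ 2 * CHd * (Real.exp (-1 * y) ^ 2 * Real.exp (119 / 64 * y)) +
            b ^ 2 * (56 * d) * (Real.exp (-1 * y) ^ 2 * Real.exp (7 / 40 * y)) := by ring
        _ = b ^ 2 * CHd * Real.exp (-(9 / 64) * y) +
            b ^ 2 * (56 * d) * Real.exp (-(73 / 40) * y) := by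
            rw [ex_pow, ex_mul, ex_mul]
            norm_num
        _ ≤ _ := by linarith
    have h4 : Real.exp (-(1 / 10) * y) * (1 + r1) ≤ 1 / 2 * Real.exp (-(9 / 100) * y) := by
      calc Real.exp (-(1 / 10) * y) * (1 + r1) ≤ Real.exp (-(1 / 10) * y) * (1 + 1) := by
            have : r1 ≤ 1 := by linarith [b1.trans b4]
            gcongr
        _ ≤ _ := by linarith
    linarith
  · have h1 : (s2 * (2 * g) + t) ^ (1 / 8 : ℝ) ≤ Real.exp (-(19 / 80) * y) := by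
      have f1 : s2 * (2 * g) + t ≤ Real.exp (-(19 / 10) * y) := by
        have f2 : s2 * (2 * g) ≤ 1 / 2 * Real.exp (-(19 / 10) * y) := by
          calc s2 * (2 * g) ≤ (b * Real.exp (-1 * y)) ^ 2 * (2 * (A1 * y)) := by
                rw [hββ] at hs2β
                gcongr
            _ = 1 / 2 * (4 * b ^ 2 * A1 * y * Real.exp (-2 * y)) := by
                rw [mul_pow, ex_pow]
                norm_num
                ring
            _ ≤ _ := by linarith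
        linarith
      refine (Real.rpow_le_rpow (by positivity) f1 (by norm_num)).trans (le_of_eq ?_)
      rw [← Real.exp_mul]
      congr 1
      ring
    have h2 : 28 * d / Lr / t ^ 2 ≤ 28 * d * Real.exp (-(39 / 20) * y) := by
      calc 28 * d / Lr / t ^ 2 = 28 * d * Lr⁻¹ * (t⁻¹) ^ 2 := by
            field_simp
        _ ≤ 28 * d * Real.exp (-6 * y) * (Real.exp (81 / 40 * y)) ^ 2 := by
            gcongr
        _ = 28 * d * (Real.exp (-6 * y) * (Real.exp (81 / 40 * y)) ^ 2) := by ring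
        _ = _ := by
            rw [ex_pow, ex_mul]
            norm_num
    have h3 : (2 * (28 * d / Lr / t ^ 2 + CHd * (s2 * (2 * g) + t) ^ (1 / 8 : ℝ)) + c0 * g) /
        (2 * (t / s2)) ≤ 1 / 4 * Real.exp (-(1 / 50) * y) + 1 / 4 * Real.exp (-(1 / 50) * y) := by
      calc (2 * (28 * d / Lr / t ^ 2 + CHd * (s2 * (2 * g) + t) ^ (1 / 8 : ℝ)) + c0 * g) /
          (2 * (t / s2)) = (28 * d / Lr / t ^ 2 + CHd * (s2 * (2 * g) + t) ^ (1 / 8 : ℝ)) *
            (s2 / t) + r1 / 2 := by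
            rw [hr1]
            field_simp
        _ ≤ (28 * d * Real.exp (-(39 / 20) * y) + CHd * Real.exp (-(19 / 80) * y)) *
            (b ^ 2 * Real.exp (1 / 40 * y)) + Real.exp (-(11 / 200) * y) / 2 := by
            gcongr
        _ = b ^ 2 * (28 * d) * (Real.exp (-(39 / 20) * y) * Real.exp (1 / 40 * y)) +
            b ^ 2 * CHd * (Real.exp (-(19 / 80) * y) * Real.exp (1 / 40 * y)) +
            1 / 2 * Real.exp (-(11 / 200) * y) := by ring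
        _ = b ^ 2 * (28 * d) * Real.exp (-(77 / 40) * y) +
            b ^ 2 * CHd * Real.exp (-(17 / 80) * y) +
            1 / 2 * Real.exp (-(11 / 200) * y) := by
            rw [ex_mul, ex_mul]
            norm_num
        _ ≤ _ := by linarith
    linarith


end Pool.Agent.TH794.QE
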