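import Pool.Agent.TH794.QE.FreeF
import Pool.Agent.TH794.QE.FinB
import Pool.Agent.TH794.QE.ParA
import Pool.Agent.TH794.QD.Par6

/-! The law of the second moment of the resolvent in every dimension. -/

set_option autoImplicit false
set_option linter.unusedSectionVars false

open scoped BigOperators Topology
open MeasureTheory Filter Set

namespace Pool.Agent.TH794.QE

open Pool.Agent.W788.BK
open Pool.Agent.H4R2.LO (Zd)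
open Pool.Agent.W788.BK.Num
open Pool.Agent.TH794.LL2
open Pool.Agent.TH794.FG
open Pool.Agent.TH794.QD
open Pool.Agent.TH311.LL2D (Bu Bu.near)

/-- the energies: in dimension two away from the edges and the van Hove singularity -/
def RegE (d : ℕ) (κ E : ℝ) : Prop :=
  (d = 2 ∧ κ ≤ |E| ∧ |E| ≤ 4 - κ) ∨ (3 ≤ d ∧ |E| ≤ 3 * d)

theorem lim3 (F : ℝ → ℂ) (C : ℝ) (h : ∀ z z' : ℂ, 0 ≤ z.im → 0 ≤ z'.im →
    ‖GF F z - GF F z'‖ ≤ C * ‖z - z'‖ ^ (1 / 8 : ℝ)) (E : ℝ) :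
    Tendsto (fun t : ℝ => GF F ((E : ℂ) + (t : ℂ) * Complex.I)) (𝓝[>] 0) (𝓝 (GF F (E : ℂ))) := by
  rw [tendsto_iff_norm_sub_tendsto_zero]
  have hc : Continuous fun t : ℝ => C * |t| ^ (1 / 8 : ℝ) := by
    have := Real.continuous_rpow_const (show (0 : ℝ) ≤ 1 / 8 by norm_num)
    fun_prop
  have l2 : Tendsto (fun t : ℝ => C * |t| ^ (1 / 8 : ℝ)) (𝓝[>] 0) (𝓝 0) := by
    have l1 := (hc.tendsto 0).mono_left (nhdsWithin_le_nhds (s := Set.Ioi 0))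
    have e1 : C * |(0 : ℝ)| ^ (1 / 8 : ℝ) = 0 := by
      rw [abs_zero, Real.zero_rpow (by norm_num), mul_zero]
    rw [e1] at l1
    exact l1
  refine squeeze_zero' (Filter.Eventually.of_forall fun t => norm_nonneg _) ?_ l2
  filter_upwards [self_mem_nhdsWithin] with t ht
  have ht0 : 0 < t := ht
  refine (h _ _ (by simpa using ht0.le) (by simp)).trans (le_of_eq ?_)
  congr 2
  rw [add_sub_cancel_left, norm_mul, Complex.norm_I, mul_one, Complex.norm_real, Real.norm_eq_abs]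

/-- the profile is Lipschitz in the scale -/
theorem Pg_u (γ0 γ1 : ℝ → ℂ) (u u' E : ℝ) (hu : 0 < u) (hu' : 0 < u')
    (h0 : 0 ≤ (γ1 E).im) (h1 : (γ1 E).im ≤ (γ0 E).im) :
    |Pg γ0 γ1 u E - Pg γ0 γ1 u' E| ≤ |u - u'| / u' := by
  unfold Pg
  obtain ⟨a, ha⟩ : ∃ a, a = (γ1 E).im := ⟨_, rfl⟩
  obtain ⟨g, hg⟩ : ∃ g, g = (γ0 E).im := ⟨_, rfl⟩
  rw [← ha] at h0 h1 ⊢
  rw [← hg] at h1 ⊢
  have hg0 : 0 ≤ g := h0.trans h1
  have hp : 0 < u + g := by linarith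
  have hp' : 0 < u' + g := by linarith
  have e1 : a / (u + g) - a / (u' + g) = a / (u + g) * ((u' - u) / (u' + g)) := by
    field_simp
    ring
  rw [e1, abs_mul, abs_of_nonneg (div_nonneg h0 hp.le), abs_div, abs_of_pos hp', abs_sub_comm u' u]
  have h2 : a / (u + g) ≤ 1 := by
    rw [div_le_one hp]
    linarith
  have h3 : |u - u'| / (u' + g) ≤ |u - u'| / u' := by
    apply div_le_div_of_nonneg_left (abs_nonneg _) hu'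
    linarith
  calc a / (u + g) * (|u - u'| / (u' + g)) ≤ 1 * (|u - u'| / u') := by gcongr
    _ = _ := one_mul _

/-- the boundary values -/
theorem bval (hO : S_OSC) (d : ℕ) (hd : 2 ≤ d) : ∃ γ0 γ1 : ℝ → ℂ, ∀ κ : ℝ, 0 < κ → κ ≤ 1 →
    (∀ E, RegE d κ E →
      Tendsto (fun t : ℝ => GF (F0 d) ((E : ℂ) + (t : ℂ) * Complex.I)) (𝓝[>] 0) (𝓝 (γ0 E)) ∧
      Tendsto (fun t : ℝ => GF (F1 d) ((E : ℂ) + (t : ℂ) * Complex.I)) (𝓝[>] 0) (𝓝 (γ1 E)) ∧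
      0 ≤ (γ1 E).im ∧ (γ1 E).im ≤ (γ0 E).im) ∧
    (S_ES → S_THIRD → S_FLUCT → S_INV → S_SUP → S_QB → S_LOW → S_ADM → S_FAC →
      ∀ v : ℝ, 0 < v → Eng d (RegE d κ) (Pg γ0 γ1) 1 v) := by
  by_cases h2 : d = 2
  · subst h2
    refine ⟨bvl (F0 2), bvl (F1 2), fun κ hκ hκ1 => ⟨fun E hE => ?_, ?_⟩⟩
    · have hE' : Bu κ E := by
        rcases hE with h | h
        · exact h.2
        · exact absurd h.1 (by norm_num)
      have h1 := bvl_im κ hκ hκ1 E hE'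
      exact ⟨(holS0 κ hκ hκ1).bv E hE', (holS1 κ hκ hκ1).bv E hE', h1.1, h1.2⟩
    · intro hES hTH hFL hIN hSU hQB hLO hAD hFA v hv
      obtain ⟨y0, h0⟩ := engineA hES hTH hFL hIN hSU hLO hAD hFA (κ / 3) (by positivity)
        (by linarith) 1 v one_pos hv
      refine ⟨y0, fun y hy ν hν hνb hν0 Vv hVv hvV t ht1 ht2 => ?_⟩
      obtain ⟨G, hG, hP, hL⟩ := h0 y hy ν hν hνb hν0 Vv hVv hvV t ht1 ht2
      refine ⟨G, hG, hP, fun ξ hξ a ha E hE => hL ξ hξ a ha E ?_⟩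
      have e3 : 3 * (κ / 3) = κ := by ring
      rw [e3]
      rcases hE with h | h
      · exact h.2
      · exact absurd h.1 (by norm_num)
  · have hd3 : 3 ≤ d := by omega
    refine ⟨fun E => GF (F0 d) (E : ℂ), fun E => GF (F1 d) (E : ℂ),
      fun κ hκ hκ1 => ⟨fun E hE => ?_, ?_⟩⟩
    · have h1 := GF_im hO d hd3 (E : ℂ) (by simp)
      exact ⟨lim3 _ _ (hol0 hO d hd3) E, lim3 _ _ (hol1 hO d hd3) E, h1.1, h1.2⟩
    · intro hES hTH hFL hIN hSU hQB hLO hAD hFA v hv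
      obtain ⟨y0, h0⟩ := engine6 hES hTH hFL hIN hSU hQB hLO hAD hFA hO d hd3 1 v one_pos hv
      refine ⟨y0, fun y hy ν hν hνb hν0 Vv hVv hvV t ht1 ht2 => ?_⟩
      obtain ⟨G, hG, hP, hL⟩ := h0 y hy ν hν hνb hν0 Vv hVv hvV t ht1 ht2
      refine ⟨G, hG, hP, fun ξ hξ a ha E hE => hL ξ hξ a ha E ?_⟩
      rcases hE with h | h
      · exact absurd h.1 h2
      · exact h.2

/-- **the second moment of the resolvent, every dimension** -/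
theorem finF (hES : S_ES) (hTH : S_THIRD) (hFL : S_FLUCT) (hIN : S_INV)
    (hSU : S_SUP) (hQB : S_QB) (hLO : S_LOW) (hAD : S_ADM) (hFA : S_FAC) (hO : S_OSC)
    (d : ℕ) (hd : 2 ≤ d) : ∃ γ0 γ1 : ℝ → ℂ, ∀ κ : ℝ, 0 < κ → κ ≤ 1 →
    (∀ E, RegE d κ E →
      Tendsto (fun t : ℝ => GF (F0 d) ((E : ℂ) + (t : ℂ) * Complex.I)) (𝓝[>] 0) (𝓝 (γ0 E)) ∧
      Tendsto (fun t : ℝ => GF (F1 d) ((E : ℂ) + (t : ℂ) * Complex.I)) (𝓝[>] 0) (𝓝 (γ1 E)) ∧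
      0 ≤ (γ1 E).im ∧ (γ1 E).im ≤ (γ0 E).im) ∧
    (∃ m : ℝ, 0 < m ∧ ∀ E, RegE d κ E → |E| ≤ 2 * d - κ → m ≤ (γ1 E).im) ∧
    ∀ v : ℝ, 0 < v → ∃ c0 : ℝ, 0 < c0 ∧ ∀ c : ℝ, 0 < c → c ≤ c0 →
    ∀ (μ : Measure ℝ), IsProbabilityMeasure μ → (∀ᵐ s ∂μ, |s| ≤ c) → ∫ s, s ∂μ = 0 →
    ∀ s2 : ℝ, ∫ s, s ^ 2 ∂μ = s2 → v * c ^ 2 ≤ s2 →
      ∃ G : Set (Zd d → ℝ), MeasurableSet G ∧
        1 - Real.exp (-c ^ (-(1 / 101) : ℝ)) ≤
          (Measure.infinitePi fun _ : Zd d => μ).real G ∧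
        ∀ ω ∈ G, (∀ x, |ω x| ≤ c) ∧
          ∀ a : Zd d, ‖a‖ ≤ Real.exp (c ^ (-(1 / 101) : ℝ)) →
          ∀ e : ℝ, RegE d κ (2 * d - e) → ∀ η : ℝ, c ^ (81 / 40 : ℝ) ≤ η → η ≤ s2 →
          ∀ u : Zd d → ℂ, Rs d (fun x => 2 * d + ω x) a e η u → ∀ j : Fin d,
            (Summable fun x => ((x j : ℝ) - a j) ^ 2 * ‖u x‖ ^ 2) ∧
            |η ^ 2 * s2 * QM a j u - 2 * Pg γ0 γ1 (η / s2) (2 * d - e)| ≤ c ^ (1 / 300 : ℝ) := by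
  obtain ⟨γ0, γ1, h⟩ := bval hO d hd
  refine ⟨γ0, γ1, fun κ hκ hκ1 => ?_⟩
  obtain ⟨h1, h2⟩ := h κ hκ hκ1
  refine ⟨h1, ?_, fun v hv => ?_⟩
  · obtain ⟨m, hm, hl⟩ := low_all d hd κ hκ hκ1
    refine ⟨m, hm, fun E hE hE2 => ?_⟩
    have l1 := (Complex.continuous_im.tendsto _).comp (h1 E hE).2.1
    have hmem : Set.Ioc (0 : ℝ) 1 ∈ 𝓝[>] (0 : ℝ) := Ioc_mem_nhdsGT one_pos
    refine ge_of_tendsto l1 ?_
    filter_upwards [hmem] with t ht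
    exact hl E t hE2 ht.1 ht.2
  · exact finE d (RegE d κ) (Pg γ0 γ1) v hv (h2 hES hTH hFL hIN hSU hQB hLO hAD hFA v hv)
      fun u u' E hu hu' hE => Pg_u γ0 γ1 u u' E hu hu' (h1 E hE).2.2.1 (h1 E hE).2.2.2

end Pool.Agent.TH794.QE
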