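import Pool.Agent.TH794.QD.Tor6

/-! The profile, for the energies of a set. -/

set_option autoImplicit false
set_option linter.unusedSectionVars false

open scoped BigOperators Topology
open MeasureTheory Set Filter

namespace Pool.Agent.TH794.QE

open Pool.Agent.W788.BK
open Pool.Agent.TH794.LL2
open Pool.Agent.TH794.QD
open Pool.Agent.W788.MFP.Four (T e NN adj K ft Op q NN_pos e_zero)

/-- the free resolvents over a set of energies -/
structure FD (d L : ℕ) [NeZero L] (U : ℝ → Prop) (C X0 t : ℝ) (γ0 γ1 : ℝ → ℂ) : Prop where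
  C0 : 0 ≤ C
  X00 : 0 ≤ X0
  hol0 : ∀ z z' : ℂ, U z.re → U z'.re → t ≤ z.im → z.im ≤ 1 → t ≤ z'.im → z'.im ≤ 1 →
    ‖gL d L z - gL d L z'‖ ≤ C * ‖z - z'‖ ^ (1 / 8 : ℝ) + X0
  hol1 : ∀ (j : Fin d) (z z' : ℂ), U z.re → U z'.re → t ≤ z.im → z.im ≤ 1 → t ≤ z'.im →
    z'.im ≤ 1 → ‖gW (fun k : T d L => sg j k ^ 2) z - gW (fun k : T d L => sg j k ^ 2) z'‖ ≤
      C * ‖z - z'‖ ^ (1 / 8 : ℝ) + X0
  lim0 : ∀ (z : ℂ) (E : ℝ), U z.re → U E → t ≤ z.im → z.im ≤ 1 →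
    ‖gL d L z - γ0 E‖ ≤ C * ‖z - (E : ℂ)‖ ^ (1 / 8 : ℝ) + X0
  lim1 : ∀ (j : Fin d) (z : ℂ) (E : ℝ), U z.re → U E → t ≤ z.im → z.im ≤ 1 →
    ‖gW (fun k : T d L => sg j k ^ 2) z - γ1 E‖ ≤ C * ‖z - (E : ℂ)‖ ^ (1 / 8 : ℝ) + X0
  pos : ∀ E, U E → 0 ≤ (γ1 E).im ∧ (γ1 E).im ≤ (γ0 E).im
  lip0 : ∀ E E', U E → U E' → ‖γ0 E - γ0 E'‖ ≤ C * |E - E'| ^ (1 / 8 : ℝ)
  lip1 : ∀ E E', U E → U E' → ‖γ1 E - γ1 E'‖ ≤ C * |E - E'| ^ (1 / 8 : ℝ)

/-- the profile -/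
noncomputable def Pg (γ0 γ1 : ℝ → ℂ) (u E : ℝ) : ℝ := (γ1 E).im / (u + (γ0 E).im)

section

variable {d L : ℕ} [NeZero L] {U : ℝ → Prop} {C X0 t : ℝ} {γ0 γ1 : ℝ → ℂ}

theorem FD.Pg_nonneg (h : FD d L U C X0 t γ0 γ1) (u E : ℝ) (hu : 0 ≤ u) (hE : U E) :
    0 ≤ Pg γ0 γ1 u E := by
  have h := h.pos E hE
  unfold Pg
  exact div_nonneg h.1 (add_nonneg hu (h.1.trans h.2))

theorem FD.Pg_le (h : FD d L U C X0 t γ0 γ1) (u E : ℝ) (hu : 0 ≤ u) (hE : U E) :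
    Pg γ0 γ1 u E ≤ 1 := by
  have h := h.pos E hE
  unfold Pg
  apply div_le_one_of_le₀ _ (add_nonneg hu (h.1.trans h.2))
  linarith

theorem FD.Pg_lip (h : FD d L U C X0 t γ0 γ1) (u E E' : ℝ) (hu : 0 < u) (hE : U E)
    (hE' : U E') : |Pg γ0 γ1 u E - Pg γ0 γ1 u E'| ≤ 2 * C * |E - E'| ^ (1 / 8 : ℝ) / u := by
  have h0 := h.pos E hE
  have h0' := h.pos E' hE'
  unfold Pg
  refine (frac_diff _ _ _ _ u hu (h0.1.trans h0.2) h0'.1 h0'.2).trans ?_
  apply div_le_div_of_nonneg_right _ hu.le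
  have h1 := h.lip0 E E' hE hE'
  have h2 := h.lip1 E E' hE hE'
  have h3 : |(γ1 E).im - (γ1 E').im| ≤ C * |E - E'| ^ (1 / 8 : ℝ) := by
    rw [← Complex.sub_im]
    exact (Complex.abs_im_le_norm _).trans h2
  have h4 : |(γ0 E).im - (γ0 E').im| ≤ C * |E - E'| ^ (1 / 8 : ℝ) := by
    rw [← Complex.sub_im]
    exact (Complex.abs_im_le_norm _).trans h1
  linarith

/-- the square of the resolvent: smallness -/
theorem gW2_smallA (w : T d L → ℝ) (hw : ∀ k, |w k| ≤ 1) (U : ℝ → Prop) (C X0 t s2 τ c g : ℝ)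
    (m z : ℂ) (hC : 0 ≤ C) (hX0 : 0 ≤ X0)
    (hhol : ∀ z z' : ℂ, U z.re → U z'.re → t ≤ z.im → z.im ≤ 1 → t ≤ z'.im → z'.im ≤ 1 →
      ‖gW w z - gW w z'‖ ≤ C * ‖z - z'‖ ^ (1 / 8 : ℝ) + X0)
    (ht : 0 < t) (hs2 : 0 < s2) (hτ : 0 < τ) (hτ1 : τ ≤ 1) (hz : z.im = s2 * m.im + t)
    (hz1 : z.im ≤ 1 / 2) (hUz : U z.re) (hm : 0 ≤ m.im)
    (hmg : ‖m - gL d L z‖ ≤ c * g) :
    s2 * ‖gW2 w z‖ ≤ s2 * (C * (τ * t) ^ (-(7 / 8) : ℝ) + 2 * X0 / (τ * t)) +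
      τ * (1 + c * g * s2 / t) := by
  have hcg : 0 ≤ c * g := (norm_nonneg _).trans hmg
  have hzt : t ≤ z.im := by
    rw [hz]
    have := mul_nonneg hs2.le hm
    linarith
  have hz0 : 0 < z.im := ht.trans_le hzt
  have h1 := gW2_le w hw z hz0 τ hτ
  obtain ⟨z', hz'⟩ : ∃ z', z' = z + ((τ * z.im : ℝ) : ℂ) * Complex.I := ⟨_, rfl⟩
  rw [← hz'] at h1
  have hy : 0 < τ * z.im := by positivity
  have hz'i : z'.im = z.im + τ * z.im := by
    rw [hz']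
    simp
  have hz'r : z'.re = z.re := by
    rw [hz']
    simp
  have hz'1 : z'.im ≤ 1 := by
    rw [hz'i]
    nlinarith
  have h2 : ‖gW w z' - gW w z‖ ≤ C * (τ * z.im) ^ (1 / 8 : ℝ) + 2 * X0 := by
    have a3 := hhol z' z (by rw [hz'r]; exact hUz) hUz (by rw [hz'i]; linarith) hz'1 hzt
      (by linarith)
    have e1 : ‖z' - z‖ = τ * z.im := by
      rw [hz', add_sub_cancel_left, norm_mul, Complex.norm_I, mul_one, Complex.norm_real,
        Real.norm_of_nonneg hy.le]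
    rw [e1] at a3
    linarith
  have h3 : ‖gW w z' - gW w z‖ / (τ * z.im) ≤ C * (τ * t) ^ (-(7 / 8) : ℝ) +
      2 * X0 / (τ * t) := by
    refine (div_le_div_of_nonneg_right h2 hy.le).trans ?_
    rw [add_div]
    apply add_le_add
    · rw [mul_div_assoc]
      apply mul_le_mul_of_nonneg_left _ hC
      have e1 : (τ * z.im) ^ (1 / 8 : ℝ) / (τ * z.im) = (τ * z.im) ^ (-(7 / 8) : ℝ) := by
        nth_rewrite 2 [← Real.rpow_one (τ * z.im)]
        rw [← Real.rpow_sub hy]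
        norm_num
      rw [e1]
      apply Real.rpow_le_rpow_of_nonpos (by positivity) _ (by norm_num)
      gcongr
    · apply div_le_div_of_nonneg_left (by positivity) (by positivity)
      gcongr
  have h4 : s2 * ((gL d L z).im / z.im) ≤ 1 + c * g * s2 / t := by
    have a1 : (gL d L z).im ≤ m.im + c * g := by
      have a2 : |(m - gL d L z).im| ≤ c * g := (Complex.abs_im_le_norm _).trans hmg
      rw [Complex.sub_im] at a2
      have := (abs_le.1 a2).1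
      linarith
    rw [← mul_div_assoc]
    calc s2 * (gL d L z).im / z.im ≤ (s2 * (m.im + c * g)) / z.im := by gcongr
      _ = s2 * m.im / z.im + c * g * s2 / z.im := by ring
      _ ≤ 1 + c * g * s2 / t := by
          apply add_le_add
          · rw [div_le_one hz0, hz]
            linarith
          · apply div_le_div_of_nonneg_left (by positivity) ht hzt
  calc s2 * ‖gW2 w z‖ ≤ s2 * (‖gW w z' - gW w z‖ / (τ * z.im) +
        τ * ((gL d L z).im / z.im)) := by gcongr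
    _ = s2 * (‖gW w z' - gW w z‖ / (τ * z.im)) + τ * (s2 * ((gL d L z).im / z.im)) := by ring
    _ ≤ _ := by gcongr

/-- the profile of the mean -/
theorem FD.prof (h : FD d L U C X0 t γ0 γ1) (j : Fin d)
    (s2 c g E u X : ℝ) (m z : ℂ) (ht : 0 < t) (hs2 : 0 < s2)
    (hz : z = (E : ℂ) + (s2 : ℂ) * m + ((t : ℝ) : ℂ) * Complex.I) (hm : 0 ≤ m.im)
    (hm2 : ‖m‖ ≤ 2 * g) (hsm : s2 * (2 * g) + t ≤ 1 / 2) (hE : U E) (hzU : U z.re)
    (hmg : ‖m - gL d L z‖ ≤ c * g) (hu : u = t / s2)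
    (hX : X = X0 + C * (s2 * (2 * g) + t) ^ (1 / 8 : ℝ)) :
    |(gW (fun k : T d L => sg j k ^ 2) z).im / (u + m.im) - Pg γ0 γ1 u E| ≤
      (2 * X + c * g) / u := by
  have hu0 : 0 < u := by rw [hu]; positivity
  have hp := h.pos E hE
  have hC := h.C0
  have hzi : z.im = s2 * m.im + t := by
    rw [hz]
    simp
  have hzt : t ≤ z.im := by
    rw [hzi]
    have := mul_nonneg hs2.le hm
    linarith
  have hz1 : z.im ≤ 1 := by
    rw [hzi]
    have h1 : s2 * m.im ≤ s2 * (2 * g) := by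
      apply mul_le_mul_of_nonneg_left _ hs2.le
      exact ((le_abs_self _).trans (Complex.abs_im_le_norm m)).trans hm2
    linarith
  have hze : ‖z - (E : ℂ)‖ ≤ s2 * (2 * g) + t := by
    have e1 : z - (E : ℂ) = (s2 : ℂ) * m + ((t : ℝ) : ℂ) * Complex.I := by
      rw [hz]
      ring
    rw [e1]
    refine (norm_add_le _ _).trans (add_le_add ?_ ?_)
    · rw [norm_mul, Complex.norm_real, Real.norm_of_nonneg hs2.le]
      gcongr
    · rw [norm_mul, Complex.norm_I, mul_one, Complex.norm_real, Real.norm_of_nonneg ht.le]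
  have hze8 : ‖z - (E : ℂ)‖ ^ (1 / 8 : ℝ) ≤ (s2 * (2 * g) + t) ^ (1 / 8 : ℝ) :=
    Real.rpow_le_rpow (norm_nonneg _) hze (by norm_num)
  have b0 : ‖gL d L z - γ0 E‖ ≤ X := by
    have a1 := h.lim0 z E hzU hE hzt hz1
    have a3 := mul_le_mul_of_nonneg_left hze8 hC
    rw [hX]
    linarith
  have b1 : ‖gW (fun k : T d L => sg j k ^ 2) z - γ1 E‖ ≤ X := by
    have a1 := h.lim1 j z E hzU hE hzt hz1
    have a3 := mul_le_mul_of_nonneg_left hze8 hC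
    rw [hX]
    linarith
  unfold Pg
  refine (frac_diff _ _ _ _ u hu0 hm hp.1 hp.2).trans ?_
  apply div_le_div_of_nonneg_right _ hu0.le
  have c1 : |(gW (fun k : T d L => sg j k ^ 2) z).im - (γ1 E).im| ≤ X := by
    rw [← Complex.sub_im]
    exact (Complex.abs_im_le_norm _).trans b1
  have c2 : |m.im - (γ0 E).im| ≤ X + c * g := by
    rw [← Complex.sub_im]
    refine (Complex.abs_im_le_norm _).trans ?_
    have e1 : m - γ0 E = (m - gL d L z) + (gL d L z - γ0 E) := by ring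
    rw [e1]
    refine (norm_add_le _ _).trans ?_
    linarith
  linarith

end

end Pool.Agent.TH794.QE
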