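import Pool.Agent.TH794.QE.FreeA

/-! The event on the torus, for the energies of a set. -/

set_option autoImplicit false
set_option linter.unusedSectionVars false

open scoped BigOperators Matrix
open MeasureTheory

namespace Pool.Agent.TH794.QE

open Pool.Agent.W788.BK
open Pool.Agent.W788.MFP.Four (T e NN adj K ft Op q NN_pos e_zero)
open Pool.Agent.TH794.FG
open Pool.Agent.TH794.QD
open Pool.Agent.TH794.LL2 (fc Bq Bq_nonneg sum_fc_one conc2 gL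
  sqrt_Bq_add)

variable {d L : ℕ} [NeZero L]

/-- **the mean of the chain and the profile** -/
theorem mean7 (hES : S_ES) (hFA : S_FAC) (j : Fin d)
    (E δ θ η a v2 Q β s2 g ε e1 c0 τ1 : ℝ)
    (hδ : 0 < δ) (hη : 0 < η) (hη1 : η ≤ 1)
    (hadm : Adm (D0 E δ) (AA (d := d) (L := L) E δ θ) a v2 Q)
    (μ : Measure ℝ) [IsProbabilityMeasure μ] (hβ : 0 < β) (hμ : ∀ᵐ s ∂μ, |s| ≤ β)
    (h0 : ∫ s, s ∂μ = 0) (h2 : ∫ s, s ^ 2 ∂μ = s2) (hs2 : 0 < s2)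
    (hβa : β * a * (3 / η) ≤ 1) (hβv : β ^ 2 * v2 ≤ 1)
    (hε0 : 0 ≤ ε) (hε1 : ε ≤ 1 / 2) (he0 : 0 ≤ e1) (he1 : e1 ≤ 1 / 4)
    (hε : 4 * β ^ 3 * a * v2 * (3 / η) ^ 3 +
      s2 * (2 * β * (3 * Q) * Real.sqrt v2 * (3 / η) ^ 4) ≤ ε)
    (hg : ∀ E' : ℝ, ∑ k : T d L, (JJ E' (η * δ) k)⁻¹ ≤ g * NN d L) (hg1 : 1 ≤ g)
    (hlow : s2 * (∑ P : T d L, (1 - hi θ P)) ≤ e1 * (η ^ 2 * δ ^ 2) * NN d L)
    (hc0 : c0 = 4 / 3 * (ε + e1 + (2 * η + 8 * s2 ^ 2 * g ^ 2 / δ ^ 2)))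
    (r1 r2 u0 : ℝ) (hr1 : r1 = c0 * g * s2 / (η * δ)) (hr2 : r2 = ε * g ^ 2 * s2 ^ 2 / (η * δ) ^ 2)
    (hr1s : r1 ≤ 1 / 2000) (hr2s : r2 ≤ 1 / 2000) (hts : η * δ ≤ s2) (hu0 : u0 = η * δ / s2)
    (hτ1 : 0 < τ1) (hτ11 : τ1 ≤ 1) (ω2 X ω1 : ℝ)
    (U : ℝ → Prop) (C X0 : ℝ) (γ0 γ1 : ℝ → ℂ) (hFD : FD d L U C X0 (η * δ) γ0 γ1)
    (hEU : U E) (hEU' : ∀ x, |x - E| ≤ s2 * (2 * g) → U x) (hsm : s2 * (2 * g) + η * δ ≤ 1 / 2)
    (hω2 : s2 * (C * (τ1 * (η * δ)) ^ (-(7 / 8) : ℝ) +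
      2 * X0 / (τ1 * (η * δ))) + τ1 * (1 + c0 * g * s2 / (η * δ)) ≤ ω2)
    (hω2' : ω2 ≤ 1 / 4)
    (hX : X = X0 + C * (s2 * (2 * g) + η * δ) ^ (1 / 8 : ℝ))
    (hω1 : 200 * (r1 + r2) + ω2 / 2 + (2 * X + c0 * g) / (2 * u0) ≤ ω1) :
    |∫ V, FQ E δ θ η (sg j) V ∂(PP (T d L) μ) - u0 / 2 * Pg γ0 γ1 u0 E| ≤ u0 * ω1 := by
  have ht : 0 < η * δ := by positivity
  have hu : 0 < u0 := by rw [hu0]; positivity
  obtain ⟨m, z, hm, hm2, hz, hmg, hmain⟩ := mean6 hES hFA E δ θ η a v2 Q β s2 g ε e1 c0 (sg j)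
    (rfl' j) hδ hη hη1 (fun k => sg_abs j k) (fun k => adj_rfl j k) (fun k => sg_rfl j k) hadm μ hβ
    hμ h0 h2 hs2 hβa hβv hε0 hε1 he0 he1 hε hg hg1 hlow hc0 r1 r2 u0 hr1 hr2 hr1s hr2s hts hu0
  have hzi : z.im = s2 * m.im + η * δ := by
    rw [hz]
    simp
  have hzr : z.re = E + s2 * m.re := by
    rw [hz]
    simp
  have hzU : U z.re := by
    apply hEU'
    rw [hzr, add_sub_cancel_left, abs_mul, abs_of_pos hs2]
    apply mul_le_mul_of_nonneg_left _ hs2.le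
    exact (Complex.abs_re_le_norm m).trans hm2
  have hz1 : z.im ≤ 1 / 2 := by
    rw [hzi]
    have h1 : s2 * m.im ≤ s2 * (2 * g) := by
      apply mul_le_mul_of_nonneg_left _ hs2.le
      exact ((le_abs_self _).trans (Complex.abs_im_le_norm m)).trans hm2
    linarith
  have b1 := gW2_smallA (fun _ : T d L => 1) (fun k => by simp) U C X0
    (η * δ) s2 τ1 c0 g m z hFD.C0 hFD.X00 (fun z z' h1 h2 h3 h4 h5 h6 => by
      rw [gW_one, gW_one]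
      exact hFD.hol0 z z' h1 h2 h3 h4 h5 h6)
    ht hs2 hτ1 hτ11 hzi hz1 hzU hm hmg
  have b2 := gW2_smallA (fun k : T d L => sg j k ^ 2) (fun k => by
    rw [abs_of_nonneg (sq_nonneg _)]
    exact sg_sq_le j k) U C X0
    (η * δ) s2 τ1 c0 g m z hFD.C0 hFD.X00 (fun z z' h1 h2 h3 h4 h5 h6 =>
      hFD.hol1 j z z' h1 h2 h3 h4 h5 h6)
    ht hs2 hτ1 hτ11 hzi hz1 hzU hm hmg
  have h3 := hmain ((b1.trans hω2).trans hω2')
  have h4 := hFD.prof j s2 c0 g E u0 X m z ht hs2 hz hm hm2 hsm hEU hzU hmg hu0 hX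
  obtain ⟨A, hA⟩ : ∃ A, A = (gW (fun k : T d L => sg j k ^ 2) z).im := ⟨_, rfl⟩
  rw [← hA] at h3 h4
  have e1 : η * δ = u0 * s2 := by
    rw [hu0]
    field_simp
  have h5 : 0 < u0 + m.im := by linarith
  have e2 : η * δ / 2 * (A / (η * δ + s2 * m.im)) = u0 / 2 * (A / (u0 + m.im)) := by
    rw [e1]
    have : u0 * s2 + s2 * m.im ≠ 0 := by
      have : 0 < u0 * s2 + s2 * m.im := by
        have := mul_pos hs2 h5
        linarith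
      exact this.ne'
    field_simp
  rw [e2] at h3
  have e3 : η * δ / 2 * ‖gW2 (fun k : T d L => sg j k ^ 2) z‖ ≤ u0 / 2 * ω2 := by
    rw [e1]
    have := mul_le_mul_of_nonneg_left (b2.trans hω2) (by linarith : 0 ≤ u0 / 2)
    linarith
  have e4 : |u0 / 2 * (A / (u0 + m.im)) - u0 / 2 * Pg γ0 γ1 u0 E| ≤
      u0 / 2 * ((2 * X + c0 * g) / u0) := by
    rw [← mul_sub, abs_mul, abs_of_pos (by linarith : 0 < u0 / 2)]
    gcongr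
  have e5 := abs_sub_le (∫ V, FQ E δ θ η (sg j) V ∂(PP (T d L) μ)) (u0 / 2 * (A / (u0 + m.im)))
    (u0 / 2 * Pg γ0 γ1 u0 E)
  have e6 := mul_le_mul_of_nonneg_left hω1 hu.le
  have e7 : u0 * (200 * (r1 + r2) + ω2 / 2 + (2 * X + c0 * g) / (2 * u0)) =
      200 * u0 * (r1 + r2) + u0 / 2 * ω2 + u0 / 2 * ((2 * X + c0 * g) / u0) := by
    field_simp
  rw [e7] at e6
  linarith

/-- the good event -/
def GoodA (B : ℝ → Prop) (P : ℝ → ℝ) (δ θ η τ ζ Kf u0 ω1 : ℝ) (M : ℕ) : Set (T d L → ℝ) :=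
  {V | (∀ x, |UU θ V x| ≤ τ) ∧
    ∀ i ∈ Finset.Icc (-(M : ℤ)) M, B (ζ * i) →
      FS (ζ * i) δ θ η (Pi.single 0 1) (fun _ => 0) V ≤ Kf ∧
      ∀ j : Fin d, |FQ (ζ * i) δ θ η (sg j) V - u0 / 2 * P (ζ * i)| ≤ 2 * (u0 * ω1)}

theorem goodA_meas (B : ℝ → Prop) (P : ℝ → ℝ) (δ θ η τ ζ Kf u0 ω1 : ℝ) (M : ℕ) (hη : 0 < η)
    (hcF : ∀ E j, Continuous fun V : T d L → ℝ => FQ E δ θ η (sg j) V) :
    MeasurableSet (GoodA (d := d) (L := L) B P δ θ η τ ζ Kf u0 ω1 M) := by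
  have hX := fun E => Pool.Agent.W363.BK.D0_herm (d := d) (L := L) E δ
  have hA := fun E y => Pool.Agent.W363.BK.AA_herm (d := d) (L := L) E δ θ y
  have h1 : GoodA (d := d) (L := L) B P δ θ η τ ζ Kf u0 ω1 M = (⋂ x, {V | |UU θ V x| ≤ τ}) ∩
      ⋂ i ∈ Finset.Icc (-(M : ℤ)) M, ⋂ (_ : B (ζ * i)),
        ({V | FS (ζ * i) δ θ η (Pi.single 0 1) (fun _ => 0) V ≤ Kf} ∩
        ⋂ j : Fin d, {V | |FQ (ζ * i) δ θ η (sg j) V - u0 / 2 * P (ζ * i)| ≤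
          2 * (u0 * ω1)}) := by
    ext V
    simp [GoodA]
  rw [h1]
  refine MeasurableSet.inter (MeasurableSet.iInter fun x => ?_)
    (Finset.measurableSet_biInter _ fun i _ => MeasurableSet.iInter fun _ =>
      MeasurableSet.inter ?_ (MeasurableSet.iInter fun j => ?_))
  · exact (isClosed_le (continuous_UU θ x).abs continuous_const).measurableSet
  · exact (isClosed_le (continuous_FS _ δ θ η hη (hX _) (hA _) _ _) continuous_const).measurableSet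
  · exact (isClosed_le ((hcF _ j).sub continuous_const).abs continuous_const).measurableSet

/-- the probability of the good event -/
theorem goodA_prob (hES : S_ES) (hTH : S_THIRD) (hFL : S_FLUCT) (hIN : S_INV)
    (hSU : S_SUP) (hFA : S_FAC) (B : ℝ → Prop)
    (δ θ η τ ζ a v2 Q β s2 g g1 ε e1 c0 τ1 D1 D2 : ℝ) (M : ℕ) (hδ : 0 < δ) (hη : 0 < η)
    (hη1 : η ≤ 1) (hτ : 0 < τ)
    (hadm : ∀ E, B E → Adm (D0 E δ) (AA (d := d) (L := L) E δ θ) a v2 Q)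
    (μ : Measure ℝ) [IsProbabilityMeasure μ] (hβ : 0 < β) (hμ : ∀ᵐ s ∂μ, |s| ≤ β)
    (h0 : ∫ s, s ∂μ = 0) (h2 : ∫ s, s ^ 2 ∂μ = s2) (hs2 : 0 < s2)
    (hβa0 : β * a ≤ η)
    (hβa : β * a * (3 / η) ≤ 1) (hβv : β ^ 2 * v2 ≤ 1)
    (hε0 : 0 ≤ ε) (hε1 : ε ≤ 1 / 2) (he0 : 0 ≤ e1) (he1 : e1 ≤ 1 / 4)
    (hεa : 4 * β ^ 3 * a * v2 / η ^ 3 + s2 * (2 * β * Q * Real.sqrt v2 / η ^ 4) ≤ ε)
    (hε : 4 * β ^ 3 * a * v2 * (3 / η) ^ 3 +
      s2 * (2 * β * (3 * Q) * Real.sqrt v2 * (3 / η) ^ 4) ≤ ε)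
    (hg : ∀ E' : ℝ, ∑ k : T d L, (JJ E' (η * δ) k)⁻¹ ≤ g * NN d L) (hg1 : 1 ≤ g)
    (hgg : ∀ E' : ℝ, ∑ k : T d L, (JJ E' δ k)⁻¹ ≤ g1 * NN d L)
    (hlow : s2 * (∑ P : T d L, (1 - hi θ P)) ≤ e1 * (η ^ 2 * δ ^ 2) * NN d L)
    (hc0 : c0 = 4 / 3 * (ε + e1 + (2 * η + 8 * s2 ^ 2 * g ^ 2 / δ ^ 2))) (hc01 : c0 ≤ 1)
    (r1 r2 u0 : ℝ) (hr1 : r1 = c0 * g * s2 / (η * δ)) (hr2 : r2 = ε * g ^ 2 * s2 ^ 2 / (η * δ) ^ 2)
    (hr1s : r1 ≤ 1 / 2000) (hr2s : r2 ≤ 1 / 2000) (hts : η * δ ≤ s2) (hu0 : u0 = η * δ / s2)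
    (hτ1 : 0 < τ1) (hτ11 : τ1 ≤ 1) (ω2 X ω1 : ℝ)
    (U : ℝ → Prop) (C X0 : ℝ) (γ0 γ1 : ℝ → ℂ) (hFD : FD d L U C X0 (η * δ) γ0 γ1)
    (hEU : ∀ E, B E → ∀ x, |x - E| ≤ s2 * (2 * g) → U x) (hsm : s2 * (2 * g) + η * δ ≤ 1 / 2)
    (hω2 : s2 * (C * (τ1 * (η * δ)) ^ (-(7 / 8) : ℝ) +
      2 * X0 / (τ1 * (η * δ))) + τ1 * (1 + c0 * g * s2 / (η * δ)) ≤ ω2)
    (hω2' : ω2 ≤ 1 / 4)
    (hX : X = X0 + C * (s2 * (2 * g) + η * δ) ^ (1 / 8 : ℝ))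
    (hω1 : 200 * (r1 + r2) + ω2 / 2 + (2 * X + c0 * g) / (2 * u0) ≤ ω1)
    (hD1 : 0 < D1) (hDD1 : 4 * β ^ 2 * (3 * Q) * (3 / η) ^ 6 * g1 ^ 2 ≤ D1 ^ 2)
    (hD2 : 0 < D2) (hD21 : 40 * Real.sqrt D2 ≤ 1) (hD22 : D2 ≤ 1 / 128)
    (hDD2 : 2 * β ^ 2 / η ^ 2 * (Q + a ^ 2 / η ^ 2) ≤ D2 ^ 2) :
    (PP (T d L) μ).real (GoodA (d := d) (L := L) B (Pg γ0 γ1 u0) δ θ η τ ζ (4 * g) u0 ω1 M)ᶜ ≤
      2 * NN d L * Real.exp (-(τ ^ 2 * NN d L /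
        (2 * β ^ 2 * ∑ P : T d L, (1 - hi θ P)))) +
      (2 * M + 1) * (2 * Real.exp (1 / 2 - 1 / Real.sqrt (2 * D2)) +
        d * (4 * Real.exp (-(u0 * ω1 / (2 * D1))))) := by
  classical
  have hsub : (GoodA (d := d) (L := L) B (Pg γ0 γ1 u0) δ θ η τ ζ (4 * g) u0 ω1 M)ᶜ ⊆
      {V | ∃ x : T d L, τ < |∑ y : T d L, V y * K (fun Q => 1 - hi θ Q) (x - y)|} ∪
      ⋃ i ∈ (Finset.Icc (-(M : ℤ)) M).filter fun i : ℤ => B (ζ * i),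
        ({V | 4 * g < FS (ζ * i) δ θ η (Pi.single 0 1) (fun _ => 0) V} ∪
        ⋃ j ∈ (Finset.univ : Finset (Fin d)),
          {V | 2 * (u0 * ω1) < |FQ (ζ * i) δ θ η (sg j) V - u0 / 2 * Pg γ0 γ1 u0 (ζ * i)|}) := by
    intro V hV
    simp only [GoodA, Set.mem_compl_iff, Set.mem_ofPred_eq, not_and_or, not_forall, not_le] at hV
    rcases hV with ⟨x, hx⟩ | ⟨i, hi, hBi, hx | ⟨j, hx⟩⟩
    · exact Or.inl ⟨x, hx⟩
    · exact Or.inr (Set.mem_iUnion₂.2 ⟨i, Finset.mem_filter.2 ⟨hi, hBi⟩, Or.inl hx⟩)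
    · exact Or.inr (Set.mem_iUnion₂.2 ⟨i, Finset.mem_filter.2 ⟨hi, hBi⟩,
        Or.inr (Set.mem_iUnion₂.2 ⟨j, Finset.mem_univ _, hx⟩)⟩)
  refine (measureReal_mono hsub).trans ((measureReal_union_le _ _).trans (add_le_add ?_ ?_))
  · exact hSU d L μ β θ τ hβ hμ h0 hτ
  · refine (measureReal_biUnion_finset_le _ _).trans ?_
    have h1 : ∀ i ∈ (Finset.Icc (-(M : ℤ)) M).filter fun i : ℤ => B (ζ * i),
        (PP (T d L) μ).real ({V | 4 * g < FS (ζ * i) δ θ η (Pi.single 0 1) (fun _ => 0) V} ∪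
        ⋃ j ∈ (Finset.univ : Finset (Fin d)),
          {V | 2 * (u0 * ω1) < |FQ (ζ * i) δ θ η (sg j) V - u0 / 2 * Pg γ0 γ1 u0 (ζ * i)|}) ≤
          2 * Real.exp (1 / 2 - 1 / Real.sqrt (2 * D2)) +
          d * (4 * Real.exp (-(u0 * ω1 / (2 * D1)))) := by
      intro i hi
      have hBi := (Finset.mem_filter.1 hi).2
      refine (measureReal_union_le _ _).trans (add_le_add ?_ ?_)
      · have e1 := meanS hTH hFL hIN (ζ * i) δ θ η a v2 Q β s2 g ε e1 hδ hη hη1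
          (hadm _ hBi) μ hβ hμ h0 h2 hs2.le hβa0 hβv hε0 hε1 he0 he1 hεa hg hlow
          (by rw [← hc0]; exact hc01)
        have e2' := conc2 hES (hadm (ζ * i) hBi) μ β η D2 hβ hμ hη hβv hD2 hD22 hDD2
          (wf (ζ * i) δ (Pi.single 0 1) (fun _ => 0))
        refine le_trans (measureReal_mono ?_) e2'
        intro V hV
        simp only [Set.mem_ofPred_eq] at hV ⊢
        obtain ⟨m, hm⟩ : ∃ m, m = ∫ V, FS (d := d) (L := L) (ζ * i) δ θ η (Pi.single 0 1)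
          (fun _ => 0) V ∂(PP (T d L) μ) := ⟨_, rfl⟩
        rw [← hm] at e1
        change 40 * Real.sqrt D2 * (∫ V, FS (d := d) (L := L) (ζ * i) δ θ η (Pi.single 0 1)
          (fun _ => 0) V ∂(PP (T d L) μ)) <
          |FS (ζ * i) δ θ η (Pi.single 0 1) (fun _ => 0) V -
            ∫ V, FS (d := d) (L := L) (ζ * i) δ θ η (Pi.single 0 1) (fun _ => 0) V
            ∂(PP (T d L) μ)|
        rw [← hm]
        have h4 := le_abs_self (FS (ζ * i) δ θ η (Pi.single 0 1) (fun _ => 0) V - m)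
        have hm0 : 0 ≤ m := by
          rw [hm]
          apply integral_nonneg
          intro V
          have hX := Pool.Agent.W363.BK.D0_herm (d := d) (L := L) (ζ * i) δ
          have hA := fun y => Pool.Agent.W363.BK.AA_herm (d := d) (L := L) (ζ * i) δ θ y
          have e3 := (ward hX hA hη V (wf (d := d) (L := L) (ζ * i) δ (Pi.single 0 1)
            (fun _ => 0))).1
          change 0 ≤ FS (ζ * i) δ θ η (Pi.single 0 1) (fun _ => 0) V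
          change FS (ζ * i) δ θ η (Pi.single 0 1) (fun _ => 0) V = _ at e3
          rw [e3]
          exact mul_nonneg hη.le (nsq_nonneg _)
        have h5 := mul_le_mul_of_nonneg_right hD21 hm0
        linarith
      · refine (measureReal_biUnion_finset_le _ _).trans ?_
        have h6 : ∀ j ∈ (Finset.univ : Finset (Fin d)), (PP (T d L) μ).real
            {V | 2 * (u0 * ω1) < |FQ (ζ * i) δ θ η (sg j) V - u0 / 2 * Pg γ0 γ1 u0 (ζ * i)|} ≤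
            4 * Real.exp (-(u0 * ω1 / (2 * D1))) := by
          intro j _
          have hs2g : 0 ≤ s2 * (2 * g) := by
            have : 0 ≤ g := by linarith
            positivity
          have e1 := mean7 hES hFA j (ζ * i) δ θ η a v2 Q β s2 g ε e1 c0 τ1 hδ hη hη1
            (hadm _ hBi) μ hβ hμ h0 h2 hs2 hβa hβv hε0 hε1 he0 he1 hε hg hg1 hlow hc0 r1 r2 u0 hr1
            hr2 hr1s hr2s hts hu0 hτ1 hτ11 ω2 X ω1 U C X0 γ0 γ1 hFD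
            (hEU _ hBi _ (by rw [sub_self, abs_zero]; exact hs2g)) (hEU _ hBi) hsm hω2 hω2' hX hω1
          have e2 := (conc6 hES (ζ * i) δ θ η a v2 Q β D1 (sg j) hδ hη hη1 (fun k => sg_abs j k)
            (hadm _ hBi) μ hβ hμ hβv hD1 g1 (hgg _) hDD1 (u0 * ω1)).2
          refine le_trans (measureReal_mono ?_) e2
          intro V hV
          simp only [Set.mem_ofPred_eq] at hV ⊢
          have h7 := abs_sub_le (FQ (ζ * i) δ θ η (sg j) V)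
            (∫ U, FQ (d := d) (L := L) (ζ * i) δ θ η (sg j) U ∂(PP (T d L) μ))
            (u0 / 2 * Pg γ0 γ1 u0 (ζ * i))
          linarith
        refine (Finset.sum_le_sum h6).trans ?_
        rw [Finset.sum_const, nsmul_eq_mul, Finset.card_univ, Fintype.card_fin]
    refine (Finset.sum_le_sum h1).trans ?_
    rw [Finset.sum_const, nsmul_eq_mul]
    apply mul_le_mul_of_nonneg_right _ (by positivity)
    have h2 : ((Finset.Icc (-(M : ℤ)) M).filter fun i : ℤ => B (ζ * i)).card ≤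
        (Finset.Icc (-(M : ℤ)) M).card := Finset.card_filter_le _ _
    have e1 : ((M : ℤ) + 1 - -(M : ℤ)).toNat = 2 * M + 1 := by omega
    rw [Int.card_Icc, e1] at h2
    exact_mod_cast h2

end Pool.Agent.TH794.QE
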