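import Pool.Agent.TH311.LL2D.Tor2
import Pool.Agent.TH794.QE.FreeA

/-! The weighted free resolvent of the two-dimensional torus in the bulk. -/

set_option autoImplicit false
set_option linter.unusedSectionVars false

open scoped BigOperators

namespace Pool.Agent.TH794.QE

open Pool.Agent.W788.MFP.Four (T adj NN NN_pos card_T)
open Pool.Agent.W788.MFP.Dos (a a_abs mm count1 dy_conv)
open Pool.Agent.TH311.AN2 (co si co_sq a_co adj2)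
open Pool.Agent.TH794.LL2 (gL)
open Pool.Agent.TH794.QD (gW sg sg_sq_le mv)
open Pool.Agent.TH311.LL2D

variable {L : ℕ} [NeZero L]

/-- the weighted sum -/
noncomputable def gS (w : ZMod L → ℝ) (z : ℂ) : ℂ := ((L : ℂ) ^ 2)⁻¹ * ∑ x : ZMod L, ((w x : ℝ) : ℂ) *
    ∑ y : ZMod L, (((a y : ℝ) : ℂ) - (z - ((a x : ℝ) : ℂ)))⁻¹

theorem w_le (w : ZMod L → ℝ) (hw : ∀ x, |w x| ≤ 1) (x : ZMod L) (S : ℂ) :
    ‖((w x : ℝ) : ℂ) * S‖ ≤ ‖S‖ := by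
  rw [norm_mul, Complex.norm_real, Real.norm_eq_abs]
  exact mul_le_of_le_one_left (norm_nonneg _) (hw x)

/-- the free resolvent is bounded in the bulk -/
theorem gS_bd (w : ZMod L → ℝ) (hw : ∀ x, |w x| ≤ 1) (ka t : ℝ) (hka : 0 < ka) (hka1 : ka ≤ 1) (ht1 : t ≤ 1)
    (hL : 1 / (L : ℝ) ≤ t) (he : Real.exp (-(t * L / 4)) ≤ 1 / 4) (z : ℂ)
    (hz1 : ka ≤ |z.re|) (hz2 : |z.re| ≤ 4 - ka) (hz : t ≤ z.im) :
    ‖gS w z‖ ≤ 2 * (1 + CB ka) := by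
  have hL0 : (0 : ℝ) < L := by exact_mod_cast Nat.pos_of_ne_zero (NeZero.ne L)
  have ht : 0 < t := lt_of_lt_of_le (by positivity) hL
  unfold gS
  rw [norm_mul, norm_inv, norm_pow, Complex.norm_natCast, inv_mul_le_iff₀ (by positivity)]
  have h1 : ∀ x : ZMod L, ‖∑ y : ZMod L, (((a y : ℝ) : ℂ) - (z - ((a x : ℝ) : ℂ)))⁻¹‖ ≤
      2 * L * (1 + ‖(z - ((a x : ℝ) : ℂ)) ^ 2 - 4‖ ^ (-(3 / 4) : ℝ)) := by
    intro x
    obtain ⟨s, hs, him, -, hG⟩ := root (L := L) (z - ((a x : ℝ) : ℂ)) t ht ht1 (by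
      rw [Complex.sub_im, Complex.ofReal_im, sub_zero]
      exact hz)
    have hG' := hG (by linarith)
    have hs0 : s ≠ 0 := by
      intro h
      rw [h] at him
      simp at him
    rw [← root_pow s _ hs hs0]
    obtain ⟨S, hS⟩ : ∃ S, S = ∑ y : ZMod L, (((a y : ℝ) : ℂ) - (z - ((a x : ℝ) : ℂ)))⁻¹ :=
      ⟨_, rfl⟩
    rw [← hS] at hG' ⊢
    have e1 : ‖S‖ ≤ ‖S + (L : ℂ) * s⁻¹‖ + L * ‖s⁻¹‖ := by
      have := norm_sub_le (S + (L : ℂ) * s⁻¹) ((L : ℂ) * s⁻¹)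
      rwa [add_sub_cancel_right, norm_mul (L : ℂ), Complex.norm_natCast] at this
    obtain ⟨v, hv⟩ : ∃ v, v = (Real.sqrt ‖s‖)⁻¹ := ⟨_, rfl⟩
    have hv0 : 0 ≤ v := by rw [hv]; positivity
    have hv2 : ‖s⁻¹‖ = v ^ 2 := by
      rw [hv, inv_pow, Real.sq_sqrt (norm_nonneg _), norm_inv]
    rw [hv2] at e1 hG'
    rw [← hv]
    have e2 : v ^ 2 ≤ 1 + v ^ 3 := by nlinarith [mul_nonneg hv0 (sq_nonneg (v - 1))]
    have e3 : (L : ℝ) * (4 * Real.exp (-(t * L / 4))) * v ^ 2 ≤ L * 1 * v ^ 2 := by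
      gcongr
      linarith
    have e4 : (L : ℝ) * v ^ 2 ≤ L * (1 + v ^ 3) := by gcongr
    linarith
  refine (norm_sum_le _ _).trans ((Finset.sum_le_sum fun x _ => (w_le w hw x _).trans (h1 x)).trans ?_)
  rw [← Finset.mul_sum, Finset.sum_add_distrib, Finset.sum_const, Finset.card_univ, ZMod.card,
    nsmul_eq_mul, mul_one]
  have h2 := sumS (L := L) ka t hka hka1 ht1 hL z hz1 hz2 hz
  calc 2 * (L : ℝ) * (L + ∑ x : ZMod L, ‖(z - ((a x : ℝ) : ℂ)) ^ 2 - 4‖ ^ (-(3 / 4) : ℝ)) ≤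
      2 * L * (L + CB ka * L) := by gcongr
    _ = _ := by ring

/-- the free resolvent is Hölder continuous in the bulk -/
theorem gS_holder (Wt : ZMod L → ℝ) (hWt : ∀ x, |Wt x| ≤ 1) (ka t : ℝ) (hka : 0 < ka) (hka1 : ka ≤ 1) (ht1 : t ≤ 1)
    (hL : 1 / (L : ℝ) ≤ t) (he : Real.exp (-(t * L / 4)) ≤ 1 / 4) (z z' : ℂ)
    (hz1 : ka ≤ |z.re|) (hz2 : |z.re| ≤ 4 - ka) (hz : t ≤ z.im) (hz3 : z.im ≤ 1)
    (hz1' : ka ≤ |z'.re|) (hz2' : |z'.re| ≤ 4 - ka) (hz' : t ≤ z'.im) (hz3' : z'.im ≤ 1) :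
    ‖gS Wt z - gS Wt z'‖ ≤ CH ka * ‖z - z'‖ ^ (1 / 4 : ℝ) +
      CH ka * Real.exp (-(t * L / 4)) := by
  have hL0 : (0 : ℝ) < L := by exact_mod_cast Nat.pos_of_ne_zero (NeZero.ne L)
  have ht : 0 < t := lt_of_lt_of_le (by positivity) hL
  have hCB := CB_nonneg ka
  obtain ⟨x, hx⟩ : ∃ x, x = Real.exp (-(t * L / 4)) := ⟨_, rfl⟩
  have hx0 : 0 < x := by rw [hx]; positivity
  obtain ⟨Δ, hΔ⟩ : ∃ Δ, Δ = ‖z - z'‖ := ⟨_, rfl⟩
  have hΔ0 : 0 ≤ Δ := by rw [hΔ]; exact norm_nonneg _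
  have hD0 : 0 ≤ Δ ^ (1 / 4 : ℝ) := by positivity
  rcases le_or_gt Δ (1 / 2) with hc | hc
  swap
  · have h1 := gS_bd (L := L) Wt hWt ka t hka hka1 ht1 hL he z hz1 hz2 hz
    have h2 := gS_bd (L := L) Wt hWt ka t hka hka1 ht1 hL he z' hz1' hz2' hz'
    have h3 := norm_sub_le (gS Wt z) (gS Wt z')
    rw [← hx, ← hΔ]
    have h4 : 1 / 2 ≤ Δ ^ (1 / 4 : ℝ) := by
      have e1 := Real.rpow_le_rpow (by norm_num) hc.le (show (0 : ℝ) ≤ 1 / 4 by norm_num)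
      have e2 : (1 / 2 : ℝ) ≤ (1 / 2 : ℝ) ^ (1 / 4 : ℝ) := by
        have := Real.rpow_le_rpow_of_exponent_ge (show (0 : ℝ) < 1 / 2 by norm_num)
          (by norm_num) (show (1 / 4 : ℝ) ≤ 1 by norm_num)
        rwa [Real.rpow_one] at this
      linarith
    have h5 : CH ka * (1 / 2) ≤ CH ka * Δ ^ (1 / 4 : ℝ) := by
      have := CH_ge ka
      gcongr
    have h6 : 0 ≤ CH ka * x := by
      have := CH_ge ka
      positivity
    unfold CH at *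
    linarith
  have hdiff : gS Wt z - gS Wt z' = ((L : ℂ) ^ 2)⁻¹ * ∑ j : ZMod L, ((Wt j : ℝ) : ℂ) *
      (∑ y : ZMod L, (((a y : ℝ) : ℂ) - (z - ((a j : ℝ) : ℂ)))⁻¹ -
        ∑ y : ZMod L, (((a y : ℝ) : ℂ) - (z' - ((a j : ℝ) : ℂ)))⁻¹) := by
    unfold gS
    rw [← mul_sub, ← Finset.sum_sub_distrib]
    congr 1
    exact Finset.sum_congr rfl fun j _ => (mul_sub _ _ _).symm
  rw [hdiff, norm_mul, norm_inv, norm_pow,
    Complex.norm_natCast, inv_mul_le_iff₀ (by positivity)]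
  have h1 : ∀ j : ZMod L, ‖∑ y : ZMod L, (((a y : ℝ) : ℂ) - (z - ((a j : ℝ) : ℂ)))⁻¹ -
      ∑ y : ZMod L, (((a y : ℝ) : ℂ) - (z' - ((a j : ℝ) : ℂ)))⁻¹‖ ≤
      L * (2 * Δ ^ (1 / 4 : ℝ) + 4 * x) * (‖(z - ((a j : ℝ) : ℂ)) ^ 2 - 4‖ ^ (-(3 / 4) : ℝ) +
        ‖(z' - ((a j : ℝ) : ℂ)) ^ 2 - 4‖ ^ (-(3 / 4) : ℝ)) + L * (8 * x) := by
    intro j
    obtain ⟨w, hw⟩ : ∃ w, w = z - ((a j : ℝ) : ℂ) := ⟨_, rfl⟩
    obtain ⟨w', hw'⟩ : ∃ w, w = z' - ((a j : ℝ) : ℂ) := ⟨_, rfl⟩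
    rw [← hw, ← hw']
    have hwi : w.im = z.im := by rw [hw, Complex.sub_im, Complex.ofReal_im, sub_zero]
    have hwi' : w'.im = z'.im := by rw [hw', Complex.sub_im, Complex.ofReal_im, sub_zero]
    obtain ⟨s, hs, him, ⟨c, hc0, hc1, hre⟩, hG⟩ := root (L := L) w t ht ht1 (by rw [hwi]; exact hz)
    obtain ⟨s', hs', him', ⟨c', hc0', hc1', hre'⟩, hG'⟩ := root (L := L) w' t ht ht1
      (by rw [hwi']; exact hz')
    have g1 := hG (by linarith)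
    have g2 := hG' (by linarith)
    rw [← hx] at g1 g2
    have hs0 : s ≠ 0 := by
      intro h
      rw [h] at him
      simp at him
    have hs0' : s' ≠ 0 := by
      intro h
      rw [h] at him'
      simp at him'
    have hww : w - w' = z - z' := by rw [hw, hw']; ring
    have h2 := two_roots w w' s s' hs hs' him him' c c' hc0 hc1 hc0' hc1' hre hre'
      (by rw [hww, ← hΔ]; exact hc)
    rw [← root_pow s w hs hs0, ← root_pow s' w' hs' hs0']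
    have h3 : Real.sqrt (Real.sqrt ‖w ^ 2 - w' ^ 2‖) ≤ 2 * Δ ^ (1 / 4 : ℝ) := by
      have e1 : w ^ 2 - w' ^ 2 = (w - w') * (w + w') := by ring
      rw [e1, norm_mul, hww, ← hΔ]
      apply sqrt_sqrt Δ hΔ0 _ (norm_nonneg _)
      have e2 : ∀ z : ℂ, |z.re| ≤ 4 - ka → t ≤ z.im → z.im ≤ 1 → ‖z - ((a j : ℝ) : ℂ)‖ ≤ 7 := by
        intro z h1 h2 h3
        have f1 := norm_sub_le z ((a j : ℝ) : ℂ)
        rw [Complex.norm_real, Real.norm_eq_abs] at f1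
        have f2 := a_abs j
        have f3 := Complex.norm_le_abs_re_add_abs_im z
        have f4 : |z.im| ≤ 1 := by
          rw [abs_of_nonneg (by linarith)]
          exact h3
        linarith
      have e3 := e2 z hz2 hz hz3
      have e4 := e2 z' hz2' hz' hz3'
      rw [← hw] at e3
      rw [← hw'] at e4
      have e5 := norm_add_le w w'
      linarith
    obtain ⟨S, hS⟩ : ∃ S, S = ∑ y : ZMod L, (((a y : ℝ) : ℂ) - w)⁻¹ := ⟨_, rfl⟩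
    obtain ⟨S', hS'⟩ : ∃ S, S = ∑ y : ZMod L, (((a y : ℝ) : ℂ) - w')⁻¹ := ⟨_, rfl⟩
    rw [← hS] at g1 ⊢
    rw [← hS'] at g2 ⊢
    obtain ⟨v, hv⟩ : ∃ v, v = (Real.sqrt ‖s‖)⁻¹ := ⟨_, rfl⟩
    have hv0 : 0 ≤ v := by rw [hv]; positivity
    have hv2 : ‖s⁻¹‖ = v ^ 2 := by
      rw [hv, inv_pow, Real.sq_sqrt (norm_nonneg _), norm_inv]
    obtain ⟨v', hv'⟩ : ∃ v, v = (Real.sqrt ‖s'‖)⁻¹ := ⟨_, rfl⟩
    have hv0' : 0 ≤ v' := by rw [hv']; positivity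
    have hv2' : ‖s'⁻¹‖ = v' ^ 2 := by
      rw [hv', inv_pow, Real.sq_sqrt (norm_nonneg _), norm_inv]
    rw [hv2] at g1
    rw [hv2'] at g2
    rw [← hv, ← hv'] at h2 ⊢
    have e1 : S - S' = (S + (L : ℂ) * s⁻¹) - (S' + (L : ℂ) * s'⁻¹) -
        (L : ℂ) * (s⁻¹ - s'⁻¹) := by ring
    have e2 : ‖S - S'‖ ≤ ‖S + (L : ℂ) * s⁻¹‖ + ‖S' + (L : ℂ) * s'⁻¹‖ +
        L * ‖s⁻¹ - s'⁻¹‖ := by
      rw [e1]
      refine (norm_sub_le _ _).trans ?_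
      rw [norm_mul (L : ℂ), Complex.norm_natCast]
      have := norm_sub_le (S + (L : ℂ) * s⁻¹) (S' + (L : ℂ) * s'⁻¹)
      linarith
    have e3 : ∀ v : ℝ, 0 ≤ v → v ^ 2 ≤ 1 + v ^ 3 := by
      intro v hv0
      nlinarith [mul_nonneg hv0 (sq_nonneg (v - 1))]
    have e4 : (L : ℝ) * ‖s⁻¹ - s'⁻¹‖ ≤ L * (2 * Δ ^ (1 / 4 : ℝ) * (v ^ 3 + v' ^ 3)) := by
      apply mul_le_mul_of_nonneg_left _ hL0.le
      refine h2.trans ?_
      exact mul_le_mul_of_nonneg_right h3 (by positivity)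
    have e5 : (L : ℝ) * (4 * x) * v ^ 2 ≤ L * (4 * x) * (1 + v ^ 3) := by
      have := e3 v hv0
      gcongr
    have e6 : (L : ℝ) * (4 * x) * v' ^ 2 ≤ L * (4 * x) * (1 + v' ^ 3) := by
      have := e3 v' hv0'
      gcongr
    refine e2.trans ?_
    calc ‖S + (L : ℂ) * s⁻¹‖ + ‖S' + (L : ℂ) * s'⁻¹‖ + L * ‖s⁻¹ - s'⁻¹‖ ≤
        L * (4 * x) * (1 + v ^ 3) + L * (4 * x) * (1 + v' ^ 3) +
          L * (2 * Δ ^ (1 / 4 : ℝ) * (v ^ 3 + v' ^ 3)) := by linarith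
      _ = _ := by ring
  refine (norm_sum_le _ _).trans ((Finset.sum_le_sum fun j _ =>
    (w_le Wt hWt j _).trans (h1 j)).trans ?_)
  rw [Finset.sum_add_distrib, ← Finset.mul_sum, Finset.sum_add_distrib, Finset.sum_const,
    Finset.card_univ, ZMod.card, nsmul_eq_mul, ← hx, ← hΔ]
  have h2 := sumS (L := L) ka t hka hka1 ht1 hL z hz1 hz2 hz
  have h3 := sumS (L := L) ka t hka hka1 ht1 hL z' hz1' hz2' hz'
  calc (L : ℝ) * (2 * Δ ^ (1 / 4 : ℝ) + 4 * x) *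
        (∑ j : ZMod L, ‖(z - ((a j : ℝ) : ℂ)) ^ 2 - 4‖ ^ (-(3 / 4) : ℝ) +
        ∑ j : ZMod L, ‖(z' - ((a j : ℝ) : ℂ)) ^ 2 - 4‖ ^ (-(3 / 4) : ℝ)) + L * (L * (8 * x)) ≤
      L * (2 * Δ ^ (1 / 4 : ℝ) + 4 * x) * (CB ka * L + CB ka * L) + L * (L * (8 * x)) := by
        gcongr
    _ = L ^ 2 * (4 * CB ka * Δ ^ (1 / 4 : ℝ) + 8 * (1 + CB ka) * x) := by ring
    _ ≤ L ^ 2 * (CH ka * Δ ^ (1 / 4 : ℝ) + CH ka * x) := by
        apply mul_le_mul_of_nonneg_left _ (by positivity)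
        unfold CH
        have : 4 * CB ka * Δ ^ (1 / 4 : ℝ) ≤ 8 * (1 + CB ka) * Δ ^ (1 / 4 : ℝ) := by
          apply mul_le_mul_of_nonneg_right _ hD0
          linarith
        linarith


/-- the weighted resolvents of the torus -/
theorem gW_gS (j : Fin 2) (z : ℂ) : gW (fun k : T 2 L => sg j k ^ 2) z =
    gS (fun x : ZMod L => (ZMod.stdAddChar x : ℂ).im ^ 2) z := by
  unfold gW gS mv
  have h1 : ((NN 2 L : ℝ) : ℂ) = (L : ℂ) ^ 2 := by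
    unfold NN
    push_cast
    ring
  rw [h1]
  congr 1
  rw [sum_T2c]
  fin_cases j
  · refine Finset.sum_congr rfl fun x _ => ?_
    rw [Finset.mul_sum]
    refine Finset.sum_congr rfl fun y _ => ?_
    rw [adj2]
    unfold sg
    simp only [Fin.zero_eta, Matrix.cons_val_zero]
    congr 2
    push_cast
    ring
  · rw [Finset.sum_comm]
    refine Finset.sum_congr rfl fun y _ => ?_
    rw [Finset.mul_sum]
    refine Finset.sum_congr rfl fun x _ => ?_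
    rw [adj2]
    unfold sg
    simp only [Fin.mk_one, Matrix.cons_val_one, Matrix.cons_val_fin_one]
    congr 2
    push_cast
    ring

theorem gL_gS (z : ℂ) : gL 2 L z = gS (fun _ : ZMod L => 1) z := by
  rw [gL2_eq]
  unfold gS
  simp

theorem wt_le (x : ZMod L) : |(ZMod.stdAddChar x : ℂ).im ^ 2| ≤ 1 := by
  have h := sg_sq_le (d := 1) (0 : Fin 1) (fun _ => x)
  unfold sg at h
  rw [abs_of_nonneg (sq_nonneg _)]
  exact h

/-- the exponent -/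
theorem rp8 (x : ℝ) (hx : 0 ≤ x) (hx1 : x ≤ 16) : x ^ (1 / 4 : ℝ) ≤ 2 * x ^ (1 / 8 : ℝ) := by
  have e1 : x ^ (1 / 4 : ℝ) = x ^ (1 / 8 : ℝ) * x ^ (1 / 8 : ℝ) := by
    rcases hx.eq_or_lt with h | h
    · rw [← h, Real.zero_rpow (by norm_num), Real.zero_rpow (by norm_num), zero_mul]
    · rw [← Real.rpow_add h]
      norm_num
  rw [e1]
  apply mul_le_mul_of_nonneg_right _ (by positivity)
  calc x ^ (1 / 8 : ℝ) ≤ (16 : ℝ) ^ (1 / 8 : ℝ) := Real.rpow_le_rpow hx hx1 (by norm_num)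
    _ ≤ (16 : ℝ) ^ (1 / 4 : ℝ) := Real.rpow_le_rpow_of_exponent_le (by norm_num) (by norm_num)
    _ = 2 := by
        have : (16 : ℝ) = 2 ^ (4 : ℝ) := by norm_num
        rw [this, ← Real.rpow_mul (by norm_num)]
        norm_num

theorem strip_le (ka : ℝ) (hka : 0 < ka) (z z' : ℂ) (h1 : Bu ka z.re) (h2 : Bu ka z'.re)
    (h3 : 0 ≤ z.im) (h4 : z.im ≤ 1) (h5 : 0 ≤ z'.im) (h6 : z'.im ≤ 1) : ‖z - z'‖ ≤ 16 := by
  have h := Complex.norm_le_abs_re_add_abs_im (z - z')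
  rw [Complex.sub_re, Complex.sub_im] at h
  have a1 := abs_sub z.re z'.re
  have a2 : |z.im - z'.im| ≤ 1 := by
    rw [abs_le]
    constructor <;> linarith
  have := h1.2
  have := h2.2
  linarith

/-- Hölder continuity with the exponent `1/8` -/
theorem gS_holder8 (Wt : ZMod L → ℝ) (hWt : ∀ x, |Wt x| ≤ 1) (ka t : ℝ) (hka : 0 < ka)
    (hka1 : ka ≤ 1) (ht1 : t ≤ 1) (hL : 1 / (L : ℝ) ≤ t) (he : Real.exp (-(t * L / 4)) ≤ 1 / 4)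
    (z z' : ℂ) (hz1 : Bu ka z.re) (hz : t ≤ z.im) (hz3 : z.im ≤ 1)
    (hz1' : Bu ka z'.re) (hz' : t ≤ z'.im) (hz3' : z'.im ≤ 1) :
    ‖gS Wt z - gS Wt z'‖ ≤ 2 * CH ka * ‖z - z'‖ ^ (1 / 8 : ℝ) +
      CH ka * Real.exp (-(t * L / 4)) := by
  have hL0 : (0 : ℝ) < L := by exact_mod_cast Nat.pos_of_ne_zero (NeZero.ne L)
  have ht : 0 < t := lt_of_lt_of_le (by positivity) hL
  have h1 := gS_holder Wt hWt ka t hka hka1 ht1 hL he z z' hz1.1 hz1.2 hz hz3 hz1'.1 hz1'.2 hz' hz3'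
  have h2 := rp8 ‖z - z'‖ (norm_nonneg _)
    (strip_le ka hka z z' hz1 hz1' (by linarith) hz3 (by linarith) hz3')
  have hCH := CH_ge ka
  have h3 : CH ka * ‖z - z'‖ ^ (1 / 4 : ℝ) ≤ CH ka * (2 * ‖z - z'‖ ^ (1 / 8 : ℝ)) := by
    apply mul_le_mul_of_nonneg_left h2
    linarith
  linarith

end Pool.Agent.TH794.QE
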