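import Pool.Agent.TH794.QE.FreeC

/-! Boundary values of the free resolvent in dimension two, in the bulk. -/

set_option autoImplicit false
set_option linter.unusedSectionVars false

open scoped BigOperators Topology
open MeasureTheory Set Filter

namespace Pool.Agent.TH794.QE

open Pool.Agent.W788.BK
open Pool.Agent.TH794.LL2
open Pool.Agent.W788.MFP.Four (T e NN adj K ft Op q NN_pos e_zero)
open Pool.Agent.TH794.QD (GF F0 F1 pp qq pp_cont qq_cont pp_le qq_le gW gW_time int_s_exp mv dist0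
  dist1 gW_one sg lim_le gW_im_mono gW_zero sg_sq_le)
open Pool.Agent.TH311.LL2D (CH CH_ge Bu)

/-- a bounded amplitude -/
structure BAmp (F : ℝ → ℂ) : Prop where
  cont : Continuous F
  one : ∀ s, ‖F s‖ ≤ 1

theorem BAmp.int {F : ℝ → ℂ} (h : BAmp F) {z : ℂ} (hz : 0 < z.im) :
    IntegrableOn (fun s : ℝ => F s * Complex.exp (Complex.I * z * s)) (Ioi 0) := by
  refine Integrable.mono' (g := fun s => Real.exp (-z.im * s))
    (integrableOn_exp_mul_Ioi (by linarith) 0)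
    ((h.cont.mul (by fun_prop)).aestronglyMeasurable) ?_
  rw [ae_restrict_iff' measurableSet_Ioi]
  refine Eventually.of_forall fun s hs => ?_
  rw [norm_mul]
  have h1 : ‖Complex.exp (Complex.I * z * s)‖ = Real.exp (-z.im * s) := by
    rw [Complex.norm_exp]
    congr 1
    simp
  rw [h1]
  calc ‖F s‖ * Real.exp (-z.im * s) ≤ 1 * Real.exp (-z.im * s) :=
        mul_le_mul_of_nonneg_right (h.one s) (Real.exp_pos _).le
    _ = _ := one_mul _

section tor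

variable {d L : ℕ} [NeZero L]

/-- finite and infinite volume -/
theorem gW_GFb (w : T d L → ℝ) {F : ℝ → ℂ} (hF : BAmp F) (K1 : ℝ)
    (hK : 0 ≤ K1)
    (h : ∀ s : ℝ, 0 ≤ s → ‖(mv (NN d L) fun k : T d L => ((w k : ℝ) : ℂ) *
      Complex.exp (Complex.I * ((-s * adj k : ℝ) : ℂ))) - F s‖ ≤ K1 * (1 + s))
    (t : ℝ) (ht : 0 < t) (ht1 : t ≤ 1) (z : ℂ) (hz : t ≤ z.im) :
    ‖gW w z - GF F z‖ ≤ 2 * K1 / t ^ 2 := by
  have hN := NN_pos (d := d) (L := L)
  have hz0 : 0 < z.im := ht.trans_le hz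
  rw [gW_time w z hz0]
  obtain ⟨A, hA⟩ : ∃ A : ℝ → ℂ, A = fun s => mv (NN d L) fun k : T d L => ((w k : ℝ) : ℂ) *
      Complex.exp (Complex.I * ((-s * adj k : ℝ) : ℂ)) := ⟨_, rfl⟩
  rw [← hA]
  have hh : ∀ s : ℝ, 0 ≤ s → ‖A s - F s‖ ≤ K1 * (1 + s) := by
    intro s hs
    rw [hA]
    exact h s hs
  have hAc : Continuous A := by
    rw [hA]
    unfold mv
    fun_prop
  have hen : ∀ s : ℝ, 0 ≤ s → ‖Complex.exp (Complex.I * z * s)‖ ≤ Real.exp (-t * s) := by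
    intro s hs
    rw [Complex.norm_exp]
    apply Real.exp_le_exp.2
    have : (Complex.I * z * s).re = -(z.im * s) := by simp
    rw [this]
    have := mul_le_mul_of_nonneg_right hz hs
    linarith
  obtain ⟨i1, i2⟩ := int_s_exp t ht
  have hdi : IntegrableOn (fun s : ℝ => (A s - F s) * Complex.exp (Complex.I * z * s))
      (Ioi 0) := by
    refine Integrable.mono' (i1.const_mul K1)
      (((hAc.sub hF.cont).mul (by fun_prop)).aestronglyMeasurable) ?_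
    rw [ae_restrict_iff' measurableSet_Ioi]
    refine Eventually.of_forall fun s hs => ?_
    have hs0 : (0 : ℝ) < s := hs
    rw [norm_mul, ← mul_assoc]
    exact mul_le_mul (hh s hs0.le) (hen s hs0.le) (norm_nonneg _) (by positivity)
  have hFi := hF.int hz0
  have hAi : IntegrableOn (fun s : ℝ => A s * Complex.exp (Complex.I * z * s)) (Ioi 0) := by
    have := hdi.add hFi
    refine this.congr_fun (fun s _ => ?_) measurableSet_Ioi
    simp only [Pi.add_apply]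
    ring
  unfold GF
  rw [← mul_sub, norm_mul, Complex.norm_I, one_mul, ← integral_sub hAi hFi]
  refine (norm_integral_le_integral_norm _).trans ?_
  refine (setIntegral_mono_on (g := fun s => K1 * ((1 + s) * Real.exp (-t * s)))
    (hAi.sub hFi).norm (i1.const_mul K1)
    measurableSet_Ioi fun s hs => ?_).trans ?_
  · have hs0 : (0 : ℝ) < s := hs
    simp only [Pi.sub_apply]
    rw [← sub_mul, norm_mul, ← mul_assoc]
    exact mul_le_mul (hh s hs0.le) (hen s hs0.le) (norm_nonneg _) (by positivity)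
  · rw [integral_const_mul, i2, mul_comm 2 K1, mul_div_assoc]
    apply mul_le_mul_of_nonneg_left _ hK
    have h1 : 1 / t ≤ 1 / t ^ 2 := by
      apply one_div_le_one_div_of_le (by positivity)
      nlinarith
    have h2 : 2 / t ^ 2 = 1 / t ^ 2 + 1 / t ^ 2 := by ring
    linarith


end tor

theorem bamp0 (d : ℕ) : BAmp (F0 d) where
  cont := pp_cont.pow d
  one s := by
    unfold F0
    rw [norm_pow]
    exact pow_le_one₀ (norm_nonneg _) (pp_le s)

theorem bamp1 (d : ℕ) : BAmp (F1 d) where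
  cont := qq_cont.mul (pp_cont.pow _)
  one s := by
    unfold F1
    rw [norm_mul, norm_pow]
    exact mul_le_one₀ (qq_le s) (by positivity) (pow_le_one₀ (norm_nonneg _) (pp_le s))

theorem finb0 {L : ℕ} [NeZero L] (d : ℕ) (t : ℝ) (ht : 0 < t)
    (ht1 : t ≤ 1) (z : ℂ) (hz : t ≤ z.im) :
    ‖gL d L z - GF (F0 d) z‖ ≤ 28 * d / L / t ^ 2 := by
  have h1 := gW_GFb (d := d) (L := L) (fun _ => 1) (bamp0 d) (14 * d / L)
    (by positivity) (fun s hs => dist0 s hs) t ht ht1 z hz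
  rw [gW_one] at h1
  refine h1.trans (le_of_eq ?_)
  ring

theorem finb1 {L : ℕ} [NeZero L] (d : ℕ) (hd : 1 ≤ d) (j : Fin d) (t : ℝ)
    (ht : 0 < t) (ht1 : t ≤ 1) (z : ℂ) (hz : t ≤ z.im) :
    ‖gW (fun k : T d L => sg j k ^ 2) z - GF (F1 d) z‖ ≤ 28 * d / L / t ^ 2 := by
  have h1 := gW_GFb (d := d) (L := L) (fun k => sg j k ^ 2) (bamp1 d) (14 * d / L)
    (by positivity) (fun s hs => dist1 hd j s hs) t ht ht1 z hz
  refine h1.trans (le_of_eq ?_)
  ring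

/-- the exponential -/
theorem exp_small (x : ℝ) (hx : 0 < x) : Real.exp (-x) ≤ 1 / x := by
  rw [Real.exp_neg, ← one_div]
  apply one_div_le_one_div_of_le hx
  have := Real.add_one_le_exp x
  linarith

/-- Hölder continuity in infinite volume -/
theorem hol_lim (ka : ℝ) (hka : 0 < ka) (hka1 : ka ≤ 1) (F : ℝ → ℂ)
    (w : ∀ (L : ℕ) [NeZero L], ZMod L → ℝ) (hw : ∀ (L : ℕ) [NeZero L] x, |w L x| ≤ 1)
    (hF : ∀ (L : ℕ) [NeZero L] (t : ℝ), 0 < t → t ≤ 1 → ∀ z : ℂ, t ≤ z.im →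
      ‖gS (w L) z - GF F z‖ ≤ 56 / L / t ^ 2)
    (z z' : ℂ) (hz1 : Bu ka z.re) (hz1' : Bu ka z'.re) (hz : 0 < z.im) (hz3 : z.im ≤ 1)
    (hz' : 0 < z'.im) (hz3' : z'.im ≤ 1) :
    ‖GF F z - GF F z'‖ ≤ 2 * CH ka * ‖z - z'‖ ^ (1 / 8 : ℝ) := by
  obtain ⟨t, ht⟩ : ∃ t, t = min z.im z'.im := ⟨_, rfl⟩
  have ht0 : 0 < t := by rw [ht]; exact lt_min hz hz'
  have htz : t ≤ z.im := by rw [ht]; exact min_le_left _ _
  have htz' : t ≤ z'.im := by rw [ht]; exact min_le_right _ _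
  have ht1 : t ≤ 1 := htz.trans hz3
  have hCH := CH_ge ka
  apply lim_le _ _ (2 * (56 / t ^ 2) + 4 * CH ka / t)
  intro n
  obtain ⟨L, hL⟩ : ∃ L : ℕ, L = n + 1 + ⌈8 / t⌉₊ := ⟨_, rfl⟩
  have hLne : NeZero L := ⟨by rw [hL]; omega⟩
  have h8 : 8 / t ≤ (L : ℝ) := by
    have := Nat.le_ceil (8 / t)
    rw [hL]
    push_cast
    have : (0 : ℝ) ≤ n := Nat.cast_nonneg n
    linarith
  have hn : (n : ℝ) + 1 ≤ L := by
    rw [hL]
    push_cast
    have : (0 : ℝ) ≤ (⌈8 / t⌉₊ : ℝ) := Nat.cast_nonneg _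
    linarith
  have hn0 : (0 : ℝ) < n + 1 := by positivity
  have hL0 : (0 : ℝ) < L := hn0.trans_le hn
  have htL : 8 ≤ t * L := by
    rw [div_le_iff₀ ht0] at h8
    linarith
  have hL1 : 1 / (L : ℝ) ≤ t := by
    rw [div_le_iff₀ hL0]
    linarith
  have he : Real.exp (-(t * L / 4)) ≤ 1 / 4 := by
    have h1 : Real.exp (-(t * L / 4)) ≤ Real.exp (-2) := by
      apply Real.exp_le_exp.2
      linarith
    have h2 : Real.exp (-2) ≤ 1 / 4 := by
      rw [Real.exp_neg, ← one_div]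
      apply one_div_le_one_div_of_le (by norm_num)
      have h3 : Real.exp 2 = Real.exp 1 * Real.exp 1 := by
        rw [← Real.exp_add]
        norm_num
      have := Real.exp_one_gt_d9
      rw [h3]
      nlinarith
    exact h1.trans h2
  have he2 : Real.exp (-(t * L / 4)) ≤ 4 / t / L := by
    refine (exp_small (t * L / 4) (by positivity)).trans (le_of_eq ?_)
    field_simp
  have a1 := hF L t ht0 ht1 z htz
  have a2 := hF L t ht0 ht1 z' htz'
  have a3 := gS_holder8 (w L) (hw L) ka t hka hka1 ht1 hL1 he z z' hz1 htz hz3 hz1' htz' hz3'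
  have e1 : GF F z - GF F z' = -(gS (w L) z - GF F z) + (gS (w L) z - gS (w L) z') +
      (gS (w L) z' - GF F z') := by ring
  have e2 : ‖GF F z - GF F z'‖ ≤ 56 / L / t ^ 2 + ‖gS (w L) z - gS (w L) z'‖ +
      56 / L / t ^ 2 := by
    rw [e1]
    refine (norm_add_le _ _).trans (add_le_add ((norm_add_le _ _).trans
      (add_le_add ?_ le_rfl)) a2)
    rw [norm_neg]
    exact a1
  have e3 : CH ka * Real.exp (-(t * L / 4)) ≤ CH ka * (4 / t / L) := by gcongr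
  have e4 : 2 * (56 / L / t ^ 2) + CH ka * (4 / t / L) =
      (2 * (56 / t ^ 2) + 4 * CH ka / t) / L := by
    field_simp
  have e5 : (2 * (56 / t ^ 2) + 4 * CH ka / t) / L ≤
      (2 * (56 / t ^ 2) + 4 * CH ka / t) / (n + 1) := by
    apply div_le_div_of_nonneg_left (by positivity) hn0 hn
  linarith

/-- the boundary value -/
noncomputable def bvl (F : ℝ → ℂ) (E : ℝ) : ℂ :=
  limUnder (𝓝[>] (0 : ℝ)) fun t : ℝ => GF F ((E : ℂ) + (t : ℂ) * Complex.I)

theorem cauchy8 (f : ℝ → ℂ) (C : ℝ) (hC : 0 < C)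
    (key : ∀ s t : ℝ, 0 < s → s ≤ 1 → 0 < t → t ≤ 1 → ‖f s - f t‖ ≤ C * |s - t| ^ (1 / 8 : ℝ)) :
    ∃ γ : ℂ, Tendsto f (𝓝[>] 0) (𝓝 γ) := by
  have hca : Cauchy (map f (𝓝[>] (0 : ℝ))) := by
    rw [Metric.cauchy_iff]
    refine ⟨inferInstance, fun ε hε => ?_⟩
    obtain ⟨δ, hδ⟩ : ∃ δ, δ = min 1 ((ε / (2 * C)) ^ 8) := ⟨_, rfl⟩
    have hδ0 : 0 < δ := by
      rw [hδ]
      exact lt_min one_pos (by positivity)
    refine ⟨f '' Set.Ioo 0 δ, image_mem_map (Ioo_mem_nhdsGT hδ0), ?_⟩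
    rintro _ ⟨x, hx, rfl⟩ _ ⟨y, hy, rfl⟩
    have hx1 : x ≤ 1 := hx.2.le.trans (by rw [hδ]; exact min_le_left _ _)
    have hy1 : y ≤ 1 := hy.2.le.trans (by rw [hδ]; exact min_le_left _ _)
    rw [dist_eq_norm]
    have hxy : |x - y| ≤ (ε / (2 * C)) ^ 8 := by
      have h1 : |x - y| ≤ δ := by
        rw [abs_le]
        constructor
        · linarith [hx.1, hy.2]
        · linarith [hx.2, hy.1]
      exact h1.trans (by rw [hδ]; exact min_le_right _ _)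
    have h2 : |x - y| ^ (1 / 8 : ℝ) ≤ ε / (2 * C) := by
      have h3 := Real.rpow_le_rpow (abs_nonneg _) hxy (by norm_num : (0 : ℝ) ≤ 1 / 8)
      refine h3.trans (le_of_eq ?_)
      rw [← Real.rpow_natCast, ← Real.rpow_mul (by positivity)]
      norm_num
    calc ‖f x - f y‖ ≤ C * |x - y| ^ (1 / 8 : ℝ) := key x y hx.1 hx1 hy.1 hy1
      _ ≤ C * (ε / (2 * C)) := by gcongr
      _ = ε / 2 := by field_simp
      _ < ε := by linarith
  exact cauchy_map_iff_exists_tendsto.1 hca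

section bv

variable {ka : ℝ} {F : ℝ → ℂ}

/-- the Hölder property in the open strip -/
def HolS (ka : ℝ) (F : ℝ → ℂ) : Prop := ∀ z z' : ℂ, Bu ka z.re → Bu ka z'.re → 0 < z.im →
  z.im ≤ 1 → 0 < z'.im → z'.im ≤ 1 → ‖GF F z - GF F z'‖ ≤ 2 * CH ka * ‖z - z'‖ ^ (1 / 8 : ℝ)

theorem HolS.bv (h : HolS ka F) (E : ℝ) (hE : Bu ka E) :
    Tendsto (fun t : ℝ => GF F ((E : ℂ) + (t : ℂ) * Complex.I)) (𝓝[>] 0) (𝓝 (bvl F E)) := by
  have hCH := CH_ge ka
  obtain ⟨γ, hγ⟩ := cauchy8 (fun t : ℝ => GF F ((E : ℂ) + (t : ℂ) * Complex.I)) (2 * CH ka)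
    (by positivity) (fun s t hs hs1 ht ht1 => by
      have h1 := h ((E : ℂ) + (s : ℂ) * Complex.I) ((E : ℂ) + (t : ℂ) * Complex.I)
        (by simpa using hE) (by simpa using hE) (by simpa using hs) (by simpa using hs1)
        (by simpa using ht) (by simpa using ht1)
      refine h1.trans (le_of_eq ?_)
      congr 2
      have e1 : ((E : ℂ) + (s : ℂ) * Complex.I) - ((E : ℂ) + (t : ℂ) * Complex.I) =
          ((s - t : ℝ) : ℂ) * Complex.I := by
        push_cast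
        ring
      rw [e1, norm_mul, Complex.norm_I, mul_one, Complex.norm_real, Real.norm_eq_abs])
  exact tendsto_nhds_limUnder ⟨γ, hγ⟩

theorem HolS.lim (h : HolS ka F) (z : ℂ) (hz1 : Bu ka z.re) (hz : 0 < z.im) (hz3 : z.im ≤ 1)
    (E : ℝ) (hE : Bu ka E) : ‖GF F z - bvl F E‖ ≤ 2 * CH ka * ‖z - (E : ℂ)‖ ^ (1 / 8 : ℝ) := by
  have l1 := ((h.bv E hE).const_sub (GF F z)).norm
  have l2 : Tendsto (fun t : ℝ => 2 * CH ka * ‖z - ((E : ℂ) + (t : ℂ) * Complex.I)‖ ^ (1 / 8 : ℝ))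
      (𝓝[>] 0) (𝓝 (2 * CH ka * ‖z - ((E : ℂ) + ((0 : ℝ) : ℂ) * Complex.I)‖ ^ (1 / 8 : ℝ))) := by
    have hc : Continuous fun t : ℝ =>
        2 * CH ka * ‖z - ((E : ℂ) + (t : ℂ) * Complex.I)‖ ^ (1 / 8 : ℝ) := by
      have := Real.continuous_rpow_const (show (0 : ℝ) ≤ 1 / 8 by norm_num)
      fun_prop
    exact (hc.tendsto 0).mono_left nhdsWithin_le_nhds
  rw [Complex.ofReal_zero, zero_mul, add_zero] at l2
  refine le_of_tendsto_of_tendsto l1 l2 ?_
  have hmem : Set.Ioc (0 : ℝ) 1 ∈ 𝓝[>] (0 : ℝ) := Ioc_mem_nhdsGT one_pos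
  filter_upwards [hmem] with t ht
  exact h z _ hz1 (by simpa using hE) hz hz3 (by simpa using ht.1) (by simpa using ht.2)

theorem HolS.lip (h : HolS ka F) (E E' : ℝ) (hE : Bu ka E) (hE' : Bu ka E') :
    ‖bvl F E - bvl F E'‖ ≤ 2 * CH ka * |E - E'| ^ (1 / 8 : ℝ) := by
  have l1 := ((h.bv E hE).sub_const (bvl F E')).norm
  have l2 : Tendsto (fun t : ℝ => 2 * CH ka *
      ‖((E : ℂ) + (t : ℂ) * Complex.I) - (E' : ℂ)‖ ^ (1 / 8 : ℝ))
      (𝓝[>] 0) (𝓝 (2 * CH ka *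
        ‖((E : ℂ) + ((0 : ℝ) : ℂ) * Complex.I) - (E' : ℂ)‖ ^ (1 / 8 : ℝ))) := by
    have hc : Continuous fun t : ℝ => 2 * CH ka *
      ‖((E : ℂ) + (t : ℂ) * Complex.I) - (E' : ℂ)‖ ^ (1 / 8 : ℝ) := by
      have := Real.continuous_rpow_const (show (0 : ℝ) ≤ 1 / 8 by norm_num)
      fun_prop
    exact (hc.tendsto 0).mono_left nhdsWithin_le_nhds
  have e1 : ‖((E : ℂ) + ((0 : ℝ) : ℂ) * Complex.I) - (E' : ℂ)‖ = |E - E'| := by
    rw [Complex.ofReal_zero, zero_mul, add_zero, ← Complex.ofReal_sub, Complex.norm_real,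
      Real.norm_eq_abs]
  rw [e1] at l2
  refine le_of_tendsto_of_tendsto l1 l2 ?_
  have hmem : Set.Ioc (0 : ℝ) 1 ∈ 𝓝[>] (0 : ℝ) := Ioc_mem_nhdsGT one_pos
  filter_upwards [hmem] with t ht
  exact h.lim _ (by simpa using hE) (by simpa using ht.1) (by simpa using ht.2) E' hE'

end bv

theorem holS0 (ka : ℝ) (hka : 0 < ka) (hka1 : ka ≤ 1) : HolS ka (F0 2) := by
  intro z z' h1 h2 h3 h4 h5 h6
  refine hol_lim ka hka hka1 (F0 2) (fun _ _ _ => 1) (fun _ _ _ => by simp) ?_ z z' h1 h2 h3 h4 h5 h6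
  intro L _ t ht ht1 z hz
  have h := finb0 (L := L) 2 t ht ht1 z hz
  rw [gL_gS] at h
  refine h.trans (le_of_eq ?_)
  push_cast
  ring

theorem holS1 (ka : ℝ) (hka : 0 < ka) (hka1 : ka ≤ 1) : HolS ka (F1 2) := by
  intro z z' h1 h2 h3 h4 h5 h6
  refine hol_lim ka hka hka1 (F1 2) (fun L _ x => (ZMod.stdAddChar x : ℂ).im ^ 2)
    (fun L _ x => wt_le x) ?_ z z' h1 h2 h3 h4 h5 h6
  intro L _ t ht ht1 z hz
  have h := finb1 (L := L) 2 (by norm_num) 0 t ht ht1 z hz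
  rw [gW_gS] at h
  refine h.trans (le_of_eq ?_)
  push_cast
  ring

end Pool.Agent.TH794.QE
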