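import Pool.Agent.TH794.QE.FreeE
import Mathlib.MeasureTheory.Integral.Pi

/-! The free resolvents as integrals over the momenta, and their positivity in every dimension. -/

set_option autoImplicit false
set_option linter.unusedSectionVars false

open scoped BigOperators Topology
open MeasureTheory Set Filter

namespace Pool.Agent.TH794.QE

open Pool.Agent.W788.BK
open Pool.Agent.TH794.LL2
open Pool.Agent.TH794.QD

theorem mix_int {X : Type*} [MeasurableSpace X] (μ : Measure X) [IsFiniteMeasure μ] (w : X → ℂ)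
    (h : X → ℝ) (hw : Measurable w) (hh : Measurable h) (hw1 : ∀ x, ‖w x‖ ≤ 1) (F : ℝ → ℂ)
    (hF : BAmp F) (z : ℂ) (hz : 0 < z.im) : Integrable (Function.uncurry fun (s : ℝ) (x : X) =>
      w x * Complex.exp (Complex.I * ((-s * h x : ℝ) : ℂ)) * F s * Complex.exp (Complex.I * z * s))
      ((volume.restrict (Ioi (0 : ℝ))).prod μ) := by
  have hFm : Measurable F := hF.cont.measurable
  have hn : ∀ (s : ℝ) (x : X), ‖w x * Complex.exp (Complex.I * ((-s * h x : ℝ) : ℂ)) * F s *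
      Complex.exp (Complex.I * z * s)‖ ≤ Real.exp (-z.im * s) * 1 := by
    intro s x
    rw [norm_mul, norm_mul, norm_mul]
    have h1 : ‖Complex.exp (Complex.I * ((-s * h x : ℝ) : ℂ))‖ = 1 := by
      rw [mul_comm, Complex.norm_exp_ofReal_mul_I]
    have h2 : ‖Complex.exp (Complex.I * z * s)‖ = Real.exp (-z.im * s) := by
      rw [Complex.norm_exp]
      congr 1
      simp
    rw [h1, h2, mul_one, mul_one]
    have h3 : ‖w x‖ * ‖F s‖ ≤ 1 := mul_le_one₀ (hw1 x) (norm_nonneg _) (hF.one s)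
    calc ‖w x‖ * ‖F s‖ * Real.exp (-z.im * s) ≤ 1 * Real.exp (-z.im * s) := by gcongr
      _ = _ := one_mul _
  have hb : Integrable (fun p : ℝ × X => Real.exp (-z.im * p.1) * (fun _ : X => (1 : ℝ)) p.2)
      ((volume.restrict (Ioi (0 : ℝ))).prod μ) :=
    Integrable.mul_prod (f := fun s => Real.exp (-z.im * s)) (g := fun _ => (1 : ℝ))
      (integrableOn_exp_mul_Ioi (by linarith) 0) (integrable_const 1)
  refine Integrable.mono' hb ?_ ?_
  · apply Measurable.aestronglyMeasurable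
    unfold Function.uncurry
    fun_prop
  · exact Filter.Eventually.of_forall fun p => hn p.1 p.2

theorem mix_pt {X : Type*} (w : X → ℂ) (h : X → ℝ) (F : ℝ → ℂ) (z : ℂ) (x : X) :
    w x * GF F (z - (h x : ℂ)) = Complex.I * ∫ s in Ioi (0 : ℝ),
      w x * Complex.exp (Complex.I * ((-s * h x : ℝ) : ℂ)) * F s *
        Complex.exp (Complex.I * z * s) := by
  unfold GF
  rw [mul_left_comm, ← integral_const_mul (w x)]
  congr 1
  refine integral_congr_ae (Filter.Eventually.of_forall fun s => ?_)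
  simp only
  have e2 : Complex.exp (Complex.I * (z - (h x : ℂ)) * s) =
      Complex.exp (Complex.I * ((-s * h x : ℝ) : ℂ)) * Complex.exp (Complex.I * z * s) := by
    rw [← Complex.exp_add]
    congr 1
    push_cast
    ring
  rw [e2]
  ring

/-- integrability of a mixture -/
theorem GF_mixi {X : Type*} [MeasurableSpace X] (μ : Measure X) [IsFiniteMeasure μ] (w : X → ℂ)
    (h : X → ℝ) (hw : Measurable w) (hh : Measurable h) (hw1 : ∀ x, ‖w x‖ ≤ 1) (F : ℝ → ℂ)
    (hF : BAmp F) (z : ℂ) (hz : 0 < z.im) : Integrable (fun x => w x * GF F (z - (h x : ℂ))) μ := by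
  have h1 := (mix_int μ w h hw hh hw1 F hF z hz).integral_prod_right.const_mul Complex.I
  refine h1.congr (Filter.Eventually.of_forall fun x => ?_)
  simp only
  rw [mix_pt]
  rfl

/-- mixtures -/
theorem GF_mix {X : Type*} [MeasurableSpace X] (μ : Measure X) [IsFiniteMeasure μ] (w : X → ℂ)
    (h : X → ℝ) (hw : Measurable w) (hh : Measurable h) (hw1 : ∀ x, ‖w x‖ ≤ 1) (F : ℝ → ℂ)
    (hF : BAmp F) (z : ℂ) (hz : 0 < z.im) :
    GF (fun s => (∫ x, w x * Complex.exp (Complex.I * ((-s * h x : ℝ) : ℂ)) ∂μ) * F s) z =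
      ∫ x, w x * GF F (z - (h x : ℂ)) ∂μ := by
  have hint := mix_int μ w h hw hh hw1 F hF z hz
  have e1 : ∀ s : ℝ, (∫ x, w x * Complex.exp (Complex.I * ((-s * h x : ℝ) : ℂ)) ∂μ) * F s *
      Complex.exp (Complex.I * z * s) = ∫ x, w x * Complex.exp (Complex.I * ((-s * h x : ℝ) : ℂ)) *
        F s * Complex.exp (Complex.I * z * s) ∂μ := by
    intro s
    rw [integral_mul_const, integral_mul_const]
  simp_rw [mix_pt]
  unfold GF
  simp_rw [e1]
  rw [integral_integral_swap hint, ← integral_const_mul]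

theorem bampOne : BAmp (fun _ => (1 : ℂ)) where
  cont := continuous_const
  one _ := by simp

theorem GF_one (z : ℂ) (hz : 0 < z.im) : GF (fun _ => (1 : ℂ)) z = -z⁻¹ := by
  unfold GF
  simp only [one_mul]
  have hre : (Complex.I * z).re < 0 := by
    simp
    exact hz
  rw [integral_exp_mul_complex_Ioi hre]
  have hz0 : z ≠ 0 := by
    intro h0
    rw [h0] at hz
    simp at hz
  have hI := Complex.I_ne_zero
  simp only [Complex.ofReal_zero, mul_zero, Complex.exp_zero]
  field_simp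

/-- the resolvent of a mixture -/
theorem GF_res {X : Type*} [MeasurableSpace X] (μ : Measure X) [IsFiniteMeasure μ] (w : X → ℂ)
    (h : X → ℝ) (hw : Measurable w) (hh : Measurable h) (hw1 : ∀ x, ‖w x‖ ≤ 1) (z : ℂ)
    (hz : 0 < z.im) :
    GF (fun s => ∫ x, w x * Complex.exp (Complex.I * ((-s * h x : ℝ) : ℂ)) ∂μ) z =
      ∫ x, w x * ((h x : ℂ) - z)⁻¹ ∂μ := by
  have h1 := GF_mix μ w h hw hh hw1 _ bampOne z hz
  simp only [mul_one] at h1
  rw [h1]
  refine integral_congr_ae (Filter.Eventually.of_forall fun x => ?_)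
  simp only
  rw [GF_one _ (by simpa using hz), ← inv_neg, neg_sub]

/-- the uniform measure on the cube -/
noncomputable def cube (d : ℕ) : Measure (Fin d → ℝ) :=
  Measure.pi fun _ : Fin d => volume.restrict (Set.Icc (0 : ℝ) 1)

instance (d : ℕ) : IsFiniteMeasure (cube d) := by
  unfold cube
  infer_instance

/-- the symbol of the sum over the neighbours -/
noncomputable def sym {d : ℕ} (k : Fin d → ℝ) : ℝ := ∑ i, 2 * Real.cos (2 * Real.pi * k i)

theorem ival (f : ℝ → ℂ) : ∫ x in Set.Icc (0 : ℝ) 1, f x = ∫ x in (0 : ℝ)..1, f x := by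
  rw [intervalIntegral.integral_of_le zero_le_one, integral_Icc_eq_integral_Ioc]

theorem F0_cube (d : ℕ) (s : ℝ) : F0 d s =
    ∫ k, 1 * Complex.exp (Complex.I * ((-s * sym k : ℝ) : ℂ)) ∂(cube d) := by
  have h1 := integral_fin_nat_prod_eq_prod (n := d) (E := fun _ => ℝ)
    (μ := fun _ : Fin d => volume.restrict (Set.Icc (0 : ℝ) 1)) (fun _ x => ff s x)
  have h2 : ∀ k : Fin d → ℝ, ∏ i, ff s (k i) =
      1 * Complex.exp (Complex.I * ((-s * sym k : ℝ) : ℂ)) := by
    intro k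
    unfold ff sym
    rw [← Complex.exp_sum, one_mul]
    congr 1
    push_cast
    simp only [Finset.mul_sum]
  simp only [h2] at h1
  unfold cube
  rw [h1, Finset.prod_const, Finset.card_univ, Fintype.card_fin, ival]
  rfl

theorem F1_cube (d : ℕ) (s : ℝ) : F1 (d + 1) s =
    ∫ k, ((Real.sin (2 * Real.pi * k 0) ^ 2 : ℝ) : ℂ) *
      Complex.exp (Complex.I * ((-s * sym k : ℝ) : ℂ)) ∂(cube (d + 1)) := by
  have h1 := integral_fin_nat_prod_eq_prod (n := d + 1) (E := fun _ => ℝ)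
    (μ := fun _ : Fin (d + 1) => volume.restrict (Set.Icc (0 : ℝ) 1))
    (fun i x => if i = 0 then fs s x else ff s x)
  have h2 : ∀ k : Fin (d + 1) → ℝ, ∏ i, (if i = 0 then fs s (k i) else ff s (k i)) =
      ((Real.sin (2 * Real.pi * k 0) ^ 2 : ℝ) : ℂ) *
        Complex.exp (Complex.I * ((-s * sym k : ℝ) : ℂ)) := by
    intro k
    rw [Fin.prod_univ_succ, if_pos rfl]
    have h3 : ∀ i : Fin d, (if i.succ = 0 then fs s (k i.succ) else ff s (k i.succ)) =
        ff s (k i.succ) := fun i => if_neg (Fin.succ_ne_zero i)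
    simp only [h3]
    unfold fs
    rw [mul_assoc, ← Fin.prod_univ_succ (fun i => ff s (k i))]
    congr 1
    unfold ff sym
    rw [← Complex.exp_sum]
    congr 1
    push_cast
    simp only [Finset.mul_sum]
  simp only [h2] at h1
  unfold cube
  rw [h1, Fin.prod_univ_succ]
  have h3 : ∀ i : Fin d, (∫ x in Set.Icc (0 : ℝ) 1, if i.succ = 0 then fs s x else ff s x) =
      pp s := by
    intro i
    simp only [if_neg (Fin.succ_ne_zero i)]
    rw [ival]
    rfl
  simp only [h3, if_true]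
  rw [Finset.prod_const, Finset.card_univ, Fintype.card_fin, ival]
  rfl

theorem sym_cont (d : ℕ) : Continuous (sym (d := d)) := by
  unfold sym
  fun_prop

/-- **the free resolvent** -/
theorem GF0_cube (d : ℕ) (z : ℂ) (hz : 0 < z.im) :
    GF (F0 d) z = ∫ k, ((sym k : ℂ) - z)⁻¹ ∂(cube d) := by
  have h1 := GF_res (cube d) (fun _ => 1) sym measurable_const (sym_cont d).measurable
    (fun _ => by simp) z hz
  have h2 : F0 d = fun s => ∫ k, 1 * Complex.exp (Complex.I * ((-s * sym k : ℝ) : ℂ)) ∂(cube d) := by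
    funext s
    exact F0_cube d s
  rw [h2, h1]
  simp only [one_mul]

/-- **the weighted free resolvent** -/
theorem GF1_cube (d : ℕ) (z : ℂ) (hz : 0 < z.im) :
    GF (F1 (d + 1)) z = ∫ k, ((Real.sin (2 * Real.pi * k 0) ^ 2 : ℝ) : ℂ) *
      ((sym k : ℂ) - z)⁻¹ ∂(cube (d + 1)) := by
  have h1 := GF_res (cube (d + 1)) (fun k => ((Real.sin (2 * Real.pi * k 0) ^ 2 : ℝ) : ℂ)) sym
    (by fun_prop) (sym_cont _).measurable
    (fun k => by
      rw [Complex.norm_real, Real.norm_of_nonneg (sq_nonneg _)]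
      exact Real.sin_sq_le_one _) z hz
  have h2 : F1 (d + 1) = fun s => ∫ k, ((Real.sin (2 * Real.pi * k 0) ^ 2 : ℝ) : ℂ) *
      Complex.exp (Complex.I * ((-s * sym k : ℝ) : ℂ)) ∂(cube (d + 1)) := by
    funext s
    exact F1_cube d s
  rw [h2, h1]

/-- one more dimension -/
theorem GF1_step (d : ℕ) (hd : 1 ≤ d) (z : ℂ) (hz : 0 < z.im) :
    GF (F1 (d + 1)) z = ∫ x in Set.Icc (0 : ℝ) 1,
      GF (F1 d) (z - ((2 * Real.cos (2 * Real.pi * x) : ℝ) : ℂ)) := by
  have h1 := GF_mix (volume.restrict (Set.Icc (0 : ℝ) 1)) (fun _ => 1)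
    (fun x => 2 * Real.cos (2 * Real.pi * x)) measurable_const (by fun_prop) (fun _ => by simp)
    (F1 d) (bamp1 d) z hz
  have h2 : F1 (d + 1) = fun s => (∫ x in Set.Icc (0 : ℝ) 1, 1 * Complex.exp (Complex.I *
      ((-s * (2 * Real.cos (2 * Real.pi * x)) : ℝ) : ℂ))) * F1 d s := by
    funext s
    have h3 : (∫ x in Set.Icc (0 : ℝ) 1, 1 * Complex.exp (Complex.I *
      ((-s * (2 * Real.cos (2 * Real.pi * x)) : ℝ) : ℂ))) = pp s := by
      rw [ival]
      simp only [one_mul]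
      rfl
    rw [h3]
    unfold F1
    obtain ⟨n, rfl⟩ : ∃ n, d = n + 1 := ⟨d - 1, by omega⟩
    simp only [Nat.add_one_sub_one]
    rw [pow_succ]
    ring
  rw [h2, h1]
  simp only [one_mul]

theorem GF1_stepi (d : ℕ) (z : ℂ) (hz : 0 < z.im) :
    IntegrableOn (fun x : ℝ => GF (F1 d) (z - ((2 * Real.cos (2 * Real.pi * x) : ℝ) : ℂ)))
      (Set.Icc (0 : ℝ) 1) := by
  have h1 := GF_mixi (volume.restrict (Set.Icc (0 : ℝ) 1)) (fun _ => 1)
    (fun x => 2 * Real.cos (2 * Real.pi * x)) measurable_const (by fun_prop) (fun _ => by simp)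
    (F1 d) (bamp1 d) z hz
  simp only [one_mul] at h1
  exact h1

theorem inv_im_nn (x : ℝ) (z : ℂ) (hz : 0 < z.im) : 0 ≤ (((x : ℂ) - z)⁻¹).im := by
  rw [Complex.inv_im]
  apply div_nonneg _ (Complex.normSq_nonneg _)
  simp
  exact hz.le

/-- positivity -/
theorem GF1_nn (d : ℕ) (hd : 1 ≤ d) (z : ℂ) (hz : 0 < z.im) : 0 ≤ (GF (F1 d) z).im := by
  obtain ⟨n, rfl⟩ : ∃ n, d = n + 1 := ⟨d - 1, by omega⟩
  rw [GF1_cube n z hz]
  have hm : Measurable fun k : Fin (n + 1) → ℝ => ((Real.sin (2 * Real.pi * k 0) ^ 2 : ℝ) : ℂ) := by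
    fun_prop
  have h1 := GF_mixi (cube (n + 1)) (fun k => ((Real.sin (2 * Real.pi * k 0) ^ 2 : ℝ) : ℂ)) sym
    hm (sym_cont _).measurable
    (fun k => by
      rw [Complex.norm_real, Real.norm_of_nonneg (sq_nonneg _)]
      exact Real.sin_sq_le_one _) _ bampOne z hz
  have h2 : ∀ k : Fin (n + 1) → ℝ, GF (fun _ => (1 : ℂ)) (z - ((sym k : ℝ) : ℂ)) =
      ((sym k : ℂ) - z)⁻¹ := by
    intro k
    rw [GF_one _ (by simpa using hz), ← inv_neg, neg_sub]
  simp only [h2] at h1
  have h3 := Complex.imCLM.integral_comp_comm h1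
  simp only [Complex.imCLM_apply] at h3
  rw [← h3]
  refine integral_nonneg fun k => ?_
  simp only [Pi.zero_apply]
  rw [Complex.im_ofReal_mul]
  exact mul_nonneg (sq_nonneg _) (inv_im_nn _ _ hz)

/-- the step of the lower bound -/
theorem low_step (d : ℕ) (hd : 2 ≤ d) (κ m : ℝ) (hκ : 0 < κ) (hκ1 : κ ≤ 1) (hm : 0 ≤ m)
    (h : ∀ E t : ℝ, |E| ≤ 2 * d - κ / 2 → 0 < t → t ≤ 1 →
      m ≤ (GF (F1 d) ((E : ℂ) + (t : ℂ) * Complex.I)).im)
    (E t : ℝ) (hE : |E| ≤ 2 * ((d + 1 : ℕ) : ℝ) - κ) (ht : 0 < t) (ht1 : t ≤ 1) :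
    m * (κ / (4 * Real.pi)) ≤ (GF (F1 (d + 1)) ((E : ℂ) + (t : ℂ) * Complex.I)).im := by
  have hpi := Real.pi_gt_three
  have hpi0 := Real.pi_pos
  have hz : 0 < ((E : ℂ) + (t : ℂ) * Complex.I).im := by simpa using ht
  rw [GF1_step d (by omega) _ hz]
  have hi := GF1_stepi d ((E : ℂ) + (t : ℂ) * Complex.I) hz
  have h3 := Complex.imCLM.integral_comp_comm hi
  simp only [Complex.imCLM_apply] at h3
  rw [← h3]
  have hii : IntegrableOn (fun x : ℝ => (GF (F1 d) ((E : ℂ) + (t : ℂ) * Complex.I -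
      ((2 * Real.cos (2 * Real.pi * x) : ℝ) : ℂ))).im) (Set.Icc (0 : ℝ) 1) :=
    Complex.imCLM.integrable_comp hi
  -- the interval
  obtain ⟨a, ha⟩ : ∃ a : ℝ, a = if 0 ≤ E then 0 else 1 / 2 := ⟨_, rfl⟩
  have ha0 : 0 ≤ a := by
    rw [ha]
    split_ifs <;> norm_num
  have ha1 : a ≤ 1 / 2 := by
    rw [ha]
    split_ifs <;> norm_num
  obtain ⟨r, hr⟩ : ∃ r : ℝ, r = κ / (4 * Real.pi) := ⟨_, rfl⟩
  have hr0 : 0 < r := by rw [hr]; positivity
  have hr1 : r ≤ 1 / 2 := by
    rw [hr, div_le_iff₀ (by positivity)]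
    linarith
  have hsub : Set.Icc a (a + r) ⊆ Set.Icc (0 : ℝ) 1 := Set.Icc_subset_Icc ha0 (by linarith)
  have h4 : ∫ x in Set.Icc a (a + r), m ≤ ∫ x in Set.Icc (0 : ℝ) 1,
      (GF (F1 d) ((E : ℂ) + (t : ℂ) * Complex.I -
        ((2 * Real.cos (2 * Real.pi * x) : ℝ) : ℂ))).im := by
    refine le_trans ?_ (setIntegral_mono_set hii
      (Filter.Eventually.of_forall fun x => GF1_nn d (by omega) _ (by
        rw [Complex.sub_im, Complex.ofReal_im]
        simpa using ht))
      (LE.le.eventuallyLE hsub))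
    refine setIntegral_mono_on (integrableOn_const (by simp)) (hii.mono_set hsub)
      measurableSet_Icc fun x hx => ?_
    have e1 : (E : ℂ) + (t : ℂ) * Complex.I - ((2 * Real.cos (2 * Real.pi * x) : ℝ) : ℂ) =
        ((E - 2 * Real.cos (2 * Real.pi * x) : ℝ) : ℂ) + (t : ℂ) * Complex.I := by
      push_cast
      ring
    rw [e1]
    apply h _ _ _ ht ht1
    -- the cosine on the interval
    obtain ⟨y, hy⟩ : ∃ y, y = 2 * Real.pi * (x - a) := ⟨_, rfl⟩
    have hy0 : 0 ≤ y := by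
      rw [hy]
      have := hx.1
      apply mul_nonneg (by positivity)
      linarith
    have hy1 : y ≤ κ / 2 := by
      have h5 : x - a ≤ r := by linarith [hx.2]
      calc y = 2 * Real.pi * (x - a) := hy
        _ ≤ 2 * Real.pi * r := by gcongr
        _ = κ / 2 := by
            rw [hr]
            field_simp
            norm_num
    have hcos : 1 - κ / 4 ≤ Real.cos y := by
      have h5 := Real.one_sub_sq_div_two_le_cos (x := y)
      have h6 : y ^ 2 ≤ κ / 2 := by
        calc y ^ 2 = y * y := sq y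
          _ ≤ κ / 2 * 1 := by
            apply mul_le_mul hy1 (by linarith) hy0 (by positivity)
          _ = _ := mul_one _
      linarith
    have hcos1 := Real.cos_le_one y
    have hd2 : (2 : ℝ) ≤ d := by exact_mod_cast hd
    push_cast at hE
    obtain ⟨hE1, hE2⟩ := abs_le.1 hE
    by_cases hEs : 0 ≤ E
    · have e2 : 2 * Real.pi * x = y := by
        rw [hy, ha, if_pos hEs, sub_zero]
      rw [e2, abs_le]
      constructor
      · linarith
      · linarith
    · have e2 : Real.cos (2 * Real.pi * x) = -Real.cos y := by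
        have e3 : 2 * Real.pi * x = y + Real.pi := by
          rw [hy, ha, if_neg hEs]
          ring
        rw [e3, Real.cos_add_pi]
      rw [e2, abs_le]
      push Not at hEs
      constructor
      · linarith
      · linarith
  refine le_trans (le_of_eq ?_) h4
  rw [setIntegral_const, Real.volume_real_Icc, smul_eq_mul, ← hr, add_sub_cancel_left,
    max_eq_left hr0.le]
  ring

/-- **a lower bound in every dimension** -/
theorem low_all (d : ℕ) (hd : 2 ≤ d) : ∀ κ : ℝ, 0 < κ → κ ≤ 1 → ∃ m : ℝ, 0 < m ∧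
    ∀ E t : ℝ, |E| ≤ 2 * d - κ → 0 < t → t ≤ 1 →
      m ≤ (GF (F1 d) ((E : ℂ) + (t : ℂ) * Complex.I)).im := by
  induction d, hd using Nat.le_induction with
  | base =>
    intro κ hκ hκ1
    refine ⟨κ ^ 2 / (1024 * Real.pi ^ 2), by positivity, fun E t hE ht ht1 => ?_⟩
    exact GF2_low κ t hκ hκ1 ht ht1 E (by
      push_cast at hE
      linarith)
  | succ n hn ih =>
    intro κ hκ hκ1
    obtain ⟨m, hm, h⟩ := ih (κ / 2) (by positivity) (by linarith)
    refine ⟨m * (κ / (4 * Real.pi)), by positivity, fun E t hE ht ht1 => ?_⟩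
    exact low_step n hn κ m hκ hκ1 hm.le h E t hE ht ht1

end Pool.Agent.TH794.QE
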