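import Pool.Agent.TH794.QD.Mom

/-! The second moment as a function of the imaginary part of the energy. -/

set_option autoImplicit false
set_option linter.unusedSectionVars false

open scoped BigOperators
open Pool.Agent.W788
open Pool.Agent.H4R2
open Pool.Agent.H4R2.LO (Zd)
open Pool.Agent.TH794.FG
open Pool.Agent.TH794.QD

namespace Pool.Agent.TH794.QE

variable {d : ℕ}

theorem sub_sum (f g : Zd d → ℝ) (hf : Summable fun x => f x ^ 2)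
    (hg : Summable fun x => g x ^ 2) : Summable fun x => (f x - g x) ^ 2 := by
  refine Summable.of_nonneg_of_le (fun x => sq_nonneg _) (fun x => ?_)
    ((hf.mul_left 2).add (hg.mul_left 2))
  nlinarith [sq_nonneg (f x + g x)]

/-- the difference of two solutions -/
theorem LS_diff {σ : ℝ} {ξ f : Zd d → ℝ} {E t t' : ℝ} {ur ui ur' ui' : Zd d → ℝ}
    (h : LS d σ ξ f (fun _ => 0) E t ur ui) (h' : LS d σ ξ f (fun _ => 0) E t' ur' ui') :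
    LS d σ ξ (fun x => -(t - t') * ui' x) (fun x => (t - t') * ur' x) E t
      (fun x => ur x - ur' x) (fun x => ui x - ui' x) where
  sr := sub_sum ur ur' h.sr h'.sr
  si := sub_sum ui ui' h.si h'.si
  er := by
    intro x
    have h1 := h.er x
    have h2 := h'.er x
    have h3 : ∑ i, (ur (x + Pi.single i 1) - ur' (x + Pi.single i 1) +
        (ur (x - Pi.single i 1) - ur' (x - Pi.single i 1))) =
        ∑ i, (ur (x + Pi.single i 1) + ur (x - Pi.single i 1)) -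
        ∑ i, (ur' (x + Pi.single i 1) + ur' (x - Pi.single i 1)) := by
      rw [← Finset.sum_sub_distrib]
      exact Finset.sum_congr rfl fun i _ => by ring
    rw [h3]
    linarith
  ei := by
    intro x
    have h1 := h.ei x
    have h2 := h'.ei x
    have h3 : ∑ i, (ui (x + Pi.single i 1) - ui' (x + Pi.single i 1) +
        (ui (x - Pi.single i 1) - ui' (x - Pi.single i 1))) =
        ∑ i, (ui (x + Pi.single i 1) + ui (x - Pi.single i 1)) -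
        ∑ i, (ui' (x + Pi.single i 1) + ui' (x - Pi.single i 1)) := by
      rw [← Finset.sum_sub_distrib]
      exact Finset.sum_congr rfl fun i _ => by ring
    rw [h3]
    linarith

theorem cmp_sum (c u u' : Zd d → ℝ) (ε : ℝ) (hε : 0 < ε)
    (hu' : Summable fun x => (c x * u' x) ^ 2)
    (hw : Summable fun x => (c x * (u x - u' x)) ^ 2) (hu : Summable fun x => (c x * u x) ^ 2) :
    ∑' x, (c x * u x) ^ 2 ≤ (1 + ε) * ∑' x, (c x * u' x) ^ 2 +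
      (1 + 1 / ε) * ∑' x, (c x * (u x - u' x)) ^ 2 := by
  rw [← tsum_mul_left, ← tsum_mul_left, ← (hu'.mul_left _).tsum_add (hw.mul_left _)]
  refine hu.tsum_le_tsum (fun x => ?_) ((hu'.mul_left _).add (hw.mul_left _))
  obtain ⟨a, ha⟩ : ∃ a, a = c x * u' x := ⟨_, rfl⟩
  obtain ⟨b, hb⟩ : ∃ b, b = c x * (u x - u' x) := ⟨_, rfl⟩
  have e1 : c x * u x = a + b := by
    rw [ha, hb]
    ring
  rw [e1, ← ha, ← hb]
  have h1 : 0 ≤ (ε * a - b) ^ 2 / ε := by positivity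
  have h2 : (ε * a - b) ^ 2 / ε = ε * a ^ 2 - 2 * a * b + 1 / ε * b ^ 2 := by
    field_simp
    ring
  have h3 : (a + b) ^ 2 = a ^ 2 + 2 * a * b + b ^ 2 := by ring
  rw [h2] at h1
  rw [h3]
  linarith

/-- the second moment -/
noncomputable def SM (j : Fin d) (ur ui : Zd d → ℝ) : ℝ :=
  ∑' x, (cj j x * ur x) ^ 2 + ∑' x, (cj j x * ui x) ^ 2

theorem SM_nonneg (j : Fin d) (ur ui : Zd d → ℝ) : 0 ≤ SM j ur ui := by
  unfold SM
  exact add_nonneg (tsum_nonneg fun _ => sq_nonneg _) (tsum_nonneg fun _ => sq_nonneg _)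

/-- **the second moment is Lipschitz in the imaginary part** -/
theorem SM_lip {σ : ℝ} {ξ : Zd d → ℝ} {E t t' : ℝ} {ur ui ur' ui' : Zd d → ℝ}
    (h : LS d σ ξ (Pi.single 0 1) (fun _ => 0) E t ur ui)
    (h' : LS d σ ξ (Pi.single 0 1) (fun _ => 0) E t' ur' ui') (τ ε : ℝ) (hτ : 0 < τ)
    (ht : τ ≤ t) (ht1 : t ≤ 1) (ht' : τ ≤ t') (ht1' : t' ≤ 1) (hε : 0 < ε) (hε1 : ε ≤ 1)
    (htt : |t - t'| ≤ ε) (j : Fin d)
    (sr : Summable fun x => (cj j x * ur x) ^ 2) (si : Summable fun x => (cj j x * ui x) ^ 2)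
    (sr' : Summable fun x => (cj j x * ur' x) ^ 2) (si' : Summable fun x => (cj j x * ui' x) ^ 2) :
    SM j ur ui - SM j ur' ui' ≤ 36 * ε * (τ⁻¹) ^ 6 := by
  have ht0 : 0 < t := hτ.trans_le ht
  have ht0' : 0 < t' := hτ.trans_le ht'
  have hti : t⁻¹ ≤ τ⁻¹ := inv_anti₀ hτ ht
  have hti' : t'⁻¹ ≤ τ⁻¹ := inv_anti₀ hτ ht'
  have hτ1 : τ ≤ 1 := ht.trans ht1
  have hτi : 1 ≤ τ⁻¹ := (one_le_inv₀ hτ).2 hτ1
  obtain ⟨g1, -, g2, -⟩ := green h' ht0' ht1' j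
  have hw := LS_diff h h'
  have hsq : (t - t') ^ 2 ≤ ε ^ 2 := by
    rw [← sq_abs]
    exact pow_le_pow_left₀ (abs_nonneg _) htt 2
  -- the norms of the source
  have s1 : (fun x => (-(t - t') * ui' x) ^ 2) = fun x => (t - t') ^ 2 * ui' x ^ 2 := by
    funext x
    ring
  have s2 : (fun x => ((t - t') * ur' x) ^ 2) = fun x => (t - t') ^ 2 * ur' x ^ 2 := by
    funext x
    ring
  have s3 : (fun x => (cj j x * (-(t - t') * ui' x)) ^ 2) =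
      fun x => (t - t') ^ 2 * (cj j x * ui' x) ^ 2 := by
    funext x
    ring
  have s4 : (fun x => (cj j x * ((t - t') * ur' x)) ^ 2) =
      fun x => (t - t') ^ 2 * (cj j x * ur' x) ^ 2 := by
    funext x
    ring
  have hn := norm2 hw (by rw [s1]; exact h'.si.mul_left _) (by rw [s2]; exact h'.sr.mul_left _) ht0
  rw [s1, s2, tsum_mul_left, tsum_mul_left] at hn
  obtain ⟨m1, m2, m3⟩ := mom hw ht0 j (ε ^ 2 * (2 * (τ⁻¹) ^ 2) ^ 2)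
    (by rw [s3]; exact si'.mul_left _) (by rw [s4]; exact sr'.mul_left _) (by
      rw [s3, s4, tsum_mul_left, tsum_mul_left]
      have h1 : 0 ≤ ∑' x, (cj j x * ui' x) ^ 2 + ∑' x, (cj j x * ur' x) ^ 2 :=
        add_nonneg (tsum_nonneg fun _ => sq_nonneg _) (tsum_nonneg fun _ => sq_nonneg _)
      calc (t - t') ^ 2 * ∑' x, (cj j x * ui' x) ^ 2 + (t - t') ^ 2 * ∑' x, (cj j x * ur' x) ^ 2 =
          (t - t') ^ 2 * (∑' x, (cj j x * ui' x) ^ 2 + ∑' x, (cj j x * ur' x) ^ 2) := by ring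
        _ ≤ ε ^ 2 * (∑' x, (cj j x * ui' x) ^ 2 + ∑' x, (cj j x * ur' x) ^ 2) := by gcongr
        _ ≤ ε ^ 2 * (2 * (τ⁻¹) ^ 2) ^ 2 := by
            have h2 : (2 * (t'⁻¹) ^ 2) ^ 2 ≤ (2 * (τ⁻¹) ^ 2) ^ 2 := by gcongr
            have h3 : ∑' x, (cj j x * ui' x) ^ 2 + ∑' x, (cj j x * ur' x) ^ 2 ≤
              (2 * (τ⁻¹) ^ 2) ^ 2 := by linarith
            gcongr)
  obtain ⟨W, hW⟩ : ∃ W, W = SM j (fun x => ur x - ur' x) (fun x => ui x - ui' x) := ⟨_, rfl⟩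
  obtain ⟨N, hN⟩ : ∃ N, N = ∑' x, (ur x - ur' x) ^ 2 + ∑' x, (ui x - ui' x) ^ 2 := ⟨_, rfl⟩
  have hW' : t ^ 2 * W ≤ 2 * (ε ^ 2 * (2 * (τ⁻¹) ^ 2) ^ 2) + 8 * N := by
    rw [hW, hN]
    exact m3
  have hN' : t ^ 2 * N ≤ ε ^ 2 * (τ⁻¹) ^ 2 := by
    have h1 : 0 ≤ ∑' x, ui' x ^ 2 + ∑' x, ur' x ^ 2 :=
      add_nonneg (tsum_nonneg fun _ => sq_nonneg _) (tsum_nonneg fun _ => sq_nonneg _)
    rw [hN]
    refine hn.trans ?_
    calc (t - t') ^ 2 * ∑' x, ui' x ^ 2 + (t - t') ^ 2 * ∑' x, ur' x ^ 2 =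
        (t - t') ^ 2 * (∑' x, ui' x ^ 2 + ∑' x, ur' x ^ 2) := by ring
      _ ≤ ε ^ 2 * (∑' x, ui' x ^ 2 + ∑' x, ur' x ^ 2) := by gcongr
      _ ≤ ε ^ 2 * (τ⁻¹) ^ 2 := by
          have h2 : (t'⁻¹) ^ 2 ≤ (τ⁻¹) ^ 2 := by gcongr
          have h3 : ∑' x, ui' x ^ 2 + ∑' x, ur' x ^ 2 ≤ (τ⁻¹) ^ 2 := by linarith
          gcongr
  have hN0 : 0 ≤ N := by
    rw [hN]
    exact add_nonneg (tsum_nonneg fun _ => sq_nonneg _) (tsum_nonneg fun _ => sq_nonneg _)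
  have hW0 : 0 ≤ W := by
    rw [hW]
    exact SM_nonneg _ _ _
  have hNb : N ≤ ε ^ 2 * (τ⁻¹) ^ 4 := by
    have h1 : N = (t⁻¹) ^ 2 * (t ^ 2 * N) := by field_simp
    rw [h1]
    calc (t⁻¹) ^ 2 * (t ^ 2 * N) ≤ (τ⁻¹) ^ 2 * (ε ^ 2 * (τ⁻¹) ^ 2) := by gcongr
      _ = _ := by ring
  have hWb : W ≤ 16 * (ε ^ 2 * (τ⁻¹) ^ 6) := by
    have h1 : W = (t⁻¹) ^ 2 * (t ^ 2 * W) := by field_simp
    rw [h1]
    calc (t⁻¹) ^ 2 * (t ^ 2 * W) ≤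
        (τ⁻¹) ^ 2 * (2 * (ε ^ 2 * (2 * (τ⁻¹) ^ 2) ^ 2) + 8 * N) := by gcongr
      _ ≤ (τ⁻¹) ^ 2 * (2 * (ε ^ 2 * (2 * (τ⁻¹) ^ 2) ^ 2) + 8 * (ε ^ 2 * (τ⁻¹) ^ 4)) := by
          gcongr
      _ = _ := by ring
  have hcr := cmp_sum (cj j) ur ur' ε hε sr' m1 sr
  have hci := cmp_sum (cj j) ui ui' ε hε si' m2 si
  have hS' : SM j ur' ui' ≤ 4 * (τ⁻¹) ^ 4 := by
    have h1 : SM j ur' ui' ≤ (2 * (t'⁻¹) ^ 2) ^ 2 := by
      unfold SM
      exact g2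
    calc SM j ur' ui' ≤ (2 * (t'⁻¹) ^ 2) ^ 2 := h1
      _ ≤ (2 * (τ⁻¹) ^ 2) ^ 2 := by gcongr
      _ = _ := by ring
  have hc : SM j ur ui ≤ (1 + ε) * SM j ur' ui' + (1 + 1 / ε) * W := by
    have e1 : (1 + ε) * SM j ur' ui' + (1 + 1 / ε) * W =
        ((1 + ε) * ∑' x, (cj j x * ur' x) ^ 2 +
          (1 + 1 / ε) * ∑' x, (cj j x * (ur x - ur' x)) ^ 2) +
        ((1 + ε) * ∑' x, (cj j x * ui' x) ^ 2 +
          (1 + 1 / ε) * ∑' x, (cj j x * (ui x - ui' x)) ^ 2) := by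
      rw [hW]
      unfold SM
      ring
    rw [e1]
    unfold SM
    exact add_le_add hcr hci
  have h46 : (τ⁻¹) ^ 4 ≤ (τ⁻¹) ^ 6 := pow_le_pow_right₀ hτi (by norm_num)
  have hεε : (1 + 1 / ε) * (16 * (ε ^ 2 * (τ⁻¹) ^ 6)) ≤ 32 * ε * (τ⁻¹) ^ 6 := by
    have e1 : (1 + 1 / ε) * (16 * (ε ^ 2 * (τ⁻¹) ^ 6)) =
        16 * ε * (τ⁻¹) ^ 6 + 16 * ε * (ε * (τ⁻¹) ^ 6) := by
      field_simp
      ring
    have e2 : ε * (τ⁻¹) ^ 6 ≤ 1 * (τ⁻¹) ^ 6 := by gcongr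
    have e3 : 16 * ε * (ε * (τ⁻¹) ^ 6) ≤ 16 * ε * (1 * (τ⁻¹) ^ 6) := by gcongr
    linarith
  calc SM j ur ui - SM j ur' ui' ≤ ε * SM j ur' ui' + (1 + 1 / ε) * W := by
        linarith
    _ ≤ ε * (4 * (τ⁻¹) ^ 4) + (1 + 1 / ε) * (16 * (ε ^ 2 * (τ⁻¹) ^ 6)) := by
        gcongr
    _ ≤ ε * (4 * (τ⁻¹) ^ 6) + 32 * ε * (τ⁻¹) ^ 6 := by
        gcongr
    _ = _ := by ring

end Pool.Agent.TH794.QE
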